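import Pool.Agent.Q47.CF.Dom

/-!
# The weights of nonzero semi-invariant polynomials are dominant
-/

set_option autoImplicit false

namespace Q47.CF

open MvPolynomial Q47.FL

variable {q : ℕ}

/-- The polynomial in one variable obtained by the substitution of `g_j + s v` for the column `j`. -/
noncomputable def lp (g : Matrix (Fin q) (Fin q) ℂ) (j : Fin q) (v : Fin q → ℂ)
    (F : MvPolynomial (Fin q × Fin q) ℂ) : Polynomial ℂ :=
  eval₂ Polynomial.C (fun x => if x.2 = j then Polynomial.C (g x.1 j) + Polynomial.C (v x.1) *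
    Polynomial.X else Polynomial.C (g x.1 x.2)) F

theorem lp_eval (g : Matrix (Fin q) (Fin q) ℂ) (j : Fin q) (v : Fin q → ℂ)
    (F : MvPolynomial (Fin q × Fin q) ℂ) (s : ℂ) :
    (lp g j v F).eval s = ev (g.updateCol j fun i => g i j + s * v i) F := by
  rw [lp, ← Polynomial.coe_evalRingHom, hom_eval₂, ev, MvPolynomial.eval]
  congr 1
  · ext z
    simp
  · funext x
    simp only [Function.comp, Polynomial.coe_evalRingHom, Matrix.updateCol_apply]
    split_ifs with h
    · simp only [Polynomial.eval_add, Polynomial.eval_mul, Polynomial.eval_C, Polynomial.eval_X]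
      ring
    · simp

theorem lp_degree (g : Matrix (Fin q) (Fin q) ℂ) (j : Fin q) (v : Fin q → ℂ)
    (F : MvPolynomial (Fin q × Fin q) ℂ) {D : ℕ} (hD : ∀ α ∈ F.support, col α j = D) :
    (lp g j v F).natDegree ≤ D := by
  classical
  rw [lp, eval₂_eq']
  refine Polynomial.natDegree_sum_le_of_forall_le _ _ fun α hα => ?_
  refine Polynomial.natDegree_mul_le.trans ?_
  rw [Polynomial.natDegree_C, zero_add]
  refine (Polynomial.natDegree_prod_le _ _).trans ?_
  rw [← hD α hα, col, Fintype.sum_prod_type]
  refine Finset.sum_le_sum fun i _ => ?_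
  rw [← Finset.add_sum_erase _ _ (Finset.mem_univ j)]
  have h1 : ∑ k ∈ Finset.univ.erase j, (((if (i, k).2 = j then Polynomial.C (g (i, k).1 j) +
      Polynomial.C (v (i, k).1) * Polynomial.X else Polynomial.C (g (i, k).1 (i, k).2)) :
      Polynomial ℂ) ^ α (i, k)).natDegree = 0 := by
    refine Finset.sum_eq_zero fun k hk => ?_
    rw [if_neg (Finset.ne_of_mem_erase hk), ← Polynomial.C_pow, Polynomial.natDegree_C]
  rw [h1, add_zero, if_pos rfl]
  refine Polynomial.natDegree_pow_le.trans ?_
  have h2 : (Polynomial.C (g i j) + Polynomial.C (v i) * Polynomial.X).natDegree ≤ 1 := by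
    rw [add_comm]
    exact Polynomial.natDegree_linear_le
  calc α (i, j) * _ ≤ α (i, j) * 1 := Nat.mul_le_mul le_rfl h2
    _ = α (i, j) := mul_one _

/-- The weights are dominant. -/
theorem anti_of_semi {b : Fin q → ℕ} {d : ℕ → ℕ} {F : MvPolynomial (Fin q × Fin q) ℂ}
    (hF : IsSemiInvariant b d F) (h0 : F ≠ 0) {j k : Fin q} (hjk : b j < b k) :
    d (b k) ≤ d (b j) := by
  classical
  have hne : j ≠ k := fun h => by rw [h] at hjk; exact lt_irrefl _ hjk
  obtain ⟨x, hx⟩ : ∃ x, eval x F ≠ 0 := by
    by_contra hcon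
    push Not at hcon
    exact h0 (MvPolynomial.funext fun x => by rw [hcon, map_zero])
  let g : Matrix (Fin q) (Fin q) ℂ := Matrix.of fun i j => x (i, j)
  have hg : ev g F ≠ 0 := hx
  let v : Fin q → ℂ := fun i => g i k
  let R := lp g j v F
  let T := lp (g.updateCol k fun i => g i j) j v F
  have hR0 : R ≠ 0 := by
    intro h
    have h1 := lp_eval g j v F 0
    have h2 : lp g j v F = 0 := h
    rw [h2, Polynomial.eval_zero] at h1
    apply hg
    rw [h1]
    congr 1
    ext i l
    rw [Matrix.updateCol_apply]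
    split_ifs with h3
    · rw [h3, zero_mul, add_zero]
    · rfl
  have hT : (lp (g.updateCol k fun i => g i j) j v F).natDegree ≤ d (b j) :=
    lp_degree _ _ _ _ fun α hα => col_of_semi hF hα j
  have key : Polynomial.C ((-1 : ℂ) ^ d (b k)) * Polynomial.X ^ d (b k) * R = T := by
    refine Polynomial.eq_of_infinite_eval_eq _ _ (Set.Infinite.mono (s := {0}ᶜ) ?_
      (Set.finite_singleton (0 : ℂ)).infinite_compl)
    intro s hs
    have hs0 : s ≠ 0 := hs
    change Polynomial.eval s _ = Polynomial.eval s T
    have hu : (g.updateCol k fun i => g i j) j = (g.updateCol k fun i => g i j) j := rfl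
    rw [Polynomial.eval_mul, Polynomial.eval_mul, Polynomial.eval_C, Polynomial.eval_pow,
      Polynomial.eval_X]
    change _ * Polynomial.eval s (lp g j v F) =
      Polynomial.eval s (lp (g.updateCol k fun i => g i j) j v F)
    rw [lp_eval, lp_eval]
    -- the matrices
    set M : Matrix (Fin q) (Fin q) ℂ := g.updateCol j fun i => g i j + s * v i with hM
    have h1 := hF.scale M k (-s)
    have h2 := hF.shear (M.updateCol k fun i => -s * M i k) j k 1 hne hjk.le
    rw [← mul_pow, neg_one_mul, ← h1, ← h2]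
    congr 1
    ext i l
    simp only [Matrix.updateCol_apply, hM, v]
    by_cases hl : l = k
    · simp only [hl, if_true, if_neg hne, if_neg (Ne.symm hne)]
      ring
    · by_cases hl' : l = j
      · subst hl'
        simp [hl]
      · simp [hl, hl']
  have h1 : (Polynomial.C ((-1 : ℂ) ^ d (b k)) * Polynomial.X ^ d (b k) * R).natDegree
      = d (b k) + R.natDegree := by
    have h2 : ((-1 : ℂ) ^ d (b k)) ≠ 0 := pow_ne_zero _ (by norm_num)
    rw [Polynomial.natDegree_mul (mul_ne_zero (Polynomial.C_ne_zero.2 h2)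
      (pow_ne_zero _ Polynomial.X_ne_zero)) hR0, Polynomial.natDegree_C_mul_X_pow _ _ h2]
  have h3 : T.natDegree ≤ d (b j) := hT
  rw [← key, h1] at h3
  omega

end Q47.CF
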