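import Pool.Agent.Q47.CF.Main
import Pool.Agent.Q47.CY.Br

/-!
# The cone conjecture for flag bundles: translation of the statements
-/

set_option autoImplicit false

namespace Q47.CF

open Pool.Agent.W594.SYZ2 Pool.Agent.TH735.AQ Q47.TB MvPolynomial
open Pool.Agent.Y167 (AffGrp cone IsClass Normalizes Rel IsFace)
open Pool.Agent.Y167.CC (LinGrp N1 form nefCone Preserves IsFundDomain)
open Q47.CP (hull ap Over chernCl PresLatt)

variable {V W E : Type*} [NormedAddCommGroup V] [NormedSpace ℂ V] [NormedAddCommGroup W]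
  [NormedSpace ℂ W] [NormedAddCommGroup E] [NormedSpace ℂ E] {Γ : AffGrp V}
  {q s r : ℕ} {Y : FlagBundle Γ q s} {j : E →ₗ[ℂ] V} {Γ' : AffGrp W} {π : V →ₗ[ℂ] W}

theorem grp_eq (Δ : Bdry Y r) : grp Δ Γ' π j = grpP Δ Γ' π j := rfl

theorem effY_eq : effY Y j = effP Y j := rfl

theorem intY_eq : intY Y j = intP Y j := rfl

theorem nefY_eq : nefY Y j = nefP Y j := rfl

/-- The cone conjecture for flag bundles. -/
theorem main [FiniteDimensional ℂ V] [FiniteDimensional ℂ E] {H₀ : V → V → ℂ} (R : Rel Γ j H₀)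
    (hjr : LinearMap.range j = LinearMap.ker π)
    (Δ : Bdry Y r) {v₀ : V} (hklt : Δ.IsKltAt v₀) (hCY : IsCY Δ j)
    (𝒢 : LinGrp (NY Y j)) (hM : PresLatt (intY Y j) 𝒢)
    (hN : Preserves 𝒢 (nefY Y j ∩ effY Y j)) (hfin : 𝒢.relIndex (grp Δ Γ' π j) ≠ 0) :
    ∃ S : Finset (NY Y j), ↑S ⊆ intY Y j ∧ cone S ⊆ nefY Y j ∩ effY Y j ∧
      IsFundDomain 𝒢 (nefY Y j ∩ effY Y j) (cone S) :=
  gen_main R hjr Δ hklt hCY 𝒢 hM hN hfin

theorem absGrp_eq (Δ : Bdry Y r) :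
    absGrp Δ = grp Δ (⊥ : AffGrp PUnit) (0 : V →ₗ[ℂ] PUnit) LinearMap.id := by
  unfold absGrp grp
  refine congrArg Subgroup.closure ?_
  apply Set.ext
  intro g
  constructor
  · rintro ⟨f, a, h1, h3, h4⟩
    exact ⟨f, a, h1, ⟨1, Subgroup.one_mem _, fun _ => rfl⟩, h3, h4⟩
  · rintro ⟨f, a, h1, -, h3, h4⟩
    exact ⟨f, a, h1, h3, h4⟩

end Q47.CF
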