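import Pool.Agent.Q47.CF.Br

/-!
# Flag bundles: the faces of the nef effective cone
-/

set_option autoImplicit false

namespace Q47.CF

open Pool.Agent.W594.SYZ2 Pool.Agent.TH735.AQ Q47.TB MvPolynomial
open Pool.Agent.Y167 hiding N1
open Pool.Agent.Y167.CC (LinGrp N1 Preserves IsFundDomain)
open Q47.CY (NF NF_add NF_smul faces_of_fund)

variable {V E : Type*} [NormedAddCommGroup V] [NormedSpace ℂ V] [FiniteDimensional ℂ V]
  [NormedAddCommGroup E] [NormedSpace ℂ E] [FiniteDimensional ℂ E] {Γ : AffGrp V}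
  {q s r : ℕ} {Y : FlagBundle Γ q s} {j : E →ₗ[ℂ] V} {H₀ : V → V → ℂ}

omit [FiniteDimensional ℂ V] [FiniteDimensional ℂ E] in
theorem nefP_add {p p' : NP Γ j s} (hp : p ∈ nefP Y j) (hp' : p' ∈ nefP Y j) :
    p + p' ∈ nefP Y j := by
  obtain ⟨x, rfl⟩ := (Phi Y j).surjective p
  obtain ⟨y, rfl⟩ := (Phi Y j).surjective p'
  rw [← map_add]
  exact (nef_iff _).2 (NF_add (fun _ hx _ hy => nef_add hx hy) ((nef_iff _).1 hp)
    ((nef_iff _).1 hp'))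

omit [FiniteDimensional ℂ V] [FiniteDimensional ℂ E] in
theorem nefP_smul {p : NP Γ j s} (hp : p ∈ nefP Y j) {t : ℝ} (ht : 0 ≤ t) :
    t • p ∈ nefP Y j := by
  obtain ⟨x, rfl⟩ := (Phi Y j).surjective p
  rw [← map_smul]
  refine (nef_iff _).2 (NF_smul ?_ ht ((nef_iff _).1 hp))
  intro s hs x hx
  exact nef_smul hs hx

/-- The faces of the cone form finitely many orbits. -/
theorem faces (R : Rel Γ j H₀) (𝒢 : LinGrp (NY Y j)) (hN : Preserves 𝒢 (nefY Y j ∩ effY Y j))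
    {S : Finset (NY Y j)} (hS : cone S ⊆ nefY Y j ∩ effY Y j)
    (hcov : IsFundDomain 𝒢 (nefY Y j ∩ effY Y j) (cone S)) :
    ∃ 𝓕 : Set (Set (NY Y j)), 𝓕.Finite ∧ (∀ F ∈ 𝓕, IsFace F (nefY Y j ∩ effY Y j)) ∧
      ∀ F, IsFace F (nefY Y j ∩ effY Y j) → ∃ g ∈ 𝒢, ∃ F' ∈ 𝓕, F = g '' F' := by
  have h0 : FiniteDimensional ℝ (N1 Γ j) := finDim_N1 R
  have : FiniteDimensional ℝ (NY Y j) :=
    Module.Finite.prod (R := ℝ) (M := Fin s → ℝ) (N := N1 Γ j)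
  have h1 : ∀ x ∈ nefY Y j ∩ effY Y j, ∀ y ∈ nefY Y j ∩ effY Y j, x + y ∈ nefY Y j ∩ effY Y j :=
    fun x hx y hy => ⟨nefP_add hx.1 hy.1, effP_add hx.2 hy.2⟩
  have h2 : ∀ x ∈ nefY Y j ∩ effY Y j, ∀ t : ℝ, 0 ≤ t → t • x ∈ nefY Y j ∩ effY Y j :=
    fun x hx t ht => ⟨nefP_smul hx.1 ht, effP_smul hx.2 ht⟩
  exact faces_of_fund h1 h2 𝒢 hN hS hcov

end Q47.CF
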