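import Pool.Agent.Q47.CF.MovB
import Pool.Agent.Q47.CF.Faces

/-!
# The movable cone conjecture for flag bundles: translation of the statements
-/

set_option autoImplicit false

namespace Q47.CF

open Pool.Agent.W594.SYZ2 Pool.Agent.TH735.AQ Q47.TB MvPolynomial
open Pool.Agent.Y167
open Pool.Agent.Y167.CC (LinGrp Preserves IsFundDomain)
open Q47.CP (PresLatt)
open Q47.CY (NF T1 NF_add NF_smul faces_of_fund)

variable {V W E : Type*} [NormedAddCommGroup V] [NormedSpace ℂ V] [FiniteDimensional ℂ V]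
  [NormedAddCommGroup W] [NormedSpace ℂ W] [NormedAddCommGroup E] [NormedSpace ℂ E]
  [FiniteDimensional ℂ E] {Γ : AffGrp V} {H₀ : V → V → ℂ}
  {q s r : ℕ} {Y : FlagBundle Γ q s} {j : E →ₗ[ℂ] V} {Γ' : AffGrp W} {π : V →ₗ[ℂ] W}

omit [FiniteDimensional ℂ V] [FiniteDimensional ℂ E] in
theorem movY_eq : movY Y j = closure (mov0 Y j) := rfl

/-- The movable cone conjecture for flag bundles. -/
theorem main_mov (R : Rel Γ j H₀) (hjr : LinearMap.range j = LinearMap.ker π)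
    (Δ : Bdry Y r) {v₀ : V} (hklt : Δ.IsKltAt v₀) (hCY : IsCY Δ j)
    (𝒢 : LinGrp (NY Y j)) (hM : PresLatt (intY Y j) 𝒢)
    (hN : Preserves 𝒢 (movY Y j ∩ effY Y j)) (hfin : 𝒢.relIndex (grp Δ Γ' π j) ≠ 0) :
    ∃ S : Finset (NY Y j), ↑S ⊆ intY Y j ∧ cone S ⊆ movY Y j ∩ effY Y j ∧
      IsFundDomain 𝒢 (movY Y j ∩ effY Y j) (cone S) :=
  gen_mainT R hjr Δ hklt hCY (T := T1 (SS (pp Y.b s))) (fun _ ht => ht.1)
    ⟨∅, (smooth_Pl Y.range).empty_mem, Set.subsingleton_empty⟩ (C := closure (mov0 Y j))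
    (fun p => mov_iff R Δ hklt hCY p) 𝒢 hM hN hfin

end Q47.CF
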