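import Pool.Agent.Q47.CF.Div

/-!
# Clearing rows by column operations
-/

set_option autoImplicit false

namespace Q47.CF

open MvPolynomial Q47.FL

variable {q s : ℕ} {b : Fin q → ℕ} {d : ℕ → ℕ}

/-- The part of a column in the given rows. -/
def cpt (g : Matrix (Fin q) (Fin q) ℂ) (w : Fin q → Fin q) (m : ℕ) (j : Fin q) :
    {i : Fin q // (i : ℕ) < m} → ℂ := fun i => g (w i) j

/-- The span of the parts of the columns before `n`. -/
noncomputable def sp (g : Matrix (Fin q) (Fin q) ℂ) (w : Fin q → Fin q) (m n : ℕ) :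
    Submodule ℂ ({i : Fin q // (i : ℕ) < m} → ℂ) :=
  Submodule.span ℂ (cpt g w m '' {j | (j : ℕ) < n})

/-- Column operations which clear the given rows in many columns. -/
theorem clear (hb : Monotone b) {F : MvPolynomial (Fin q × Fin q) ℂ} (hF : IsSemiInvariant b d F)
    (g : Matrix (Fin q) (Fin q) ℂ) (w : Fin q → Fin q) (m : ℕ) :
    ∃ (B : Finset (Fin q)) (g' : Matrix (Fin q) (Fin q) ℂ), ev g' F = ev g F ∧
      (∀ i : Fin q, (i : ℕ) < m → ∀ j, j ∉ B → g' (w i) j = 0) ∧
      B.card ≤ Fintype.card {i : Fin q // (i : ℕ) < m} ∧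
      (mnv g w m = 0 → ∃ j₀ : Fin q, (j₀ : ℕ) < m ∧ j₀ ∉ B) := by
  classical
  let B : Finset (Fin q) := Finset.univ.filter fun j => cpt g w m j ∉ sp g w m j
  have hB : ∀ j, j ∉ B → ∃ y : Fin q → ℂ, ∀ i : Fin q, (i : ℕ) < m →
      g (w i) j + ∑ l ∈ Finset.univ.filter (fun l => l < j), y l * g (w i) l = 0 := by
    intro j hj
    have h1 : cpt g w m j ∈ sp g w m j := by
      by_contra h
      exact hj (Finset.mem_filter.2 ⟨Finset.mem_univ _, h⟩)
    have h2 : ∀ v ∈ sp g w m j, ∃ y : Fin q → ℂ,
        v = ∑ l ∈ Finset.univ.filter (fun l => l < j), y l • cpt g w m l := by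
      intro v hv
      refine Submodule.span_induction (p := fun v _ => ∃ y : Fin q → ℂ,
        v = ∑ l ∈ Finset.univ.filter (fun l => l < j), y l • cpt g w m l) ?_ ?_ ?_ ?_ hv
      · rintro _ ⟨l, hl, rfl⟩
        refine ⟨Pi.single l 1, ?_⟩
        have hl' : l ∈ Finset.univ.filter (fun l => l < j) :=
          Finset.mem_filter.2 ⟨Finset.mem_univ _, hl⟩
        rw [Finset.sum_eq_single l (fun l' _ h => by rw [Pi.single_eq_of_ne h, zero_smul])
          (fun h => absurd hl' h), Pi.single_eq_same, one_smul]
      · exact ⟨0, by simp⟩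
      · rintro v v' - - ⟨y, rfl⟩ ⟨y', rfl⟩
        exact ⟨y + y', by simp only [Pi.add_apply, add_smul, Finset.sum_add_distrib]⟩
      · rintro t v - ⟨y, rfl⟩
        exact ⟨t • y, by simp only [Pi.smul_apply, smul_eq_mul, mul_smul, Finset.smul_sum]⟩
    obtain ⟨y, hy⟩ := h2 _ h1
    refine ⟨-y, fun i hi => ?_⟩
    have h3 := congrFun hy ⟨i, hi⟩
    rw [Finset.sum_apply] at h3
    simp only [Pi.neg_apply, neg_mul, Finset.sum_neg_distrib]
    have h4 : g (w i) j = ∑ l ∈ Finset.univ.filter (fun l => l < j), y l * g (w i) l := h3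
    rw [h4, add_neg_cancel]
  have hB' : ∀ j, ∃ y : Fin q → ℂ, j ∉ B → ∀ i : Fin q, (i : ℕ) < m →
      g (w i) j + ∑ l ∈ Finset.univ.filter (fun l => l < j), y l * g (w i) l = 0 := by
    intro j
    by_cases h : j ∈ B
    · exact ⟨0, fun h' => absurd h h'⟩
    · obtain ⟨y, hy⟩ := hB j h
      exact ⟨y, fun _ => hy⟩
  choose y hy using hB'
  let G : ℕ → Matrix (Fin q) (Fin q) ℂ := fun n => Matrix.of fun i j =>
    g i j + if n ≤ (j : ℕ) ∧ j ∉ B then
      ∑ l ∈ Finset.univ.filter (fun l => l < j), y j l * g i l else 0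
  have hG : ∀ n ≤ q, ev (G (q - n)) F = ev g F := by
    intro n hn
    induction n with
    | zero =>
      congr 1
      ext i j
      have h1 : ¬ (q - 0 ≤ (j : ℕ) ∧ j ∉ B) := fun h => by
        have := j.2
        omega
      simp only [G, Matrix.of_apply]
      rw [if_neg h1, add_zero]
    | succ n ih =>
      rw [← ih (by omega)]
      obtain ⟨k, hk⟩ : ∃ k, k = q - (n + 1) := ⟨_, rfl⟩
      have hk1 : q - n = k + 1 := by omega
      have hkq : k < q := by omega
      rw [← hk, hk1]
      let j₁ : Fin q := ⟨k, hkq⟩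
      by_cases hj : j₁ ∈ B
      · congr 1
        ext i j
        simp only [G, Matrix.of_apply]
        congr 1
        refine if_congr ⟨fun h => ⟨?_, h.2⟩, fun h => ⟨by omega, h.2⟩⟩ rfl rfl
        have h2 : (j : ℕ) ≠ k := fun h' => h.2 (by
          have : j = j₁ := Fin.ext h'
          rwa [this])
        have := h.1
        omega
      · rw [← shear_many hF (G (k + 1)) j₁ (y j₁) (Finset.univ.filter fun l => l < j₁)
          fun l hl => ⟨(Finset.mem_filter.1 hl).2.ne, hb (Finset.mem_filter.1 hl).2.le⟩]
        congr 1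
        ext i j
        rw [Matrix.updateCol_apply]
        simp only [G, Matrix.of_apply]
        by_cases h : j = j₁
        · subst h
          rw [if_pos rfl, if_pos ⟨le_rfl, hj⟩, if_neg fun h => by
            have := h.1
            change k + 1 ≤ k at this
            omega, add_zero]
          congr 1
          refine Finset.sum_congr rfl fun l hl => ?_
          have hl' : (l : ℕ) < k := (Finset.mem_filter.1 hl).2
          rw [if_neg fun h => by
            have := h.1
            omega, add_zero]
        · rw [if_neg h]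
          congr 1
          have hne : (j : ℕ) ≠ k := fun h' => h (Fin.ext h')
          refine if_congr ⟨fun h => ⟨?_, h.2⟩, fun h => ⟨by omega, h.2⟩⟩ rfl rfl
          have := h.1
          omega
  refine ⟨B, G 0, ?_, fun i hi j hj => ?_, ?_, fun h0 => ?_⟩
  · have h1 := hG q le_rfl
    rwa [Nat.sub_self] at h1
  · simp only [G, Matrix.of_apply]
    rw [if_pos ⟨Nat.zero_le _, hj⟩]
    exact hy j hj i hi
  · have key : ∀ n ≤ q, (B.filter fun j : Fin q => (j : ℕ) < n).card ≤ Module.finrank ℂ (sp g w m n) := by
      intro n hn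
      induction n with
      | zero => simp
      | succ n ih =>
        have ih' := ih (by omega)
        let j₁ : Fin q := ⟨n, hn⟩
        have hle : sp g w m n ≤ sp g w m (n + 1) :=
          Submodule.span_mono (Set.image_mono fun j (hj : (j : ℕ) < n) => by
            change (j : ℕ) < n + 1
            omega)
        by_cases hj : j₁ ∈ B
        · have h1 : (B.filter fun j : Fin q => (j : ℕ) < n + 1)
              = insert j₁ (B.filter fun j : Fin q => (j : ℕ) < n) := by
            ext j
            simp only [Finset.mem_filter, Finset.mem_insert]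
            constructor
            · rintro ⟨h1, h2⟩
              rcases Nat.lt_or_ge j n with h | h
              · exact Or.inr ⟨h1, h⟩
              · exact Or.inl (Fin.ext (by change (j : ℕ) = n; omega))
            · rintro (rfl | ⟨h1, h2⟩)
              · exact ⟨hj, by change n < n + 1; omega⟩
              · exact ⟨h1, by omega⟩
          rw [h1, Finset.card_insert_of_notMem fun h => by
            have := (Finset.mem_filter.1 h).2
            change n < n at this
            omega]
          have h2 : sp g w m n < sp g w m (n + 1) := by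
            refine lt_of_le_of_ne hle fun h => ?_
            have h3 : cpt g w m j₁ ∉ sp g w m n := (Finset.mem_filter.1 hj).2
            rw [h] at h3
            exact h3 (Submodule.subset_span ⟨j₁, by change n < n + 1; omega, rfl⟩)
          have h3 := Submodule.finrank_lt_finrank_of_lt h2
          omega
        · have h1 : (B.filter fun j : Fin q => (j : ℕ) < n + 1) = B.filter fun j : Fin q => (j : ℕ) < n := by
            ext j
            simp only [Finset.mem_filter]
            refine and_congr_right fun h1 => ⟨fun h2 => ?_, fun h2 => by omega⟩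
            have h3 : (j : ℕ) ≠ n := fun h' => hj (by
              have : j₁ = j := (Fin.ext h').symm
              rwa [this])
            omega
          rw [h1]
          exact ih'.trans (Submodule.finrank_mono hle)
    have h1 := key q le_rfl
    have h2 : B.filter (fun j : Fin q => (j : ℕ) < q) = B := Finset.filter_true_of_mem fun j _ => j.2
    rw [h2] at h1
    refine h1.trans ((Submodule.finrank_le _).trans ?_)
    rw [Module.finrank_fintype_fun_eq_card]
  · have h1 : ∃ c : {i : Fin q // (i : ℕ) < m} → ℂ, c ≠ 0 ∧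
        (Matrix.of fun i j : {i : Fin q // (i : ℕ) < m} => g (w i) j).mulVec c = 0 :=
      Matrix.exists_mulVec_eq_zero_iff.2 h0
    obtain ⟨c, hc, hc0⟩ := h1
    let U : Finset {i : Fin q // (i : ℕ) < m} := Finset.univ.filter fun i => c i ≠ 0
    have h2 : U.Nonempty := by
      obtain ⟨i, hi⟩ := Function.ne_iff.1 hc
      exact ⟨i, Finset.mem_filter.2 ⟨Finset.mem_univ _, hi⟩⟩
    obtain ⟨j₀, hj₀, hmax⟩ := Finset.exists_max_image U (fun i => (i : Fin q)) h2
    have hc1 : c j₀ ≠ 0 := (Finset.mem_filter.1 hj₀).2
    refine ⟨j₀, j₀.2, fun h => (Finset.mem_filter.1 h).2 ?_⟩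
    let U' : Finset {i : Fin q // (i : ℕ) < m} := Finset.univ.erase j₀
    have h3 : cpt g w m j₀ = -(c j₀)⁻¹ • ∑ l ∈ U', c l • cpt g w m (l : Fin q) := by
      funext i
      have h4 := congrFun hc0 i
      change ∑ l : {i : Fin q // (i : ℕ) < m}, g (w i) l * c l = 0 at h4
      rw [← Finset.add_sum_erase _ _ (Finset.mem_univ j₀)] at h4
      rw [Pi.smul_apply, Finset.sum_apply, smul_eq_mul]
      change g (w i) j₀ = -(c j₀)⁻¹ * ∑ l ∈ U', c l * g (w i) l
      have h5 : ∑ l ∈ U', c l * g (w i) l
          = ∑ l ∈ U', g (w i) l * c l :=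
        Finset.sum_congr rfl fun l _ => mul_comm _ _
      rw [h5]
      have h6 : ∑ l ∈ U', g (w i) l * c l = -(g (w i) j₀ * c j₀) := by
        linear_combination h4
      rw [h6]
      field_simp
    rw [h3]
    refine Submodule.smul_mem _ _ (Submodule.sum_mem _ fun l hl => ?_)
    by_cases hl0 : c l = 0
    · rw [hl0, zero_smul]
      exact Submodule.zero_mem _
    · refine Submodule.smul_mem _ _ (Submodule.subset_span ⟨l, ?_, rfl⟩)
      have h7 := hmax l (Finset.mem_filter.2 ⟨Finset.mem_univ _, hl0⟩)
      have h8 : (l : Fin q) ≠ j₀ := fun h => (Finset.mem_erase.1 hl).1 (Subtype.ext h)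
      exact lt_of_le_of_ne h7 h8

end Q47.CF
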