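import Pool.Agent.Q47.CF.Prod
import Pool.Agent.Q47.CY.Main

/-!
# The cones of a flag bundle in terms of the Plücker coordinates
-/

set_option autoImplicit false

namespace Q47.CF

open Finset
open Pool.Agent.W594.SYZ2 Pool.Agent.W594.SYZ2.TQ Pool.Agent.TH735.AQ
open Pool.Agent.Y167
open Q47.TB Q47.CY MvPolynomial Q47.FL

variable {V E : Type*} [NormedAddCommGroup V] [NormedSpace ℂ V] [FiniteDimensional ℂ V]
  [NormedAddCommGroup E] [NormedSpace ℂ E] [FiniteDimensional ℂ E] {Γ : Subgroup (V ≃ᵃ[ℂ] V)}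
  {j : E →ₗ[ℂ] V} {H₀ : V → V → ℂ} {q s r : ℕ} {Y : FlagBundle Γ q s}

theorem sum_blk_eq {M : Type*} [AddCommMonoid M] {b : Fin q → ℕ} {k : ℕ} (f : Fin q → M) :
    ∑ i ∈ blk b k, f i = ∑ i, if b i ≤ k then f i else 0 := Finset.sum_filter _ _

theorem Pl_ext {b : Fin q → ℕ} {k : Fin s}
    {I I' : {I : Finset (Fin q) // I.card = (blk b k).card}}
    (h : (⟨k, I⟩ : Pl b s) = ⟨k, I'⟩) : I = I' := eq_of_heq (Sigma.mk.inj_iff.1 h).2

theorem cast_mem {N : Type*} [AddCommGroup N] [Module ℝ N] (L : AddSubgroup N) {x : N}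
    (hx : x ∈ L) (n : ℤ) : (n : ℝ) • x ∈ L := by
  rw [Int.cast_smul_eq_zsmul]
  exact L.zsmul_mem hx n

theorem alg_aux {N : Type*} [AddCommGroup N] [Module ℝ N] (a : Fin q → ℝ) (t : ℝ)
    (g : Fin q → N) (x : N) :
    (∑ i, a i • g i + x) - t • ∑ i, g i = ∑ i, (a i - t) • g i + x := by
  simp only [sub_smul, Finset.sum_sub_distrib, Finset.smul_sum]
  abel

/-- The space `N^1(Y/Z)`. -/
abbrev NP (Γ : Subgroup (V ≃ᵃ[ℂ] V)) (j : E →ₗ[ℂ] V) (s : ℕ) : Type _ := (Fin s → ℝ) × N1 Γ j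

/-- The class of a line bundle. -/
noncomputable def clP (Y : FlagBundle Γ q s) (j : E →ₗ[ℂ] V) (t : ℕ → ℝ) (x : N1 Γ j) :
    NP Γ j s :=
  (fun k => t k - t (k + 1), x - t s • ∑ i, clsE j (Y.chern i))

/-- The integral classes. -/
def intP (Y : FlagBundle Γ q s) (j : E →ₗ[ℂ] V) : Set (NP Γ j s) :=
  {p | ∃ (t : ℕ → ℤ) (M : LineBundle Γ) (x : N1 Γ j), IsClass j M x.1 ∧
    p = clP Y j (fun k => t k) x}

/-- The effective cone. -/
def effP (Y : FlagBundle Γ q s) (j : E →ₗ[ℂ] V) : Set (NP Γ j s) :=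
  {p | ∃ A : Finset (NP Γ j s), (∀ a ∈ A, ∃ (t : ℕ → ℕ) (M : LineBundle Γ) (x : N1 Γ j),
    IsClass j M x.1 ∧ a = clP Y j (fun k => t k) x ∧
      ∃ G, FL.IsSection Y.b Y.c t M.e G ∧ ∃ v, G v ≠ 0) ∧ p ∈ cone A}

/-- The nef cone. -/
def nefP (Y : FlagBundle Γ q s) (j : E →ₗ[ℂ] V) : Set (NP Γ j s) :=
  {p | (∀ k, 0 ≤ p.1 k) ∧ ∀ w : Equiv.Perm (Fin q),
    p.2 - ∑ i, wt Y p.1 i • clsE j (Y.chern (w i)) ∈ nefCone Γ j}

/-- The isomorphism. -/
noncomputable def Phi (Y : FlagBundle Γ q s) (j : E →ₗ[ℂ] V) :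
    (Cl (ug Y.b s) × N1 Γ j) ≃ₗ[ℝ] NP Γ j s :=
  (degE Y.b s).prodCongr (LinearEquiv.refl ℝ (N1 Γ j))

/-- The classes of the Plücker coordinates. -/
noncomputable def hP (Y : FlagBundle Γ q s) (j : E →ₗ[ℂ] V) (x : Pl Y.b s) : N1 Γ j :=
  clsE j (chern_tp Y.chern x.2.1)

omit [FiniteDimensional ℂ V] [FiniteDimensional ℂ E] in
theorem hP_eq (x : Pl Y.b s) : hP Y j x = ∑ i ∈ x.2.1, clsE j (Y.chern i) := by
  classical
  apply Subtype.ext
  funext v w
  rw [Submodule.coe_sum]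
  simp only [Finset.sum_apply]
  rfl

omit [FiniteDimensional ℂ V] [FiniteDimensional ℂ E] in
theorem sum_hP (β : Pl Y.b s → ℝ) : ∑ x, β x • hP Y j x
    = ∑ i, (∑ x : Pl Y.b s, if i ∈ x.2.1 then β x else 0) • clsE j (Y.chern i) := by
  classical
  simp only [Finset.sum_smul]
  rw [Finset.sum_comm]
  refine Finset.sum_congr rfl fun x _ => ?_
  rw [hP_eq, Finset.smul_sum]
  simp only [ite_smul, zero_smul]
  rw [← Finset.sum_filter, Finset.filter_mem_eq_inter, Finset.univ_inter]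

omit [FiniteDimensional ℂ V] [FiniteDimensional ℂ E] in
theorem Phi_fst (β : Pl Y.b s → ℝ) (x : N1 Γ j) (k : Fin s) :
    (Phi Y j (dv (ug Y.b s) (hP Y j) β + lft (ug Y.b s) x)).1 k = ∑ I, β ⟨k, I⟩ := by
  change degE Y.b s (cls (ug Y.b s) β + 0) k = _
  rw [add_zero]
  rfl

omit [FiniteDimensional ℂ V] [FiniteDimensional ℂ E] in
theorem Phi_snd (β : Pl Y.b s → ℝ) (x : N1 Γ j) :
    (Phi Y j (dv (ug Y.b s) (hP Y j) β + lft (ug Y.b s) x)).2 = ∑ y, β y • hP Y j y + x := by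
  change (dv (ug Y.b s) (hP Y j) β).2 + x = _
  rw [dv_snd]

/-- The sets of the coordinates which vanish on the sections given by the permutations. -/
def TP (b : Fin q → ℕ) (s : ℕ) : Set (Set (Pl b s)) :=
  {t | ∃ w : Equiv.Perm (Fin q), t = {x | x.2.1 ≠ (blk b x.1).map w.toEmbedding}}

theorem TP_sub (b : Fin q → ℕ) (s : ℕ) : TP b s ⊆ SS (pp b s) := by
  rintro t ⟨w, rfl⟩ k
  exact ⟨⟨k, ⟨(blk b k).map w.toEmbedding, Finset.card_map _⟩⟩, rfl, fun h => h rfl⟩

theorem TP_ne (b : Fin q → ℕ) (s : ℕ) : (TP b s).Nonempty := ⟨_, 1, rfl⟩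

omit [FiniteDimensional ℂ V] [FiniteDimensional ℂ E] in
/-- Divisors of the Plücker coordinates of a permutation. -/
theorem sum_perm (w : Equiv.Perm (Fin q)) {β : Pl Y.b s → ℝ}
    (hβ : ∀ x : Pl Y.b s, x.2.1 ≠ (blk Y.b x.1).map w.toEmbedding → β x = 0) :
    ∑ x, β x • hP Y j x
      = ∑ i, wt Y (fun k => ∑ I, β ⟨k, I⟩) i • clsE j (Y.chern (w i)) := by
  classical
  have h1 : ∀ k : Fin s, ∑ I : {I : Finset (Fin q) // I.card = (blk Y.b k).card}, β ⟨k, I⟩
      = β ⟨k, ⟨(blk Y.b k).map w.toEmbedding, Finset.card_map _⟩⟩ := by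
    intro k
    refine Finset.sum_eq_single _ (fun I _ hI => hβ _ fun h => hI (Subtype.ext h)) fun h => ?_
    exact absurd (Finset.mem_univ _) h
  rw [Fintype.sum_sigma]
  have h2 : ∀ k : Fin s, ∑ I : {I : Finset (Fin q) // I.card = (blk Y.b k).card},
      β ⟨k, I⟩ • hP Y j ⟨k, I⟩ = (∑ I, β ⟨k, I⟩) • ∑ i ∈ blk Y.b k, clsE j (Y.chern (w i)) := by
    intro k
    rw [h1, Finset.sum_eq_single ⟨(blk Y.b k).map w.toEmbedding, Finset.card_map _⟩
      (fun I _ hI => by rw [hβ _ fun h => hI (Subtype.ext h), zero_smul])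
      (fun h => absurd (Finset.mem_univ _) h), hP_eq]
    congr 1
    exact Finset.sum_map _ _ _
  have h3 : ∀ k : Fin s, (∑ I, β ⟨k, I⟩) • ∑ i ∈ blk Y.b k, clsE j (Y.chern (w i))
      = ∑ i, (if Y.b i ≤ (k : ℕ) then ∑ I, β ⟨k, I⟩ else 0) • clsE j (Y.chern (w i)) := by
    intro k
    rw [Finset.smul_sum, sum_blk_eq]
    refine Finset.sum_congr rfl fun i _ => ?_
    split_ifs
    · rfl
    · rw [zero_smul]
  rw [Finset.sum_congr rfl fun k _ => (h2 k).trans (h3 k), Finset.sum_comm]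
  refine Finset.sum_congr rfl fun i _ => ?_
  rw [wt, ← Finset.sum_smul]

omit [FiniteDimensional ℂ V] [FiniteDimensional ℂ E] in
/-- The nef cone. -/
theorem nef_iff (p : Cl (ug Y.b s) × N1 Γ j) :
    Phi Y j p ∈ nefP Y j ↔ p ∈ NF (ug Y.b s) (nefCone Γ j) (hP Y j) (TP Y.b s) := by
  classical
  constructor
  · rintro ⟨h1, h2⟩ t ⟨w, rfl⟩
    set a : Fin s → ℝ := (Phi Y j p).1 with ha
    let β : Pl Y.b s → ℝ := fun x =>
      if x.2.1 = (blk Y.b x.1).map w.toEmbedding then a x.1 else 0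
    have hβ : ∀ x : Pl Y.b s, x.2.1 ≠ (blk Y.b x.1).map w.toEmbedding → β x = 0 := fun x hx =>
      if_neg hx
    have hdeg : ∀ k : Fin s, ∑ I, β ⟨k, I⟩ = a k := by
      intro k
      rw [Finset.sum_eq_single ⟨(blk Y.b k).map w.toEmbedding, Finset.card_map _⟩
        (fun I _ hI => hβ _ fun h => hI (Subtype.ext h)) (fun h => absurd (Finset.mem_univ _) h)]
      exact if_pos rfl
    refine ⟨β, fun x => ?_, fun x hx => hβ x hx, p.2 - ∑ x, β x • hP Y j x, ?_, ?_⟩
    · simp only [β]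
      split_ifs
      · exact h1 _
      · exact le_rfl
    · rw [sum_perm w hβ]
      have h3 : (fun k => ∑ I, β ⟨k, I⟩) = a := funext hdeg
      rw [h3]
      exact h2 w
    · apply (Phi Y j).injective
      refine Prod.ext ?_ ?_
      · funext k
        rw [Phi_fst, hdeg]
      · rw [Phi_snd]
        change p.2 = _
        abel
  · intro h
    refine ⟨fun k => ?_, fun w => ?_⟩
    · obtain ⟨t, ht⟩ := TP_ne Y.b s
      obtain ⟨β, h1, -, x, -, rfl⟩ := h t ht
      rw [Phi_fst]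
      exact Finset.sum_nonneg fun I _ => h1 _
    · obtain ⟨β, h1, h2, x, h3, rfl⟩ := h _ ⟨w, rfl⟩
      have h4 : (Phi Y j (dv (ug Y.b s) (hP Y j) β + lft (ug Y.b s) x)).1
          = fun k => ∑ I, β ⟨k, I⟩ := funext fun k => Phi_fst β x k
      rw [Phi_snd, h4, ← sum_perm w fun x hx => h2 x hx, add_sub_cancel_left]
      exact h3

omit [FiniteDimensional ℂ V] [FiniteDimensional ℂ E] in
/-- The integral classes. -/
theorem int_iff (p : Cl (ug Y.b s) × N1 Γ j) :
    Phi Y j p ∈ intP Y j ↔ p ∈ LY (ug Y.b s) (intL Γ j) := by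
  classical
  have hh : ∑ i, clsE j (Y.chern i) ∈ intL Γ j :=
    (intL Γ j).sum_mem fun i _ => clsE_mem (Y.chern i)
  constructor
  · rintro ⟨t, M, x, hx, hp⟩
    refine ⟨⟨fun y => if y = zp Y.b s y.1 then t y.1 - t (y.1 + 1) else 0, ?_⟩, ?_⟩
    · apply (degE Y.b s).injective
      funext k
      have h1 := congrFun (congrArg Prod.fst hp) k
      change degE Y.b s p.1 k = _ at h1
      rw [h1, degE_cls]
      rw [Finset.sum_eq_single ⟨blk Y.b k, rfl⟩]
      · change (t k : ℝ) - t (k + 1)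
          = ((if zp Y.b s k = zp Y.b s k then t k - t (k + 1) else 0 : ℤ) : ℝ)
        rw [if_pos rfl]
        push_cast
        rfl
      · intro I _ hI
        change ((if (⟨k, I⟩ : Pl Y.b s) = zp Y.b s k then t k - t (k + 1) else 0 : ℤ) : ℝ) = 0
        have h2 : (⟨k, I⟩ : Pl Y.b s) ≠ zp Y.b s k := fun h => hI (Pl_ext h)
        rw [if_neg h2, Int.cast_zero]
      · intro h
        exact absurd (Finset.mem_univ _) h
    · have h1 : p.2 = x - (t s : ℝ) • ∑ i, clsE j (Y.chern i) := congrArg Prod.snd hp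
      rw [h1]
      exact (intL Γ j).sub_mem ⟨M, hx⟩ (cast_mem (intL Γ j) hh (t s))
  · rintro ⟨⟨z, hz⟩, M, hx⟩
    refine ⟨fun n => ∑ k : Fin s, if n ≤ (k : ℕ) then ∑ I, z ⟨k, I⟩ else 0, M, p.2, hx, ?_⟩
    have hs : (∑ k : Fin s, if s ≤ (k : ℕ) then ∑ I, z ⟨k, I⟩ else 0) = 0 :=
      Finset.sum_eq_zero fun k _ => if_neg (not_le.2 k.2)
    refine Prod.ext ?_ ?_
    · funext k
      change degE Y.b s p.1 k = _
      rw [hz, degE_cls]
      change _ = (((∑ l : Fin s, if (k : ℕ) ≤ (l : ℕ) then ∑ I, z ⟨l, I⟩ else 0 : ℤ)) : ℝ) -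
        ((∑ l : Fin s, if (k : ℕ) + 1 ≤ (l : ℕ) then ∑ I, z ⟨l, I⟩ else 0 : ℤ) : ℝ)
      rw [← Int.cast_sub, ← Finset.sum_sub_distrib, Finset.sum_eq_single k]
      · rw [if_pos le_rfl, if_neg (by omega), sub_zero]
        push_cast
        rfl
      · intro l _ hl
        have hne : (l : ℕ) ≠ k := fun h => hl (Fin.ext h)
        by_cases h1 : (k : ℕ) ≤ l
        · rw [if_pos h1, if_pos (by omega), sub_self]
        · rw [if_neg h1, if_neg (by omega), sub_self]
      · intro h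
        exact absurd (Finset.mem_univ _) h
    · change p.2 = p.2 - ((∑ k : Fin s, if s ≤ (k : ℕ) then ∑ I, z ⟨k, I⟩ else 0 : ℤ) : ℝ) •
        ∑ i, clsE j (Y.chern i)
      rw [hs, Int.cast_zero, zero_smul, sub_zero]

omit [FiniteDimensional ℂ V] [FiniteDimensional ℂ E] in
theorem effP_add {p p' : NP Γ j s} (hp : p ∈ effP Y j) (hp' : p' ∈ effP Y j) :
    p + p' ∈ effP Y j := by
  classical
  obtain ⟨A, hA, h1⟩ := hp
  obtain ⟨B, hB, h2⟩ := hp'
  refine ⟨A ∪ B, fun a ha => ?_, cone_add (cone_mono Finset.subset_union_left h1)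
    (cone_mono Finset.subset_union_right h2)⟩
  rcases Finset.mem_union.1 ha with h | h
  · exact hA a h
  · exact hB a h

omit [FiniteDimensional ℂ V] [FiniteDimensional ℂ E] in
theorem effP_smul {p : NP Γ j s} (hp : p ∈ effP Y j) {t : ℝ} (ht : 0 ≤ t) :
    t • p ∈ effP Y j := by
  obtain ⟨A, hA, h1⟩ := hp
  exact ⟨A, hA, cone_smul h1 ht⟩

omit [FiniteDimensional ℂ V] [FiniteDimensional ℂ E] in
theorem effP_of {t : ℕ → ℕ} {M : LineBundle Γ} {x : N1 Γ j} (hx : IsClass j M x.1)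
    {G : V → MvPolynomial (Fin q × Fin q) ℂ} (hG : FL.IsSection Y.b Y.c t M.e G)
    (h0 : ∃ v, G v ≠ 0) : clP Y j (fun k => t k) x ∈ effP Y j :=
  ⟨{clP Y j (fun k => t k) x}, fun a ha => by
    rw [Finset.mem_singleton.1 ha]
    exact ⟨t, M, x, hx, rfl, G, hG, h0⟩, mem_cone_self (Finset.mem_singleton_self _)⟩

omit [FiniteDimensional ℂ V] [FiniteDimensional ℂ E] in
theorem effP_zero : (0 : NP Γ j s) ∈ effP Y j := ⟨∅, by simp, zero_mem_cone _⟩

/-- The minors of permutation matrices. -/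
theorem mnv_pm (w : Equiv.Perm (Fin q)) (m : ℕ) : mnv (pm w) w m = 1 := by
  rw [mnv]
  have : (Matrix.of fun i j : {i : Fin q // (i : ℕ) < m} => pm w (w i) j) = 1 := by
    ext i j
    rw [Matrix.of_apply, pm, Matrix.of_apply, Matrix.one_apply]
    by_cases h : i = j
    · rw [h, if_pos rfl, if_pos rfl]
    · rw [if_neg h, if_neg]
      intro h'
      exact h (Subtype.ext (w.injective h'))
  rw [this, Matrix.det_one]

omit [FiniteDimensional ℂ V] [FiniteDimensional ℂ E] in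
/-- The divisors of the Plücker coordinates are effective. -/
theorem effP_D (y : Pl Y.b s) :
    Phi Y j (dv (ug Y.b s) (hP Y j) (Pi.single y 1)) ∈ effP Y j := by
  classical
  obtain ⟨k, I, hI⟩ := y
  obtain ⟨w, hw⟩ := Equiv.Perm.exists_map_finset_eq (blk Y.b k) I hI.symm
  let l : Fin q → ℕ := fun i => if Y.b i ≤ k then 1 else 0
  let t : ℕ → ℕ := fun n => if n ≤ (k : ℕ) then 1 else 0
  have hl : Antitone l := by
    intro i i' hii
    have h1 := Y.mono hii
    simp only [l]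
    split_ifs with h2 h3 h3
    · exact le_rfl
    · exact absurd (h1.trans h2) h3
    · exact Nat.zero_le _
    · exact le_rfl
  have hprod : ∀ c : Fin q → ℂ, ∏ i, c (w i) ^ l i = ∏ i ∈ I, c i := by
    intro c
    rw [← hw, Finset.prod_map, blk, Finset.prod_filter]
    refine Finset.prod_congr rfl fun i _ => ?_
    simp only [l]
    split_ifs
    · rw [pow_one]
      rfl
    · rw [pow_zero]
  have h1 := effP_of (Y := Y) (j := j) (t := t) (M := tp Y.c I) (x := clsE j (chern_tp Y.chern I))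
    ⟨_, chern_tp Y.chern I, fun _ _ => rfl⟩ (G := fun _ => pr w l) ⟨fun α =>
      differentiable_const _, fun _ => semi_pr Y.mono hl (fun _ => rfl) w, fun γ v g => by
        rw [left_pr hl w (fun i => (Y.c i).e γ v) g]
        change _ = (∏ i ∈ I, (Y.c i).e γ v) * _
        rw [← hprod fun i => (Y.c i).e γ v]⟩ ⟨0, fun h => by
        have h2 := ev_pr (pm w) w l
        have h3 : pr (w : Fin q → Fin q) l = 0 := h
        rw [h3, ev, map_zero] at h2
        refine absurd h2.symm (Finset.prod_ne_zero_iff.2 fun m _ => pow_ne_zero _ ?_)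
        rw [mnv_pm]
        exact one_ne_zero⟩
  have h2 : Phi Y j (dv (ug Y.b s) (hP Y j) (Pi.single ⟨k, ⟨I, hI⟩⟩ 1))
      = clP Y j (fun n => (t n : ℝ)) (clsE j (chern_tp Y.chern I)) := by
    have h3 := Phi_fst (Y := Y) (j := j) (Pi.single ⟨k, ⟨I, hI⟩⟩ 1) 0
    have h4 := Phi_snd (Y := Y) (j := j) (Pi.single ⟨k, ⟨I, hI⟩⟩ 1) 0
    rw [map_zero, add_zero] at h3 h4
    refine Prod.ext ?_ ?_
    · funext k'
      rw [h3]
      change _ = (t k' : ℝ) - t (k' + 1)
      by_cases hk : k' = k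
      · subst hk
        rw [Finset.sum_eq_single ⟨I, hI⟩]
        · rw [Pi.single_eq_same]
          simp [t]
        · intro I' _ hI'
          rw [Pi.single_apply, if_neg fun h => hI' (Pl_ext h)]
        · intro h
          exact absurd (Finset.mem_univ _) h
      · rw [Finset.sum_eq_zero fun I' _ => by
          rw [Pi.single_apply, if_neg fun h => hk (Sigma.mk.inj_iff.1 h).1]]
        have hne : (k' : ℕ) ≠ k := fun h => hk (Fin.ext h)
        have h5 : t k' = t (k' + 1) := by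
          simp only [t]
          by_cases h6 : (k' : ℕ) ≤ k
          · rw [if_pos h6, if_pos (by omega)]
          · rw [if_neg h6, if_neg (by omega)]
        rw [h5, sub_self]
    · rw [h4]
      change _ = clsE j (chern_tp Y.chern I) - (t s : ℝ) • ∑ i, clsE j (Y.chern i)
      have h5 : t s = 0 := if_neg (not_le.2 k.2)
      rw [h5, Nat.cast_zero, zero_smul, sub_zero, Finset.sum_eq_single ⟨k, ⟨I, hI⟩⟩]
      · rw [Pi.single_eq_same, one_smul, add_zero]
        rfl
      · intro y _ hy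
        rw [Pi.single_eq_of_ne hy, zero_smul]
      · intro h
        exact absurd (Finset.mem_univ _) h
  rw [h2]
  exact h1

/-- Pullbacks of effective classes are effective. -/
theorem effP_lft (R : Rel Γ j H₀) {x : N1 Γ j} (hx : x ∈ Cp (intL Γ j) (nefCone Γ j)) :
    Phi Y j (lft (ug Y.b s) x) ∈ effP Y j := by
  classical
  obtain ⟨F, hF, h1⟩ := hx
  refine cone_ind (p := fun x => Phi Y j (lft (ug Y.b s) x) ∈ effP Y j) ?_ ?_ ?_ ?_ h1
  · rw [map_zero, map_zero]
    exact effP_zero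
  · intro x y hx hy
    rw [map_add, map_add]
    exact effP_add hx hy
  · intro t x ht hx
    rw [map_smul, map_smul]
    exact effP_smul hx ht
  · intro a ha
    obtain ⟨m, hm, L, hL, hs⟩ := exists_eff R (hF a ha).1 (hF a ha).2
    obtain ⟨σ, hs, hs0⟩ := hs 0
    have hmr : (0 : ℝ) < m := by exact_mod_cast hm
    have h2 : Phi Y j (lft (ug Y.b s) a)
        = (m : ℝ)⁻¹ • Phi Y j (lft (ug Y.b s) ((m : ℝ) • a)) := by
      rw [map_smul, map_smul, smul_smul, inv_mul_cancel₀ hmr.ne', one_smul]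
    rw [h2]
    refine effP_smul ?_ (inv_nonneg.2 hmr.le)
    have h3 := effP_of (Y := Y) (t := fun _ => 0) (M := L) (x := (m : ℝ) • a) hL
      (G := fun v => C (σ v)) ⟨fun α => ?_, fun v => ⟨fun g i t => ?_, fun g i k t _ _ => ?_⟩,
        fun γ v g => ?_⟩ ⟨0, fun h => hs0 (C_eq_zero.1 h)⟩
    · have h4 : Phi Y j (lft (ug Y.b s) ((m : ℝ) • a))
          = clP Y j (fun _ => ((0 : ℕ) : ℝ)) ((m : ℝ) • a) := by
        refine Prod.ext ?_ ?_
        · funext k
          change degE Y.b s 0 k = ((0 : ℕ) : ℝ) - ((0 : ℕ) : ℝ)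
          rw [map_zero, sub_self]
          rfl
        · change (m : ℝ) • a = (m : ℝ) • a - ((0 : ℕ) : ℝ) • _
          rw [Nat.cast_zero, zero_smul, sub_zero]
      rw [h4]
      exact h3
    · simp only [coeff_C]
      split_ifs
      · exact hs.holo
      · exact differentiable_const _
    · rw [ev, ev, eval_C, eval_C, pow_zero, one_mul]
    · rw [ev, ev, eval_C, eval_C]
    · rw [ev, ev, eval_C, eval_C]
      exact hs.eq γ v

/-- The effective cone. -/
theorem eff_iff (R : Rel Γ j H₀) (p : Cl (ug Y.b s) × N1 Γ j) :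
    Phi Y j p ∈ effP Y j ↔
      p ∈ CT (ug Y.b s) (Cp (intL Γ j) (nefCone Γ j)) (hP Y j) ∅ := by
  classical
  have hCp0 : ∀ x ∈ Cp (intL Γ j) (nefCone Γ j), ∀ y ∈ Cp (intL Γ j) (nefCone Γ j),
      x + y ∈ Cp (intL Γ j) (nefCone Γ j) := by
    intro x hx y hy
    rw [mem_Cp_iff' R] at hx hy ⊢
    exact nefEff_add x hx y hy
  have hCp1 : ∀ s : ℝ, 0 ≤ s → ∀ x ∈ Cp (intL Γ j) (nefCone Γ j),
      s • x ∈ Cp (intL Γ j) (nefCone Γ j) := by
    intro s hs x hx
    rw [mem_Cp_iff' R] at hx ⊢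
    exact nefEff_smul x hx s hs
  constructor
  · rintro ⟨A, hA, hp⟩
    have key : ∀ z, z ∈ cone A → (Phi Y j).symm z ∈
        CT (ug Y.b s) (Cp (intL Γ j) (nefCone Γ j)) (hP Y j) ∅ := by
      intro z hz
      refine cone_ind (p := fun z => (Phi Y j).symm z ∈
        CT (ug Y.b s) (Cp (intL Γ j) (nefCone Γ j)) (hP Y j) ∅) ?_
        (fun x y hx hy => by rw [map_add]; exact CT_add hCp0 hx hy)
        (fun t x ht hx => by rw [map_smul]; exact CT_smul hCp1 ht hx) ?_ hz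
      · rw [map_zero]
        exact ⟨0, fun i => le_rfl, fun i _ => rfl, 0, ⟨∅, by simp, zero_mem_cone _⟩,
          by rw [map_zero, map_zero, add_zero]⟩
      · intro a ha
        obtain ⟨t, M, x₀, ⟨HM, hHM, hx₀⟩, rfl, G, hG, v, hv⟩ := hA a ha
        obtain ⟨α, hα⟩ := support_nonempty.2 hv
        obtain ⟨β, hβ0, hβ1, hβ2⟩ := rado Y.mono Y.range (hG.semi v) hα
        have hch := chern_tw hHM Y.chern 1 (row α)
        obtain ⟨x, hx, hxI⟩ := exists_int (j := j) (L := Q47.TB.tw M Y.c 1 (row α))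
          (h := fun e w => ((1 : ℕ) : ℂ) * (HM (j e) (j w) - ∑ i, (row α i : ℂ) *
            Y.Hc i (j e) (j w))) ⟨_, hch, fun _ _ => rfl⟩
        refine ⟨β, hβ0, fun i hi => hi.elim, x, ?_, ?_⟩
        · rw [mem_Cp_iff' R]
          have h3 : x ∈ effCone Γ j := ⟨{x}, fun b hb => by
            rw [Finset.mem_singleton.1 hb]
            exact ⟨_, _, ⟨_, hch, fun e w => by rw [hx]⟩, coeff_section' hG α, v,
              mem_support_iff.1 hα⟩, mem_cone_self (Finset.mem_singleton_self x)⟩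
          exact ⟨eff_nef R.tq h3, h3⟩
        · rw [LinearEquiv.symm_apply_eq]
          have hx0 : x₀ = ∑ i, (row α i : ℝ) • clsE j (Y.chern i) + x := by
            apply Subtype.ext
            funext e w
            have h4 : (∑ i, (row α i : ℝ) • clsE j (Y.chern i) + x : N1 Γ j).1 e w
                = (∑ i, (row α i : ℝ) • clsE j (Y.chern i) : N1 Γ j).1 e w + x.1 e w := rfl
            rw [h4, coe_sum_N1, hx, hx₀]
            change _ = _ + ((1 : ℕ) : ℂ) * _
            rw [Nat.cast_one, one_mul]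
            simp only [Complex.ofReal_natCast]
            change HM (j e) (j w) = ∑ i, (row α i : ℂ) * Y.Hc i (j e) (j w) + _
            ring
          refine Prod.ext ?_ ?_
          · funext k
            rw [Phi_fst, hβ1]
            change (t k : ℝ) - t (k + 1) = _
            ring
          · rw [Phi_snd, sum_hP]
            simp only [hβ2]
            change x₀ - (t s : ℝ) • ∑ i, clsE j (Y.chern i) = _
            rw [hx0]
            exact alg_aux _ _ _ _
    have h1 := key _ hp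
    rwa [LinearEquiv.symm_apply_apply] at h1
  · rintro ⟨β, hβ, -, x, hx, rfl⟩
    rw [map_add]
    refine effP_add ?_ (effP_lft R hx)
    have h1 : β = ∑ k, β k • (Pi.single k 1 : Pl Y.b s → ℝ) := by
      ext l
      simp [Finset.sum_apply, Pi.single_apply]
    rw [h1, map_sum, map_sum]
    have h2 : ∀ t : Finset (Pl Y.b s), ∑ k ∈ t, Phi Y j (dv (ug Y.b s) (hP Y j)
        (β k • (Pi.single k 1 : Pl Y.b s → ℝ))) ∈ effP Y j := by
      intro t
      induction t using Finset.induction_on with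
      | empty => exact effP_zero
      | insert k t hk ih =>
        rw [Finset.sum_insert hk, map_smul, map_smul]
        exact effP_add (effP_smul (effP_D k) (hβ k)) ih
    exact h2 _

end Q47.CF
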