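import Pool.Agent.Q47.CF.Irr

/-!
# Hypersurfaces and Plücker divisors
-/

set_option autoImplicit false

namespace Q47.CF

open MvPolynomial Q47.FL

variable {q s : ℕ} {b : Fin q → ℕ}

theorem blk_ini (hb : Monotone b) (k : ℕ) {i : Fin q} :
    (i : ℕ) < (blk b k).card ↔ i ∈ blk b k := by
  classical
  have hcard : ∀ m : ℕ, m ≤ q → (ini q m).card = m := by
    intro m hm
    have h1 : ini q m = Finset.univ.filter fun j : Fin q => (j : ℕ) < m := rfl
    rw [h1, Fin.card_filter_val_lt, min_eq_right hm]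
  constructor
  · intro h
    by_contra hcon
    have h1 : blk b k ⊆ ini q i := by
      intro j hj
      rw [mem_ini]
      by_contra h2
      have h3 : i ≤ j := by
        rw [Fin.le_def]
        omega
      exact hcon (mem_blk.2 ((hb h3).trans (mem_blk.1 hj)))
    have h2 := Finset.card_le_card h1
    rw [hcard i i.2.le] at h2
    omega
  · intro h
    have h1 : ini q (i + 1) ⊆ blk b k := by
      intro j hj
      have h2 := mem_ini.1 hj
      have h3 : j ≤ i := by
        rw [Fin.le_def]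
        omega
      exact mem_blk.2 ((hb h3).trans (mem_blk.1 h))
    have h2 := Finset.card_le_card h1
    rw [hcard (i + 1) i.2] at h2
    omega

/-- A permutation which gives the rows of a Plücker coordinate. -/
noncomputable def wy (y : Pl b s) : Equiv.Perm (Fin q) :=
  (Equiv.Perm.exists_map_finset_eq (blk b y.1) y.2.1 y.2.2.symm).choose

theorem wy_spec (y : Pl b s) : (blk b y.1).map (wy y).toEmbedding = y.2.1 :=
  (Equiv.Perm.exists_map_finset_eq (blk b y.1) y.2.1 y.2.2.symm).choose_spec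

/-- The Plücker coordinate as a polynomial. -/
noncomputable def pl (y : Pl b s) : MvPolynomial (Fin q × Fin q) ℂ :=
  mn (wy y : Fin q → Fin q) (blk b y.1).card

theorem mem_wy (hb : Monotone b) (y : Pl b s) (i : Fin q) :
    ((wy y).symm i : ℕ) < (blk b y.1).card ↔ i ∈ y.2.1 := by
  rw [blk_ini hb, ← wy_spec y, Finset.mem_map_equiv]

theorem card_le (y : Pl b s) : (blk b y.1).card ≤ q :=
  (Finset.card_le_univ _).trans (by simp)

theorem card_pos' (hr : ∀ k, (∃ i, b i = k) ↔ k ≤ s) (y : Pl b s) : 0 < (blk b y.1).card := by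
  obtain ⟨i, hi⟩ := (hr 0).2 (Nat.zero_le _)
  exact Finset.card_pos.2 ⟨i, mem_blk.2 (by rw [hi]; exact Nat.zero_le _)⟩

theorem pl_irr (hr : ∀ k, (∃ i, b i = k) ↔ k ≤ s) (y : Pl b s) : Irreducible (pl y) :=
  mn_irr _ (card_pos' hr y) (card_le y)

theorem gd_unit {σ : Type*} {R : Set σ} [DecidablePred (· ∈ R)]
    (u : (MvPolynomial σ ℂ)ˣ) : gd R (u : MvPolynomial σ ℂ) = 0 := by
  have h2 := gd_mul (R := R) (f := (u : MvPolynomial σ ℂ))
    (g := ((u⁻¹ : (MvPolynomial σ ℂ)ˣ) : MvPolynomial σ ℂ)) (Units.ne_zero u) (Units.ne_zero _)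
  rw [← Units.val_mul, mul_inv_cancel] at h2
  have h3 : gd R ((1 : (MvPolynomial σ ℂ)ˣ) : MvPolynomial σ ℂ) = 0 := gd_zero fun x t => by
    rw [Units.val_one, map_one, map_one]
  omega

/-- Different Plücker coordinates are not associated. -/
theorem pl_inj (hb : Monotone b) (hr : ∀ k, (∃ i, b i = k) ↔ k ≤ s) {y y' : Pl b s}
    (h : Associated (pl y) (pl y')) : y = y' := by
  classical
  obtain ⟨u, hu⟩ := h
  have hgd : ∀ (R : Set (Fin q × Fin q)) [DecidablePred (· ∈ R)], gd R (pl y) = gd R (pl y') := by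
    intro R _
    have h0 : pl y ≠ 0 := mn_ne _ _
    rw [← hu, gd_mul h0 (Units.ne_zero u), gd_unit, add_zero]
  have hI : y.2.1 = y'.2.1 := by
    ext i
    have h1 := hgd (Rw q i)
    rw [pl, pl, gd_row, gd_row] at h1
    rw [← mem_wy hb, ← mem_wy hb]
    by_cases h2 : ((wy y).symm i : ℕ) < (blk b y.1).card
    · rw [if_pos h2] at h1
      refine ⟨fun _ => ?_, fun _ => h2⟩
      by_contra h3
      rw [if_neg h3] at h1
      omega
    · rw [if_neg h2] at h1
      refine ⟨fun h => absurd h h2, fun h3 => ?_⟩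
      rw [if_pos h3] at h1
      omega
  have hk : ∀ z z' : Pl b s, z.2.1 = z'.2.1 → ¬ z.1 < z'.1 := by
    intro z z' hz hlt
    have h1 : (blk b z.1).card = (blk b z'.1).card := by
      rw [← z.2.2, ← z'.2.2, hz]
    obtain ⟨i, hi⟩ := (hr z'.1).2 z'.1.2.le
    have h2 : (z.1 : ℕ) < z'.1 := hlt
    have h3 : blk b z.1 ⊂ blk b z'.1 := by
      refine Finset.ssubset_iff_subset_ne.2 ⟨fun j hj => mem_blk.2 ((mem_blk.1 hj).trans h2.le),
        fun h => ?_⟩
      have h4 : i ∈ blk b z.1 := h ▸ mem_blk.2 hi.le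
      have := mem_blk.1 h4
      omega
    exact absurd h1 (Finset.card_lt_card h3).ne
  obtain ⟨k, I, hI'⟩ := y
  obtain ⟨k', I', hI''⟩ := y'
  have h1 : k = k' := by
    rcases lt_trichotomy k k' with h | h | h
    · exact absurd h (hk _ _ hI)
    · exact h
    · exact absurd h (hk _ _ hI.symm)
  subst h1
  have h2 : I = I' := hI
  subst h2
  rfl

/-- Hypersurfaces contain points off all Plücker divisors, except at most one. -/
theorem exists_pt (hb : Monotone b) (hr : ∀ k, (∃ i, b i = k) ↔ k ≤ s) (c₀ : Pl b s)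
    {f : MvPolynomial (Fin q × Fin q) ℂ} {g₀ : Matrix (Fin q) (Fin q) ℂ} (hg₀ : g₀.det ≠ 0)
    (hf : ev g₀ f = 0) : ∃ (c : Pl b s) (g : Matrix (Fin q) (Fin q) ℂ), g.det ≠ 0 ∧ ev g f = 0 ∧
      ∀ y, y ≠ c → ev g (pl y) ≠ 0 := by
  classical
  let dt : MvPolynomial (Fin q × Fin q) ℂ := (Matrix.of fun i j => X (i, j)).det
  have hdt : ∀ x : Fin q × Fin q → ℂ, eval x dt = (Matrix.of fun i j => x (i, j)).det := by
    intro x
    rw [RingHom.map_det]
    congr 1
    ext i j
    simp
  have hdt' : ∀ g : Matrix (Fin q) (Fin q) ℂ, ev g dt = g.det := fun g => hdt _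
  have hdt0 : dt ≠ 0 := fun h => by
    have h1 := hdt' 1
    rw [h, ev, map_zero, Matrix.det_one] at h1
    exact zero_ne_one h1
  by_cases hf0 : f = 0
  · have h1 : dt * ∏ y : Pl b s, pl y ≠ 0 :=
      mul_ne_zero hdt0 (Finset.prod_ne_zero_iff.2 fun y _ => mn_ne _ _)
    obtain ⟨x, hx⟩ : ∃ x, eval x (dt * ∏ y : Pl b s, pl y) ≠ 0 := by
      by_contra hcon
      push Not at hcon
      exact h1 (MvPolynomial.funext fun x => by rw [hcon x, map_zero])
    rw [map_mul, map_prod] at hx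
    refine ⟨c₀, Matrix.of fun i j => x (i, j), ?_, by rw [hf0, ev, map_zero], fun y _ => ?_⟩
    · rw [← hdt]
      exact left_ne_zero_of_mul hx
    · exact Finset.prod_ne_zero_iff.1 (right_ne_zero_of_mul hx) y (Finset.mem_univ _)
  by_contra hcon
  push Not at hcon
  -- a prime factor of `f` which vanishes at `g₀`
  obtain ⟨S, hS, hSf⟩ := UniqueFactorizationMonoid.exists_prime_factors f hf0
  have h1 : ev g₀ S.prod = 0 := by
    obtain ⟨u, hu⟩ := hSf
    rw [← hu, ev, map_mul] at hf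
    refine (mul_eq_zero.1 hf).resolve_right fun h => ?_
    have h2 : IsUnit (eval (fun x : Fin q × Fin q => g₀ x.1 x.2)
        (u : MvPolynomial (Fin q × Fin q) ℂ)) := u.isUnit.map _
    rw [h] at h2
    exact not_isUnit_zero h2
  rw [ev, map_multiset_prod, Multiset.prod_eq_zero_iff, Multiset.mem_map] at h1
  obtain ⟨p, hpS, hp0⟩ := h1
  have hp := hS p hpS
  have hpf : p ∣ f := (Multiset.dvd_prod hpS).trans hSf.dvd
  have hpd : ¬ p ∣ dt := by
    rintro ⟨r, hr'⟩
    apply hg₀
    rw [← hdt', hr', ev, map_mul, hp0, zero_mul]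
  have key : ∀ c : Pl b s, ∃ y, y ≠ c ∧ p ∣ pl y := by
    intro c
    let H : MvPolynomial (Fin q × Fin q) ℂ := dt * ∏ y ∈ Finset.univ.erase c, pl y
    have h2 : H ∈ vanishingIdeal ℂ (zeroLocus ℂ (Ideal.span {f})) := by
      rw [mem_vanishingIdeal_iff]
      intro x hx
      have hx1 : eval x f = 0 := by
        have := hx f (Ideal.mem_span_singleton_self f)
        rwa [MvPolynomial.aeval_eq_eval] at this
      rw [MvPolynomial.aeval_eq_eval]
      change eval x (dt * ∏ y ∈ Finset.univ.erase c, pl y) = 0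
      rw [map_mul, map_prod]
      by_cases hd : (Matrix.of fun i j => x (i, j) : Matrix (Fin q) (Fin q) ℂ).det = 0
      · rw [hdt, hd, zero_mul]
      · obtain ⟨y, hyc, hy⟩ := hcon c (Matrix.of fun i j => x (i, j)) hd hx1
        refine mul_eq_zero_of_right _ (Finset.prod_eq_zero (Finset.mem_erase.2
          ⟨hyc, Finset.mem_univ _⟩) hy)
    rw [vanishingIdeal_zeroLocus_eq_radical] at h2
    obtain ⟨n, hn⟩ := Ideal.mem_radical_iff.1 h2
    have h3 : p ∣ H := hp.dvd_of_dvd_pow (hpf.trans (Ideal.mem_span_singleton.1 hn))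
    have h4 := (hp.dvd_or_dvd h3).resolve_left hpd
    obtain ⟨y, hy, hpy⟩ := (Prime.dvd_finsetProd_iff hp _).1 h4
    exact ⟨y, (Finset.mem_erase.1 hy).1, hpy⟩
  obtain ⟨y, -, hy⟩ := key c₀
  obtain ⟨y', hyy', hy'⟩ := key y
  have h2 : Associated p (pl y) := hp.irreducible.associated_of_dvd (pl_irr hr y) hy
  have h3 : Associated p (pl y') := hp.irreducible.associated_of_dvd (pl_irr hr y') hy'
  exact hyy' (pl_inj hb hr (h3.symm.trans h2))

end Q47.CF
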