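import Pool.Agent.Q47.FL.Weights
import Pool.Agent.Q47.FL.Minor

/-!
# The weights of semi-invariant polynomials
-/

set_option autoImplicit false

namespace Q47.CF

open MvPolynomial Q47.FL

variable {q : ℕ}

/-- Adding combinations of the columns `l ∈ s` to the column `k`. -/
theorem shear_many {b : Fin q → ℕ} {d : ℕ → ℕ} {F : MvPolynomial (Fin q × Fin q) ℂ}
    (hF : IsSemiInvariant b d F) (g : Matrix (Fin q) (Fin q) ℂ) (k : Fin q) (y : Fin q → ℂ)
    (s : Finset (Fin q)) (hs : ∀ l ∈ s, l ≠ k ∧ b l ≤ b k) :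
    ev (g.updateCol k fun i => g i k + ∑ l ∈ s, y l * g i l) F = ev g F := by
  classical
  induction s using Finset.induction_on with
  | empty =>
    congr 1
    ext i j
    simp only [Finset.sum_empty, add_zero, Matrix.updateCol_apply]
    split_ifs with h
    · rw [h]
    · rfl
  | insert l s hl ih =>
    have h1 := hs l (Finset.mem_insert_self l s)
    rw [← ih fun l' hl' => hs l' (Finset.mem_insert_of_mem hl')]
    rw [← hF.shear (g.updateCol k fun i => g i k + ∑ l ∈ s, y l * g i l) l k (y l) h1.1 h1.2]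
    congr 1
    ext i j
    simp only [Matrix.updateCol_apply, if_neg h1.1, if_true]
    by_cases h : j = k
    · simp only [if_pos h]
      rw [Finset.sum_insert hl]
      ring
    · simp only [if_neg h]

/-- Adding combinations of the columns `l ∈ s` to the columns `k ∈ t`. -/
theorem shear_all {b : Fin q → ℕ} {d : ℕ → ℕ} {F : MvPolynomial (Fin q × Fin q) ℂ}
    (hF : IsSemiInvariant b d F) (g : Matrix (Fin q) (Fin q) ℂ) (y : Fin q → Fin q → ℂ)
    (s t : Finset (Fin q)) (hs : ∀ l ∈ s, ∀ k ∈ t, l ≠ k ∧ b l ≤ b k) :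
    ev (Matrix.of fun i k => g i k + if k ∈ t then ∑ l ∈ s, y k l * g i l else 0) F
      = ev g F := by
  classical
  induction t using Finset.induction_on with
  | empty =>
    congr 1
    ext i j
    simp
  | insert k t hk ih =>
    have hs' : ∀ l ∈ s, ∀ k ∈ t, l ≠ k ∧ b l ≤ b k := fun l hl k' hk' =>
      hs l hl k' (Finset.mem_insert_of_mem hk')
    rw [← ih hs']
    set g' : Matrix (Fin q) (Fin q) ℂ :=
      Matrix.of fun i k => g i k + if k ∈ t then ∑ l ∈ s, y k l * g i l else 0 with hg'
    rw [← shear_many hF g' k (y k) s fun l hl => hs l hl k (Finset.mem_insert_self k t)]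
    congr 1
    ext i j
    simp only [Matrix.updateCol_apply, Matrix.of_apply]
    by_cases h : j = k
    · subst h
      rw [if_pos (Finset.mem_insert_self j t), if_pos rfl]
      have h1 : g' i j = g i j := by
        rw [hg', Matrix.of_apply, if_neg hk, add_zero]
      have h2 : ∀ l ∈ s, g' i l = g i l := by
        intro l hl
        rw [hg', Matrix.of_apply, if_neg, add_zero]
        intro hlt
        exact (hs' l hl l hlt).1 rfl
      rw [h1]
      congr 1
      exact Finset.sum_congr rfl fun l hl => by rw [h2 l hl]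
    · rw [if_neg h]
      have h1 : j ∈ insert k t ↔ j ∈ t := by
        rw [Finset.mem_insert]
        exact ⟨fun h2 => h2.resolve_left h, Or.inr⟩
      simp only [h1]
      rfl

/-- The part of the polynomial of the given degree in the rows `i ∈ I`. -/
noncomputable def part (I : Finset (Fin q)) (N : ℕ) (F : MvPolynomial (Fin q × Fin q) ℂ) :
    MvPolynomial (Fin q × Fin q) ℂ :=
  ∑ α ∈ F.support with ∑ i ∈ I, row α i = N, monomial α (coeff α F)

theorem ev_part (I : Finset (Fin q)) (F : MvPolynomial (Fin q × Fin q) ℂ)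
    (g : Matrix (Fin q) (Fin q) ℂ) (t : ℂ) :
    ev (Matrix.of fun i j => (if i ∈ I then t else 1) * g i j) F
      = ∑ α ∈ F.support, coeff α F * t ^ (∑ i ∈ I, row α i) * ∏ x, g x.1 x.2 ^ α x := by
  classical
  rw [ev, eval_eq']
  refine Finset.sum_congr rfl fun α _ => ?_
  rw [mul_assoc]
  congr 1
  simp only [Matrix.of_apply, mul_pow, Finset.prod_mul_distrib]
  congr 1
  rw [Fintype.prod_prod_type, ← Finset.prod_pow_eq_pow_sum, ← Finset.prod_filter_mul_prod_filter_not
    Finset.univ (fun i => i ∈ I)]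
  have h1 : ∏ i with i ∉ I, ∏ j, (if i ∈ I then t else 1) ^ α (i, j) = 1 := by
    refine Finset.prod_eq_one fun i hi => ?_
    rw [if_neg (Finset.mem_filter.1 hi).2]
    simp
  rw [h1, mul_one, Finset.filter_mem_eq_inter, Finset.univ_inter]
  refine Finset.prod_congr rfl fun i hi => ?_
  simp only [if_pos hi]
  rw [row, Finset.prod_pow_eq_pow_sum]

/-- Comparison of the coefficients of polynomials in one variable. -/
theorem coeff_eq {B : Type*} (s : Finset B) (c c' : B → ℂ) (N : B → ℕ)
    (h : ∀ t : ℂ, ∑ β ∈ s, c β * t ^ N β = ∑ β ∈ s, c' β * t ^ N β) (n : ℕ) :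
    ∑ β ∈ s with N β = n, c β = ∑ β ∈ s with N β = n, c' β := by
  classical
  have h1 : ∑ β ∈ s, Polynomial.C (c β) * Polynomial.X ^ N β
      = ∑ β ∈ s, Polynomial.C (c' β) * Polynomial.X ^ N β := by
    refine Polynomial.funext fun t => ?_
    simp only [Polynomial.eval_finsetSum, Polynomial.eval_mul, Polynomial.eval_C,
      Polynomial.eval_pow, Polynomial.eval_X]
    exact h t
  have h2 := congrArg (fun p => Polynomial.coeff p n) h1
  simp only [Polynomial.finsetSum_coeff, Polynomial.coeff_C_mul, Polynomial.coeff_X_pow,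
    mul_ite, mul_one, mul_zero] at h2
  rw [Finset.sum_filter, Finset.sum_filter]
  have h3 : ∀ f : B → ℂ, ∑ β ∈ s, (if N β = n then f β else 0)
      = ∑ β ∈ s, if n = N β then f β else 0 := fun f =>
    Finset.sum_congr rfl fun β _ => by
      by_cases h : N β = n
      · rw [if_pos h, if_pos h.symm]
      · rw [if_neg h, if_neg (Ne.symm h)]
  rw [h3, h3, h2]

theorem coeff_part (I : Finset (Fin q)) (N : ℕ) (F : MvPolynomial (Fin q × Fin q) ℂ)
    {α : Fin q × Fin q →₀ ℕ} (hα : α ∈ F.support) (hN : ∑ i ∈ I, row α i = N) :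
    coeff α (part I N F) = coeff α F := by
  classical
  rw [part, coeff_sum, Finset.sum_eq_single α]
  · rw [coeff_monomial, if_pos rfl]
  · intro β _ hβ
    rw [coeff_monomial, if_neg hβ]
  · intro h
    exact absurd (Finset.mem_filter.2 ⟨hα, hN⟩) h

theorem ev_part' (I : Finset (Fin q)) (N : ℕ) (F : MvPolynomial (Fin q × Fin q) ℂ)
    (g : Matrix (Fin q) (Fin q) ℂ) :
    ev g (part I N F) = ∑ α ∈ F.support with ∑ i ∈ I, row α i = N,
      coeff α F * ∏ x, g x.1 x.2 ^ α x := by
  classical
  rw [part, ev, map_sum]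
  refine Finset.sum_congr rfl fun α _ => ?_
  rw [eval_monomial]
  congr 1
  exact Finsupp.prod_fintype _ _ fun _ => pow_zero _

/-- The first `m` elements. -/
def ini (q m : ℕ) : Finset (Fin q) := Finset.univ.filter fun j => (j : ℕ) < m

theorem mem_ini {m : ℕ} {j : Fin q} : j ∈ ini q m ↔ (j : ℕ) < m := by simp [ini]

/-- The weights are dominated by the highest weight. -/
theorem dom {b : Fin q → ℕ} (hb : Monotone b) {d : ℕ → ℕ} {F : MvPolynomial (Fin q × Fin q) ℂ}
    (hF : IsSemiInvariant b d F) {α : Fin q × Fin q →₀ ℕ} (hα : α ∈ F.support)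
    (w : Equiv.Perm (Fin q)) (m : ℕ) :
    ∑ j ∈ ini q m, row α (w j) ≤ ∑ j ∈ ini q m, d (b j) := by
  classical
  by_contra hcon
  push Not at hcon
  let S : Finset (Fin q) := ini q m
  let T : Finset (Fin q) := Finset.univ.filter fun j => ¬ (j : ℕ) < m
  let I : Finset (Fin q) := S.image w
  have hIsum : ∀ β : Fin q × Fin q →₀ ℕ, ∑ i ∈ I, row β i = ∑ j ∈ S, row β (w j) := fun β =>
    Finset.sum_image fun _ _ _ _ h => w.injective h
  have hmemI : ∀ j, w j ∈ I ↔ (j : ℕ) < m := fun j => by
    simp only [I, S, Finset.mem_image, mem_ini]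
    constructor
    · rintro ⟨j', h1, h2⟩
      rwa [← w.injective h2]
    · exact fun h => ⟨j, h, rfl⟩
  set n := ∑ i ∈ I, row α i with hn
  -- the part vanishes where the minor does not vanish
  have key : ∀ g : Matrix (Fin q) (Fin q) ℂ, mnv g w m ≠ 0 → ev g (part I n F) = 0 := by
    intro g hg
    let A : Matrix {i : Fin q // (i : ℕ) < m} {i : Fin q // (i : ℕ) < m} ℂ :=
      Matrix.of fun i j => g (w i) j
    have hA : IsUnit A.det := isUnit_iff_ne_zero.2 hg
    let y : Fin q → Fin q → ℂ := fun k l => if h : (l : ℕ) < m then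
      -(A⁻¹.mulVec fun i => g (w i) k) ⟨l, h⟩ else 0
    have hy : ∀ i : Fin q, (i : ℕ) < m → ∀ k, g (w i) k + ∑ l ∈ S, y k l * g (w i) l = 0 := by
      intro i hi k
      have h1 : ∑ l ∈ S, y k l * g (w i) l
          = ∑ l : {l : Fin q // (l : ℕ) < m}, A ⟨i, hi⟩ l * y k l := by
        rw [Finset.sum_subtype (p := fun l : Fin q => (l : ℕ) < m) S (fun l => mem_ini)]
        exact Finset.sum_congr rfl fun l _ => mul_comm _ _
      have h2 : (fun l : {l : Fin q // (l : ℕ) < m} => y k l) = -(A⁻¹.mulVec fun i => g (w i) k) := by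
        funext l
        simp only [y]
        rw [dif_pos l.2]
        rfl
      have h3 : ∑ l : {l : Fin q // (l : ℕ) < m}, A ⟨i, hi⟩ l * y k l
          = (A.mulVec fun l : {l : Fin q // (l : ℕ) < m} => y k l) ⟨i, hi⟩ := rfl
      rw [h1, h3, h2, Matrix.mulVec_neg, Matrix.mulVec_mulVec, Matrix.mul_nonsing_inv A hA,
        Matrix.one_mulVec]
      exact add_neg_cancel _
    let g' : Matrix (Fin q) (Fin q) ℂ :=
      Matrix.of fun i k => g i k + if k ∈ T then ∑ l ∈ S, y k l * g i l else 0
    have hST : ∀ l ∈ S, ∀ k ∈ T, l ≠ k ∧ b l ≤ b k := by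
      intro l hl k hk
      have h1 := mem_ini.1 hl
      have h2 := (Finset.mem_filter.1 hk).2
      have h3 : l < k := by
        rw [Fin.lt_def]
        omega
      exact ⟨h3.ne, hb h3.le⟩
    have hg0 : ∀ i k, i ∈ I → k ∈ T → g' i k = 0 := by
      intro i k hi hk
      have h1 := (hmemI (w.symm i)).1 (by rwa [w.apply_symm_apply])
      have h2 := hy (w.symm i) h1 k
      rw [w.apply_symm_apply] at h2
      simp only [g', Matrix.of_apply, if_pos hk]
      exact h2
    have hcmp : ∀ t : ℂ, ev (Matrix.of fun i j => (if i ∈ I then t else 1) * g i j) F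
        = ev (Matrix.of fun i j => (if i ∈ I then t else 1) * g' i j) F := by
      intro t
      rw [← shear_all hF (Matrix.of fun i j => (if i ∈ I then t else 1) * g i j) y S T hST]
      congr 1
      ext i k
      simp only [Matrix.of_apply, g', mul_add, mul_ite, mul_zero, Finset.mul_sum]
      congr 1
      by_cases hk : k ∈ T
      · rw [if_pos hk, if_pos hk]
        exact Finset.sum_congr rfl fun l _ => by ring
      · rw [if_neg hk, if_neg hk]
    rw [ev_part']
    have h1 := coeff_eq F.support (fun β => coeff β F * ∏ x, g x.1 x.2 ^ β x)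
      (fun β => coeff β F * ∏ x, g' x.1 x.2 ^ β x) (fun β => ∑ i ∈ I, row β i) (fun t => by
        have h2 := hcmp t
        rw [ev_part, ev_part] at h2
        have h3 : ∀ G : Matrix (Fin q) (Fin q) ℂ,
            ∑ β ∈ F.support, coeff β F * (∏ x, G x.1 x.2 ^ β x) * t ^ (∑ i ∈ I, row β i)
            = ∑ β ∈ F.support, coeff β F * t ^ (∑ i ∈ I, row β i) * ∏ x, G x.1 x.2 ^ β x :=
          fun G => Finset.sum_congr rfl fun β _ => by ring
        rw [h3, h3]
        exact h2) n
    rw [h1]
    refine Finset.sum_eq_zero fun β hβ => ?_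
    obtain ⟨hβ1, hβ2⟩ := Finset.mem_filter.1 hβ
    by_contra hne
    have h4 : ∏ x, g' x.1 x.2 ^ β x ≠ 0 := right_ne_zero_of_mul hne
    have h5 : ∀ i ∈ I, ∀ k ∈ T, β (i, k) = 0 := by
      intro i hi k hk
      by_contra h6
      refine h4 (Finset.prod_eq_zero (Finset.mem_univ (i, k)) ?_)
      rw [hg0 i k hi hk]
      exact zero_pow h6
    have h6 : ∑ i ∈ I, row β i ≤ ∑ j ∈ S, d (b j) := by
      have h7 : ∀ i ∈ I, row β i = ∑ j ∈ S, β (i, j) := by
        intro i hi
        have h8 : ∑ j ∈ T, β (i, j) = 0 := Finset.sum_eq_zero fun j hj => h5 i hi j hj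
        have h9 : ∑ j ∈ S, β (i, j) + ∑ j ∈ T, β (i, j) = ∑ j, β (i, j) :=
          Finset.sum_filter_add_sum_filter_not Finset.univ (fun j : Fin q => (j : ℕ) < m) _
        rw [row, ← h9, h8, add_zero]
      rw [Finset.sum_congr rfl h7, Finset.sum_comm]
      refine Finset.sum_le_sum fun j _ => ?_
      rw [← col_of_semi hF hβ1 j, col]
      exact Finset.sum_le_univ_sum_of_nonneg fun _ => Nat.zero_le _
    have h9 : ∑ j ∈ S, d (b j) < n := by
      rw [hn, hIsum]
      exact hcon
    exact absurd h9 (not_lt.2 (hβ2 ▸ h6))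
  have h1 : part I n F * mn w m = 0 := by
    refine MvPolynomial.funext fun x => ?_
    rw [map_mul, map_zero]
    have h2 : eval x (mn w m) = mnv (Matrix.of fun i j => x (i, j)) w m :=
      ev_mn (Matrix.of fun i j => x (i, j)) w m
    by_cases h3 : mnv (Matrix.of fun i j => x (i, j)) w m = 0
    · rw [h2, h3, mul_zero]
    · have h4 := key _ h3
      have h5 : eval x (part I n F) = 0 := h4
      clear h4
      rw [h5, zero_mul]
  have h2 : mn (w : Fin q → Fin q) m ≠ 0 := by
    intro h
    have h3 := ev_mn (pm w) w m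
    rw [h] at h3
    have h4 : mnv (pm w) w m = 1 := by
      rw [mnv]
      have : (Matrix.of fun i j : {i : Fin q // (i : ℕ) < m} => pm w (w i) j) = 1 := by
        ext i j
        rw [Matrix.of_apply, pm, Matrix.of_apply, Matrix.one_apply]
        by_cases h : i = j
        · rw [h, if_pos rfl, if_pos rfl]
        · rw [if_neg h, if_neg]
          intro h'
          exact h (Subtype.ext (w.injective h'))
      rw [this, Matrix.det_one]
    rw [h4, ev, map_zero] at h3
    exact zero_ne_one h3
  have h3 := (mul_eq_zero.1 h1).resolve_right h2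
  have h4 := coeff_part I n F hα rfl
  rw [h3, coeff_zero] at h4
  exact mem_support_iff.1 hα h4.symm

end Q47.CF
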