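import Pool.Agent.Q47.CY.Ab
import Pool.Agent.Q47.AL.Def

/-!
# The fan of a product of projective spaces
-/

set_option autoImplicit false

namespace Q47.CF

open Finset Q47.TB Q47.AL Q47.CY

variable {ι κ : Type*} [Fintype ι] [DecidableEq ι] [DecidableEq κ] (p : ι → κ) (z : κ → ι)

/-- The rank. -/
noncomputable def nn : ℕ := Fintype.card {x : ι // x ≠ z (p x)}

/-- The numbering of the characters. -/
noncomputable def ee : {x : ι // x ≠ z (p x)} ≃ Fin (nn p z) := Fintype.equivFin _

/-- The element of the character. -/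
noncomputable def el (c : Fin (nn p z)) : ι := ((ee p z).symm c : ι)

omit [DecidableEq κ] in
theorem el_ne (c : Fin (nn p z)) : el p z c ≠ z (p (el p z c)) := ((ee p z).symm c).2

omit [DecidableEq κ] in
theorem exists_el {y : ι} (h : y ≠ z (p y)) : ∃ c, el p z c = y :=
  ⟨ee p z ⟨y, h⟩, by rw [el, Equiv.symm_apply_apply]⟩

/-- The rays. -/
noncomputable def uu (x : ι) (c : Fin (nn p z)) : ℤ :=
  (if x = el p z c then 1 else 0) - if x = z (p (el p z c)) then 1 else 0

/-- The fan. -/
def SS : Set (Set ι) := {σ | ∀ k, ∃ i, p i = k ∧ i ∉ σ}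

variable {p z}

omit [DecidableEq κ] in
theorem sum_uu {R : Type*} [CommRing R] (v : ι → R) (c : Fin (nn p z)) :
    ∑ x, v x * (uu p z x c : R) = v (el p z c) - v (z (p (el p z c))) := by
  simp only [uu, Int.cast_sub, Int.cast_ite, Int.cast_one, Int.cast_zero, mul_sub, mul_ite, mul_one,
    mul_zero, Finset.sum_sub_distrib, Finset.sum_ite_eq', Finset.mem_univ, if_true]

omit [DecidableEq κ] in
/-- Sums over the characters. -/
theorem sum_el {R : Type*} [CommRing R] (v : ι → R) :
    ∑ c, v (el p z c) = ∑ y with y ≠ z (p y), v y := by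
  rw [Finset.sum_subtype (p := fun y => y ≠ z (p y)) _ (fun y => by simp)]
  exact Equiv.sum_comp (ee p z).symm fun y => v y

theorem sum_char {R : Type*} [CommRing R] (hz : ∀ k, p (z k) = k) (v : ι → R) :
    (∃ m : Fin (nn p z) → R, ∀ x, v x = ∑ c, m c * (uu p z x c : R)) ↔
      ∀ k, ∑ x with p x = k, v x = 0 := by
  constructor
  · rintro ⟨m, hm⟩ k
    simp only [hm]
    rw [Finset.sum_comm]
    refine Finset.sum_eq_zero fun c _ => ?_
    rw [← Finset.mul_sum]
    have h1 : ∑ x with p x = k, (uu p z x c : R) = 0 := by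
      simp only [uu, Int.cast_sub, Int.cast_ite, Int.cast_one, Int.cast_zero,
        Finset.sum_sub_distrib, Finset.sum_ite_eq', Finset.mem_filter, Finset.mem_univ, true_and,
        hz, sub_self]
    rw [h1, mul_zero]
  · intro h
    refine ⟨fun c => v (el p z c), fun x => ?_⟩
    have h1 : ∑ c, v (el p z c) * (uu p z x c : R) = ∑ y with y ≠ z (p y),
        v y * ((if x = y then 1 else 0) - if x = z (p y) then 1 else 0) := by
      rw [← sum_el (p := p) (z := z) fun y =>
        v y * ((if x = y then (1 : R) else 0) - if x = z (p y) then 1 else 0)]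
      refine Finset.sum_congr rfl fun c _ => ?_
      simp only [uu, Int.cast_sub, Int.cast_ite, Int.cast_one, Int.cast_zero]
    rw [h1]
    by_cases hx : x = z (p x)
    · have h2 : ∀ y, y ≠ z (p y) → v y * ((if x = y then (1 : R) else 0)
          - if x = z (p y) then 1 else 0) = if p y = p x then -v y else 0 := by
        intro y hy
        have h3 : x ≠ y := fun h => hy (h ▸ hx)
        rw [if_neg h3]
        by_cases h4 : p y = p x
        · rw [h4, if_pos hx, if_pos rfl, zero_sub, mul_neg, mul_one]
        · rw [if_neg h4, if_neg fun h => h4 (by rw [h, hz]), sub_zero, mul_zero]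
      rw [Finset.sum_congr rfl fun y hy => h2 y (Finset.mem_filter.1 hy).2, ← Finset.sum_filter]
      have h5 : (Finset.univ.filter fun y => y ≠ z (p y)).filter (fun y => p y = p x)
          = (Finset.univ.filter fun y => p y = p x).erase x := by
        ext y
        simp only [Finset.mem_filter, Finset.mem_univ, true_and, Finset.mem_erase]
        constructor
        · rintro ⟨h6, h7⟩
          exact ⟨fun h8 => h6 (by rw [h8]; exact hx), h7⟩
        · rintro ⟨h6, h7⟩
          exact ⟨fun h8 => h6 (by rw [h8, h7, ← hx]), h7⟩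
      rw [h5]
      have h6 := h (p x)
      have hxm : x ∈ Finset.univ.filter fun y => p y = p x := by simp
      rw [← Finset.add_sum_erase _ _ hxm] at h6
      rw [Finset.sum_neg_distrib]
      exact eq_neg_of_add_eq_zero_left h6
    · rw [Finset.sum_eq_single x]
      · rw [if_pos rfl, if_neg hx, sub_zero, mul_one]
      · intro y hy hyx
        rw [if_neg (Ne.symm hyx), if_neg fun h => hx (by rw [h, hz]), sub_zero, mul_zero]
      · intro h2
        exact absurd (Finset.mem_filter.2 ⟨Finset.mem_univ x, hx⟩) h2

/-- The fan is smooth and complete. -/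
theorem smooth (hz : ∀ k, p (z k) = k) (h2 : ∀ i, ∃ i', p i' = p i ∧ i' ≠ i) :
    IsSmoothFan (uu p z) (SS p) where
  ray i := by
    intro k
    obtain ⟨i', h1, h3⟩ := h2 i
    by_cases h : p i = k
    · exact ⟨i', h1.trans h, h3⟩
    · exact ⟨z k, hz k, fun h4 => h (by rw [← Set.mem_singleton_iff.1 h4, hz])⟩
  face σ hσ τ hτ k := by
    obtain ⟨i, h1, h3⟩ := hσ k
    exact ⟨i, h1, fun h => h3 (hτ h)⟩
  rep w := by
    let W : ι → ℤ := fun y => if h : y ≠ z (p y) then w (ee p z ⟨y, h⟩) else 0
    have hWel : ∀ c, W (el p z c) = w c := fun c => by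
      simp only [W]
      rw [dif_pos (el_ne p z c)]
      congr 1
      exact (ee p z).apply_symm_apply c
    have hWz : ∀ k, W (z k) = 0 := fun k => by
      simp only [W]
      rw [dif_neg]
      rw [hz, not_not]
    have hne : ∀ k, (Finset.univ.filter fun y => p y = k).Nonempty := fun k =>
      ⟨z k, by simp [hz k]⟩
    let mn : κ → ℤ := fun k => (Finset.univ.filter fun y => p y = k).inf' (hne k) W
    have hmn : ∀ y, mn (p y) ≤ W y := fun y =>
      Finset.inf'_le _ (by simp)
    have hmn' : ∀ k, ∃ y, p y = k ∧ W y = mn k := fun k => by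
      obtain ⟨y, hy, h⟩ := Finset.exists_mem_eq_inf' (hne k) W
      exact ⟨y, (Finset.mem_filter.1 hy).2, h.symm⟩
    refine ⟨fun y => (W y - mn (p y)).toNat, ⟨fun k => ?_, fun c => ?_⟩, fun a' ha' => ?_⟩
    · obtain ⟨y, hy, h⟩ := hmn' k
      refine ⟨y, hy, fun h1 => h1 ?_⟩
      change (W y - mn (p y)).toNat = 0
      rw [h, hy, sub_self]
      rfl
    · have h1 : ∀ y, (((W y - mn (p y)).toNat : ℕ) : ℤ) = W y - mn (p y) := fun y =>
        Int.toNat_of_nonneg (sub_nonneg.2 (hmn y))
      simp only [h1]
      have h3 := sum_uu (p := p) (z := z) (R := ℤ) (fun y => W y - mn (p y)) c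
      simp only [Int.cast_id] at h3
      rw [h3, hWel, hWz, hz]
      ring
    · obtain ⟨h1, h3⟩ := ha'
      have h4 : ∀ y, (a' y : ℤ) - a' (z (p y)) = W y := by
        intro y
        by_cases hy : y ≠ z (p y)
        · obtain ⟨c, hc⟩ := exists_el p z hy
          have h5 := sum_uu (p := p) (z := z) (R := ℤ) (fun y => (a' y : ℤ)) c
          simp only [Int.cast_id] at h5
          rw [← hc, hWel, ← h3 c, h5]
        · push Not at hy
          rw [← hy, sub_self]
          have := hWz (p y)
          rw [← hy] at this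
          exact this.symm
      have h5 : ∀ k, mn k = -(a' (z k) : ℤ) := by
        intro k
        obtain ⟨y, hy, h⟩ := h1 k
        have h6 : a' y = 0 := by
          by_contra h7
          exact h h7
        have h7 := h4 y
        rw [h6, hy] at h7
        have h8 := hmn y
        rw [hy] at h8
        obtain ⟨y', hy', h9⟩ := hmn' k
        have h10 := h4 y'
        rw [hy'] at h10
        have h11 : (0 : ℤ) ≤ a' y' := Int.natCast_nonneg _
        push_cast at h7
        omega
      funext y
      have h6 := h4 y
      have h7 := h5 (p y)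
      change a' y = (W y - mn (p y)).toNat
      omega

/-- The classes of the generators of the blocks are ample. -/
theorem ample (hz : ∀ k, p (z k) = k) :
    IsFibreAmple (uu p z) (SS p) fun i => if i = z (p i) then 1 else 0 := by
  intro σ hσ
  choose f hf1 hf2 using hσ
  have hcls := Classical.decPred (· ∈ σ)
  let C : κ → Finset ι := fun k => Finset.univ.filter fun i => p i = k ∧ i ∉ σ
  have hC : ∀ k, (C k).card ≤ Fintype.card ι := fun k => Finset.card_le_univ _
  refine ⟨Fintype.card ι + 1, fun i => if i ∈ σ then 0 else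
    if i = f (p i) then Fintype.card ι + 2 - (C (p i)).card else 1, by omega, fun i => ?_, ?_⟩
  · by_cases h1 : i ∈ σ
    · simp only [if_pos h1]
      exact ⟨fun _ => h1, fun _ => trivial⟩
    · simp only [if_neg h1]
      refine ⟨fun h3 => ?_, fun h3 => absurd h3 h1⟩
      have := hC (p i)
      split_ifs at h3 with h2
      omega
  · have key : ∀ k, ∑ x with p x = k, ((((if x ∈ σ then 0 else
        if x = f (p x) then Fintype.card ι + 2 - (C (p x)).card else 1 : ℕ) : ℤ))
        - ((Fintype.card ι + 1 : ℕ) : ℤ) * (if x = z (p x) then 1 else 0)) = 0 := by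
      intro k
      rw [Finset.sum_sub_distrib, sub_eq_zero]
      have h1 : ∑ x with p x = k, ((Fintype.card ι + 1 : ℕ) : ℤ) * (if x = z (p x) then 1 else 0)
          = ((Fintype.card ι + 1 : ℕ) : ℤ) := by
        rw [Finset.sum_eq_single (z k)]
        · rw [hz, if_pos rfl, mul_one]
        · intro y hy hne
          rw [if_neg, mul_zero]
          rw [(Finset.mem_filter.1 hy).2]
          exact hne
        · intro h
          exact absurd (by simp [hz k]) h
      rw [h1]
      have h2 : ∑ x with p x = k, (((if x ∈ σ then 0 else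
          if x = f (p x) then Fintype.card ι + 2 - (C (p x)).card else 1 : ℕ) : ℤ))
          = ∑ x ∈ C k, (((if x = f k then Fintype.card ι + 2 - (C k).card else 1 : ℕ) : ℤ)) := by
        have h3 : C k = (Finset.univ.filter fun x => p x = k).filter (fun x => x ∉ σ) := by
          ext x
          simp [C]
        conv_rhs => rw [h3, Finset.sum_filter]
        refine Finset.sum_congr rfl fun x hx => ?_
        have h4 := (Finset.mem_filter.1 hx).2
        rw [h4]
        by_cases h5 : x ∈ σ
        · rw [if_pos h5, if_neg (not_not.2 h5)]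
          rfl
        · rw [if_neg h5, if_pos h5, ← h3]
      rw [h2]
      have hfk : f k ∈ C k := Finset.mem_filter.2 ⟨Finset.mem_univ _, hf1 k, hf2 k⟩
      rw [← Finset.add_sum_erase _ _ hfk, if_pos rfl]
      have h6 : ∑ x ∈ (C k).erase (f k),
          (((if x = f k then Fintype.card ι + 2 - (C k).card else 1 : ℕ) : ℤ))
          = ((C k).card : ℤ) - 1 := by
        rw [Finset.sum_congr rfl fun x hx => by rw [if_neg (Finset.ne_of_mem_erase hx)]]
        rw [Finset.sum_const, Finset.card_erase_of_mem hfk, nsmul_eq_mul]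
        have : 1 ≤ (C k).card := Finset.card_pos.2 ⟨_, hfk⟩
        push_cast [Nat.cast_sub this]
        ring
      rw [h6]
      have h7 := hC k
      push_cast [Nat.cast_sub (show (C k).card ≤ Fintype.card ι + 2 by omega)]
      ring
    obtain ⟨m, hm⟩ := (sum_char (p := p) (z := z) (R := ℤ) hz _).2 key
    refine ⟨m, fun i => ?_⟩
    have := hm i
    simp only [Int.cast_id] at this
    linarith

end Q47.CF
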