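import Pool.Agent.Q47.CF.Cone
import Mathlib.RingTheory.Nullstellensatz
import Mathlib.RingTheory.Polynomial.UniqueFactorization

/-!
# Minors are irreducible polynomials
-/

set_option autoImplicit false

namespace Q47.CF

open MvPolynomial Q47.FL

section Gs

variable {σ : Type*} [DecidableEq σ]

/-- The substitution of `T x` for the variables `x ∈ R`. -/
noncomputable def gs (R : Set σ) [DecidablePred (· ∈ R)] :
    MvPolynomial σ ℂ →ₐ[ℂ] Polynomial (MvPolynomial σ ℂ) :=
  aeval fun x => if x ∈ R then Polynomial.X * Polynomial.C (X x) else Polynomial.C (X x)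

variable {R : Set σ} [DecidablePred (· ∈ R)]

omit [DecidableEq σ] in
theorem gs_eval (f : MvPolynomial σ ℂ) (x : σ → ℂ) (t : ℂ) :
    ((gs R f).map (eval x)).eval t = eval (fun y => if y ∈ R then t * x y else x y) f := by
  induction f using MvPolynomial.induction_on with
  | C a =>
    rw [gs, ← MvPolynomial.algebraMap_eq, AlgHom.commutes, MvPolynomial.algebraMap_eq, eval_C]
    rw [Polynomial.algebraMap_apply, MvPolynomial.algebraMap_eq, Polynomial.map_C,
      Polynomial.eval_C, eval_C]
  | add p q hp hq => rw [map_add, Polynomial.map_add, Polynomial.eval_add, hp, hq, map_add]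
  | mul_X p y hp =>
    rw [map_mul, Polynomial.map_mul, Polynomial.eval_mul, hp, map_mul, eval_X]
    congr 1
    rw [gs, aeval_X]
    split_ifs
    · rw [Polynomial.map_mul, Polynomial.eval_mul, Polynomial.map_X, Polynomial.eval_X,
        Polynomial.map_C, Polynomial.eval_C, eval_X]
    · rw [Polynomial.map_C, Polynomial.eval_C, eval_X]

omit [DecidableEq σ] in
theorem gs_ext {P Q : Polynomial (MvPolynomial σ ℂ)}
    (h : ∀ x t, (P.map (eval x)).eval t = (Q.map (eval x)).eval t) : P = Q := by
  ext1 n
  refine MvPolynomial.funext fun x => ?_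
  have h1 : P.map (eval x) = Q.map (eval x) := Polynomial.funext fun t => h x t
  rw [← Polynomial.coeff_map, ← Polynomial.coeff_map, h1]

omit [DecidableEq σ] in
theorem gs_ne_zero {f : MvPolynomial σ ℂ} (hf : f ≠ 0) : gs R f ≠ 0 := by
  intro h
  apply hf
  refine MvPolynomial.funext fun x => ?_
  have h1 := gs_eval (R := R) f x 1
  rw [h, Polynomial.map_zero, Polynomial.eval_zero] at h1
  have h2 : (fun y => if y ∈ R then 1 * x y else x y) = x := by
    funext y
    rw [one_mul, ite_self]
  rw [h2] at h1
  rw [← h1, map_zero]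

/-- The degree in the variables in `R`. -/
noncomputable def gd (R : Set σ) [DecidablePred (· ∈ R)] (f : MvPolynomial σ ℂ) : ℕ :=
  (gs R f).natDegree

omit [DecidableEq σ] in
theorem gd_mul {f g : MvPolynomial σ ℂ} (hf : f ≠ 0) (hg : g ≠ 0) :
    gd R (f * g) = gd R f + gd R g := by
  rw [gd, map_mul, Polynomial.natDegree_mul (gs_ne_zero hf) (gs_ne_zero hg), gd, gd]

omit [DecidableEq σ] in
theorem eval_of_gd {f : MvPolynomial σ ℂ} (h : gd R f = 0) {x y : σ → ℂ}
    (hxy : ∀ z, z ∉ R → x z = y z) : eval x f = eval y f := by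
  obtain ⟨c, hc⟩ := Polynomial.natDegree_eq_zero.1 h
  have key : ∀ x : σ → ℂ, eval x f = eval (fun z => if z ∈ R then 0 else x z) f := by
    intro x
    have h1 := gs_eval (R := R) f x 1
    have h0 := gs_eval (R := R) f x 0
    rw [← hc, Polynomial.map_C, Polynomial.eval_C] at h1 h0
    have h2 : (fun y => if y ∈ R then 1 * x y else x y) = x := by
      funext y
      rw [one_mul, ite_self]
    have h3 : (fun y => if y ∈ R then 0 * x y else x y) = fun z => if z ∈ R then 0 else x z := by
      funext y
      rw [zero_mul]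
    rw [h2] at h1
    rw [h3] at h0
    rw [← h1, ← h0]
  rw [key x, key y]
  congr 2
  funext z
  split_ifs with h1
  · rfl
  · exact hxy z h1

omit [DecidableEq σ] in
/-- If the scaling of the variables in `R` multiplies `f` by `t`. -/
theorem gd_one {f : MvPolynomial σ ℂ} (hf : f ≠ 0)
    (h : ∀ x t, eval (fun y => if y ∈ R then t * x y else x y) f = t * eval x f) :
    gd R f = 1 := by
  have h1 : gs R f = Polynomial.X * Polynomial.C f := by
    refine gs_ext fun x t => ?_
    rw [gs_eval, h, Polynomial.map_mul, Polynomial.eval_mul, Polynomial.map_X, Polynomial.eval_X,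
      Polynomial.map_C, Polynomial.eval_C]
  rw [gd, h1, Polynomial.natDegree_X_mul (Polynomial.C_ne_zero.2 hf), Polynomial.natDegree_C]

omit [DecidableEq σ] in
theorem gd_zero {f : MvPolynomial σ ℂ}
    (h : ∀ x t, eval (fun y => if y ∈ R then t * x y else x y) f = eval x f) :
    gd R f = 0 := by
  have h1 : gs R f = Polynomial.C f := by
    refine gs_ext fun x t => ?_
    rw [gs_eval, h, Polynomial.map_C, Polynomial.eval_C]
  rw [gd, h1, Polynomial.natDegree_C]

end Gs

variable {q : ℕ}

/-- The variables in the row `i`. -/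
def Rw (q : ℕ) (i : Fin q) : Set (Fin q × Fin q) := {x | x.1 = i}

/-- The variables in the column `j`. -/
def Cw (q : ℕ) (j : Fin q) : Set (Fin q × Fin q) := {x | x.2 = j}

instance (i : Fin q) : DecidablePred (· ∈ Rw q i) := fun x => inferInstanceAs (Decidable (x.1 = i))

instance (j : Fin q) : DecidablePred (· ∈ Cw q j) := fun x => inferInstanceAs (Decidable (x.2 = j))

theorem mn_ne (w : Equiv.Perm (Fin q)) (m : ℕ) : mn (w : Fin q → Fin q) m ≠ 0 := by
  intro h
  have h3 := ev_mn (pm w) w m
  rw [h, mnv_pm, ev, map_zero] at h3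
  exact zero_ne_one h3

theorem mn_row (w : Equiv.Perm (Fin q)) (m : ℕ) (i : Fin q) (x : Fin q × Fin q → ℂ) (t : ℂ) :
    eval (fun y => if y ∈ Rw q i then t * x y else x y) (mn (w : Fin q → Fin q) m)
      = (if (w.symm i : ℕ) < m then t else 1) * eval x (mn (w : Fin q → Fin q) m) := by
  have h1 := mnv_left (Matrix.of fun i j => x (i, j)) w m fun k => if k = i then t else 1
  have h2 : (∏ k : {k : Fin q // (k : ℕ) < m}, if w k = i then t else 1)
      = if (w.symm i : ℕ) < m then t else 1 := by
    rw [← prod_ite m (w.symm i) t]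
    refine Finset.prod_congr rfl fun k _ => ?_
    by_cases h : w k = i
    · rw [if_pos h, if_pos (by rw [← h, w.symm_apply_apply])]
    · rw [if_neg h, if_neg fun h' => h (by rw [h', w.apply_symm_apply])]
  rw [h2, ← ev_mn, ← ev_mn] at h1
  have h3 : (fun y : Fin q × Fin q => (Matrix.of fun i_1 j => (if i_1 = i then t else 1) *
      (Matrix.of fun i j => x (i, j)) i_1 j : Matrix (Fin q) (Fin q) ℂ) y.1 y.2)
      = fun y => if y ∈ Rw q i then t * x y else x y := by
    funext y
    simp only [Matrix.of_apply]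
    change _ = if y.1 = i then t * x y else x y
    split_ifs
    · rfl
    · rw [one_mul]
  rw [ev, h3] at h1
  exact h1

theorem mn_col (w : Equiv.Perm (Fin q)) (m : ℕ) (j : Fin q) (x : Fin q × Fin q → ℂ) (t : ℂ) :
    eval (fun y => if y ∈ Cw q j then t * x y else x y) (mn (w : Fin q → Fin q) m)
      = (if (j : ℕ) < m then t else 1) * eval x (mn (w : Fin q → Fin q) m) := by
  have h1 := mnv_scale (Matrix.of fun i j => x (i, j)) w m j t
  rw [← ev_mn, ← ev_mn] at h1
  have h3 : (fun y : Fin q × Fin q => ((Matrix.of fun i j => x (i, j)).updateCol j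
      fun i => t * (Matrix.of fun i j => x (i, j)) i j : Matrix (Fin q) (Fin q) ℂ) y.1 y.2)
      = fun y => if y ∈ Cw q j then t * x y else x y := by
    funext y
    simp only [Matrix.updateCol_apply, Matrix.of_apply]
    change _ = if y.2 = j then t * x y else x y
    split_ifs with h
    · rw [← h]
    · rfl
  rw [ev, h3] at h1
  exact h1

theorem gd_row (w : Equiv.Perm (Fin q)) (m : ℕ) (i : Fin q) :
    gd (Rw q i) (mn (w : Fin q → Fin q) m) = if (w.symm i : ℕ) < m then 1 else 0 := by
  split_ifs with h
  · refine gd_one (mn_ne w m) fun x t => ?_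
    rw [mn_row, if_pos h]
  · refine gd_zero fun x t => ?_
    rw [mn_row, if_neg h, one_mul]

theorem gd_col (w : Equiv.Perm (Fin q)) (m : ℕ) (j : Fin q) :
    gd (Cw q j) (mn (w : Fin q → Fin q) m) = if (j : ℕ) < m then 1 else 0 := by
  split_ifs with h
  · refine gd_one (mn_ne w m) fun x t => ?_
    rw [mn_col, if_pos h]
  · refine gd_zero fun x t => ?_
    rw [mn_col, if_neg h, one_mul]

/-- The minor depends on all its entries. -/
theorem mn_dep (w : Equiv.Perm (Fin q)) {m : ℕ} {i j : Fin q} (hi : (i : ℕ) < m) (hj : (j : ℕ) < m) :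
    ∃ x y : Fin q × Fin q → ℂ, (∀ z, z ≠ (w i, j) → x z = y z) ∧
      eval x (mn (w : Fin q → Fin q) m) ≠ eval y (mn (w : Fin q → Fin q) m) := by
  classical
  let v : Equiv.Perm (Fin q) := Equiv.swap i j
  have hv : ∀ k : Fin q, (v k : ℕ) < m ↔ (k : ℕ) < m := by
    intro k
    rcases eq_or_ne k i with h | h
    · rw [h, Equiv.swap_apply_left]
      exact ⟨fun _ => hi, fun _ => hj⟩
    · rcases eq_or_ne k j with h' | h'
      · rw [h', Equiv.swap_apply_right]
        exact ⟨fun _ => hj, fun _ => hi⟩
      · rw [Equiv.swap_apply_of_ne_of_ne h h']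
  let x : Fin q × Fin q → ℂ := fun z => if z.1 = w (v z.2) then 1 else 0
  let y : Fin q × Fin q → ℂ := fun z => if z = (w i, j) then 0 else x z
  refine ⟨x, y, fun z hz => (if_neg hz).symm, ?_⟩
  have hx : eval x (mn (w : Fin q → Fin q) m) = mnv (Matrix.of fun i j => x (i, j)) w m :=
    ev_mn (Matrix.of fun i j => x (i, j)) w m
  have hy : eval y (mn (w : Fin q → Fin q) m) = mnv (Matrix.of fun i j => y (i, j)) w m :=
    ev_mn (Matrix.of fun i j => y (i, j)) w m
  have h0 : mnv (Matrix.of fun i j => y (i, j)) w m = 0 := by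
    rw [mnv]
    refine Matrix.det_eq_zero_of_row_eq_zero ⟨i, hi⟩ fun k => ?_
    change y (w i, k) = 0
    simp only [y]
    split_ifs with h
    · rfl
    · simp only [x]
      refine if_neg fun h' => h ?_
      have h1 : i = v k := w.injective h'
      have h2 : (k : Fin q) = j := by
        rw [← v.symm_apply_apply (k : Fin q), ← h1]
        change (Equiv.swap i j).symm i = j
        rw [Equiv.symm_swap, Equiv.swap_apply_left]
      rw [h2]
  have h1 : mnv (Matrix.of fun i j => x (i, j)) w m ≠ 0 := by
    rw [mnv]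
    have hvv : ∀ k, v (v k) = k := fun k => by
      have h3 := congrArg (fun e : Equiv.Perm (Fin q) => e k) (Equiv.swap_swap i j)
      exact h3
    let v' : Equiv.Perm {k : Fin q // (k : ℕ) < m} :=
      { toFun := fun k => ⟨v k, (hv k).2 k.2⟩
        invFun := fun k => ⟨v k, (hv k).2 k.2⟩
        left_inv := fun k => Subtype.ext (hvv k)
        right_inv := fun k => Subtype.ext (hvv k) }
    have h2 : (Matrix.of fun i j : {k : Fin q // (k : ℕ) < m} =>
        (Matrix.of fun i j => x (i, j)) (w i) j) = (1 : Matrix _ _ ℂ).submatrix id v' := by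
      ext a c
      rw [Matrix.submatrix_apply, Matrix.one_apply]
      change (if w a = w (v c) then (1 : ℂ) else 0) = _
      by_cases h : (a : Fin q) = v c
      · rw [if_pos (by rw [h]), if_pos (Subtype.ext h)]
      · rw [if_neg fun h' => h (w.injective h'), if_neg fun h' => h (congrArg Subtype.val h')]
    rw [h2, Matrix.det_permute', Matrix.det_one, mul_one]
    exact Int.cast_ne_zero.2 (Units.ne_zero _)
  rw [hx, hy, h0]
  exact h1

/-- Constant polynomials. -/
theorem const_of_rows {f : MvPolynomial (Fin q × Fin q) ℂ} (h : ∀ i, gd (Rw q i) f = 0) :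
    ∃ c : ℂ, f = C c := by
  classical
  refine ⟨eval 0 f, MvPolynomial.funext fun x => ?_⟩
  rw [eval_C]
  have key : ∀ s : Finset (Fin q), eval x f = eval (fun z => if z.1 ∈ s then 0 else x z) f := by
    intro s
    induction s using Finset.induction_on with
    | empty => simp
    | insert i s hi ih =>
      rw [ih]
      refine eval_of_gd (h i) fun z hz => ?_
      have hz' : z.1 ≠ i := hz
      simp only [Finset.mem_insert, hz', false_or]
  rw [key Finset.univ]
  congr 2
  funext z
  simp

theorem const_of_cols {f : MvPolynomial (Fin q × Fin q) ℂ} (h : ∀ i, gd (Cw q i) f = 0) :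
    ∃ c : ℂ, f = C c := by
  classical
  refine ⟨eval 0 f, MvPolynomial.funext fun x => ?_⟩
  rw [eval_C]
  have key : ∀ s : Finset (Fin q), eval x f = eval (fun z => if z.2 ∈ s then 0 else x z) f := by
    intro s
    induction s using Finset.induction_on with
    | empty => simp
    | insert i s hi ih =>
      rw [ih]
      refine eval_of_gd (h i) fun z hz => ?_
      have hz' : z.2 ≠ i := hz
      simp only [Finset.mem_insert, hz', false_or]
  rw [key Finset.univ]
  congr 2
  funext z
  simp

/-- Minors are irreducible. -/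
theorem mn_irr (w : Equiv.Perm (Fin q)) {m : ℕ} (hm : 0 < m) (hmq : m ≤ q) :
    Irreducible (mn (w : Fin q → Fin q) m) := by
  classical
  have hq : 0 < q := by omega
  let i₀ : Fin q := ⟨0, hq⟩
  have hne := mn_ne w m
  have hunit : ∀ {f : MvPolynomial (Fin q × Fin q) ℂ}, f ≠ 0 → (∃ c : ℂ, f = C c) → IsUnit f := by
    rintro f hf ⟨c, rfl⟩
    refine (isUnit_iff_ne_zero.2 fun h => hf ?_).map C
    rw [h, C_0]
  refine ⟨fun h => ?_, fun a b hab => ?_⟩
  · have h1 := gd_row w m (w i₀)
    rw [w.symm_apply_apply, if_pos (show (i₀ : ℕ) < m from hm)] at h1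
    obtain ⟨u, hu⟩ := h
    have h2 := gd_mul (R := Rw q (w i₀)) (f := (u : MvPolynomial (Fin q × Fin q) ℂ))
      (g := ((u⁻¹ : (MvPolynomial (Fin q × Fin q) ℂ)ˣ) : MvPolynomial (Fin q × Fin q) ℂ))
      (Units.ne_zero u) (Units.ne_zero _)
    rw [← Units.val_mul, mul_inv_cancel, hu, h1] at h2
    have h3 : gd (Rw q (w i₀)) ((1 : (MvPolynomial (Fin q × Fin q) ℂ)ˣ) :
        MvPolynomial (Fin q × Fin q) ℂ) = 0 := gd_zero fun x t => by
      rw [Units.val_one, map_one, map_one]
    omega
  · have ha : a ≠ 0 := fun h => hne (by rw [hab, h, zero_mul])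
    have hb : b ≠ 0 := fun h => hne (by rw [hab, h, mul_zero])
    have hrow : ∀ i, gd (Rw q i) a + gd (Rw q i) b = if (w.symm i : ℕ) < m then 1 else 0 := by
      intro i
      rw [← gd_mul ha hb, ← hab, gd_row]
    have hcol : ∀ j, gd (Cw q j) a + gd (Cw q j) b = if (j : ℕ) < m then 1 else 0 := by
      intro j
      rw [← gd_mul ha hb, ← hab, gd_col]
    -- a row missing in one factor and a column missing in the other one
    have key : ∀ {f g : MvPolynomial (Fin q × Fin q) ℂ}, mn (w : Fin q → Fin q) m = f * g →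
        ∀ i j : Fin q, (i : ℕ) < m → (j : ℕ) < m → gd (Rw q (w i)) f = 0 →
          gd (Cw q j) g = 0 → False := by
      intro f g hfg i j hi hj hf hg
      obtain ⟨x, y, hxy, hne'⟩ := mn_dep w hi hj
      refine hne' ?_
      rw [hfg, map_mul, map_mul]
      congr 1
      · exact eval_of_gd hf fun z hz => hxy z fun h => hz (by rw [h]; rfl)
      · exact eval_of_gd hg fun z hz => hxy z fun h => hz (by rw [h]; rfl)
    have hab' : mn (w : Fin q → Fin q) m = b * a := by rw [hab, mul_comm]
    have hr0 := hrow (w i₀)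
    rw [w.symm_apply_apply, if_pos (show (i₀ : ℕ) < m from hm)] at hr0
    rcases Nat.eq_zero_or_pos (gd (Rw q (w i₀)) a) with h0 | h0
    · -- the factor `a` is constant
      left
      refine hunit ha (const_of_cols fun j => ?_)
      have h1 := hcol j
      by_cases hj : (j : ℕ) < m
      · have h2 : gd (Cw q j) b ≠ 0 := fun h => key hab i₀ j hm hj h0 h
        rw [if_pos hj] at h1
        omega
      · rw [if_neg hj] at h1
        omega
    · right
      have h0' : gd (Rw q (w i₀)) b = 0 := by omega
      refine hunit hb (const_of_cols fun j => ?_)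
      have h1 := hcol j
      by_cases hj : (j : ℕ) < m
      · have h2 : gd (Cw q j) a ≠ 0 := fun h => key hab' i₀ j hm hj h0' h
        rw [if_pos hj] at h1
        omega
      · rw [if_neg hj] at h1
        omega

end Q47.CF
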