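import Pool.Agent.Q47.CF.Wt
import Pool.Agent.Q47.CF.Fan
import Pool.Agent.Q47.CY.Lift
import Pool.Agent.Q47.FL.Main

/-!
# Klt Calabi–Yau pairs on flag bundles: the classes of the line bundles `c i`
-/

set_option autoImplicit false

namespace Q47.CF

open Finset
open Pool.Agent.W594.SYZ2 Pool.Agent.W594.SYZ2.TQ Pool.Agent.TH735.AQ
open Pool.Agent.Y167
open Pool.Agent.Y167.CC (form)
open Q47.TB Q47.CY MvPolynomial Q47.FL
open Q47.CP (chernCl)

variable {V E : Type*} [NormedAddCommGroup V] [NormedSpace ℂ V] [FiniteDimensional ℂ V]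
  [NormedAddCommGroup E] [NormedSpace ℂ E] [FiniteDimensional ℂ E] {Γ : Subgroup (V ≃ᵃ[ℂ] V)}
  {j : E →ₗ[ℂ] V} {H₀ : V → V → ℂ} {q s r : ℕ} {Y : FlagBundle Γ q s}

/-- The row degrees as a finitely supported function. -/
noncomputable def rowF (α : Fin q × Fin q →₀ ℕ) : Fin q →₀ ℕ :=
  Finsupp.equivFunOnFinite.symm (row α)

theorem rowF_apply (α : Fin q × Fin q →₀ ℕ) (i : Fin q) : rowF α i = row α i := rfl

omit [FiniteDimensional ℂ V] in
theorem q_pos (Y : FlagBundle Γ q s) : 0 < q := by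
  obtain ⟨i, -⟩ := (Y.range 0).2 (Nat.zero_le _)
  exact i.pos

omit [FiniteDimensional ℂ V] in
theorem exists_other (Y : FlagBundle Γ q s) (i : Fin q) : ∃ i', i' ≠ i := by
  obtain ⟨i₀, h0⟩ := (Y.range 0).2 (Nat.zero_le _)
  obtain ⟨i₁, h1⟩ := (Y.range s).2 le_rfl
  have hne : i₀ ≠ i₁ := fun h => by
    rw [h, h1] at h0
    exact absurd h0 Y.pos.ne'
  by_cases h : i₀ = i
  · exact ⟨i₁, fun h' => hne (h.trans h'.symm)⟩
  · exact ⟨i₀, h⟩

/-- The blocks for the projective bundle. -/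
def p1 (q : ℕ) : Fin q → Unit := fun _ => ()

/-- The base point for the projective bundle. -/
def z1 (Y : FlagBundle Γ q s) : Unit → Fin q := fun _ => ⟨0, q_pos Y⟩

/-- The projective bundle of `⊕ c_i`. -/
noncomputable def Y1 (Y : FlagBundle Γ q s) : Q47.CY.Bundle Γ (Fin q) (nn (p1 q) (z1 Y)) where
  u := uu (p1 q) (z1 Y)
  S := SS (p1 q)
  fan := smooth (fun _ => rfl) fun i => by
    obtain ⟨i', hi'⟩ := exists_other Y i
    exact ⟨i', rfl, hi'⟩
  proj := ⟨_, ample fun _ => rfl⟩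
  c := Y.c
  Hc := Y.Hc
  chern := Y.chern

/-- The Chern form of the coefficient bundle of a monomial. -/
def Nf (Δ : Bdry Y r) (l : Fin r) (β : Fin q → ℕ) : V → V → ℂ :=
  fun v w => Δ.HM l v w - ∑ i, (β i : ℂ) * Y.Hc i v w

omit [FiniteDimensional ℂ V] in
theorem chern_Nf (Δ : Bdry Y r) (l : Fin r) (β : Fin q → ℕ) :
    IsChernForm (Q47.TB.tw (Δ.M l) Y.c 1 β) (Nf Δ l β) := by
  obtain ⟨hH, F, hF, hFe⟩ := Δ.chern l
  choose hHc G hG hGe using Y.chern
  obtain ⟨h1, h2⟩ := pot_tw (L := Δ.M l) (c := Y.c) ⟨hF, hFe⟩ (fun i => ⟨hG i, hGe i⟩) β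
  refine ⟨⟨fun u v w => ?_, fun a v w => ?_, fun v w => ?_⟩, _, h1, h2⟩
  · simp only [Nf, hH.add_left, (hHc _).add_left, mul_add, Finset.sum_add_distrib]
    ring
  · simp only [Nf, hH.smul_left, (hHc _).smul_left, mul_sub, Finset.mul_sum]
    congr 1
    exact Finset.sum_congr rfl fun i _ => by ring
  · simp only [Nf, map_sub, map_mul, map_sum, Complex.conj_natCast, ← hH.symm, ← (hHc _).symm]

omit [FiniteDimensional ℂ V] in
/-- The coefficients are sections. -/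
theorem coeff_section' {b : Fin q → ℕ} {c : Fin q → LineBundle Γ} {d : ℕ → ℕ} {M : LineBundle Γ}
    {F : V → MvPolynomial (Fin q × Fin q) ℂ} (hF : FL.IsSection b c d M.e F)
    (α : Fin q × Fin q →₀ ℕ) : (Q47.TB.tw M c 1 (row α)).IsSection fun v => coeff α (F v) := by
  refine ⟨hF.holo α, fun γ v => ?_⟩
  have h1 := coeff_rel (c := c) (a := 1) (b := M.e γ v) (γ := γ) (v := v)
    (F := F ((γ : V ≃ᵃ[ℂ] V) v)) (G := F v) (fun g => by rw [mul_one]; exact hF.eq γ v g) α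
  rw [mul_one] at h1
  change _ = M.e γ v ^ 1 * (∏ i, (c i).e γ v ^ (1 * row α i))⁻¹ * _
  have h2 : (∏ i, (c i).e γ v ^ row α i) ≠ 0 :=
    Finset.prod_ne_zero_iff.2 fun i _ => pow_ne_zero _ ((c i).ne_zero γ v)
  simp only [one_mul, pow_one]
  field_simp
  linear_combination h1

theorem nef_Nf (hΓ : IsTorusQuotient Γ) (Δ : Bdry Y r) (l : Fin r) (α : Fin q × Fin q →₀ ℕ)
    (hα : ∃ v, coeff α (Δ.F l v) ≠ 0) : IsNefForm (Nf Δ l (row α)) :=
  Q47.MM.nef_of_section hΓ (chern_Nf Δ l (row α)) (coeff_section' (Δ.sect l) α) hα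

omit [FiniteDimensional ℂ V] in
/-- The forms of the differences of the exponents. -/
theorem Nf_sub (Δ : Bdry Y r) (l : Fin r) {n : ℕ} {u : Fin q → Fin n → ℤ} {β β' : Fin q → ℕ}
    {z : Fin n → ℤ} (h : ∀ i, (β i : ℤ) = β' i + ∑ k, z k * u i k) (v w : V) :
    ∑ k, (z k : ℂ) * ∑ i, (u i k : ℂ) * Y.Hc i v w = Nf Δ l β' v w - Nf Δ l β v w := by
  have h1 : ∀ i, (β i : ℂ) = β' i + ∑ k, (z k : ℂ) * u i k := fun i => by
    exact_mod_cast h i
  simp only [Nf, h1, add_mul, Finset.sum_add_distrib, Finset.sum_mul, Finset.mul_sum]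
  rw [Finset.sum_comm]
  have h2 : ∀ (i : Fin q) (k : Fin n), (z k : ℂ) * ((u i k : ℂ) * Y.Hc i v w)
      = (z k : ℂ) * (u i k : ℂ) * Y.Hc i v w := fun i k => by ring
  simp only [h2]
  ring

/-- The supports. -/
noncomputable def TT (Δ : Bdry Y r) (v₀ : V) (l : Fin r) : Finset (Fin q →₀ ℕ) :=
  (Δ.F l v₀).support.image rowF

/-- The degree of the pullback. -/
theorem sum_row {b : Fin q → ℕ} {d : ℕ → ℕ} {f : MvPolynomial (Fin q × Fin q) ℂ}
    (hf : IsSemiInvariant b d f) {α : Fin q × Fin q →₀ ℕ} (hα : α ∈ f.support) :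
    ∑ i, row α i = ∑ j, d (b j) := by
  have h1 : ∑ i, row α i = ∑ j, col α j := by
    simp only [row, col]
    exact Finset.sum_comm
  rw [h1]
  exact Finset.sum_congr rfl fun j _ => col_of_semi hf hα j

omit [FiniteDimensional ℂ V] in
theorem lin_one (Y : FlagBundle Γ q s) {R : Type*} [CommRing R] (v : Fin q → R)
    (h : ∑ i, v i = 0) :
    ∃ m : Fin (nn (p1 q) (z1 Y)) → R, ∀ i, v i = ∑ k, m k * ((Y1 Y).u i k : R) := by
  refine (sum_char (p := p1 q) (z := z1 Y) (fun _ => rfl) v).2 fun k => ?_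
  rw [← h]
  refine Finset.sum_congr ?_ fun _ _ => rfl
  ext i
  simp [p1]

omit [FiniteDimensional ℂ V] in
theorem lin_one' (Y : FlagBundle Γ q s) {β β' : Fin q → ℕ} (h : ∑ i, β i = ∑ i, β' i) :
    LinEquiv (Y1 Y).u (fun i => (β i : ℤ)) fun i => (β' i : ℤ) := by
  obtain ⟨m, hm⟩ := lin_one Y (R := ℤ) (fun i => (β i : ℤ) - β' i) (by
    rw [Finset.sum_sub_distrib, sub_eq_zero]
    exact_mod_cast h)
  refine ⟨m, fun i => ?_⟩
  have := hm i
  simp only [Int.cast_id] at this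
  linarith

omit [FiniteDimensional ℂ V] [FiniteDimensional ℂ E] in
/-- The components of the numerical condition. -/
theorem isCY_split {Δ : Bdry Y r} (hCY : IsCY Δ j) :
    ∃ (m : ℕ) (ρ : V → ℂ) (K : LineBundle Γ) (HK : V → V → ℂ) (hHK : IsChernForm K HK), 1 ≤ m ∧
      IsRamification Γ ρ ∧ Pool.Agent.TH735.AQ.IsLogPluricanonical K m ρ (fun _ => 1) ∧
      (∀ k : Fin s, ((-anti Y.b k : ℝ) - -anti Y.b (k + 1))
        + ∑ l, Δ.δ l * ((Δ.d l k : ℝ) - Δ.d l (k + 1)) = 0) ∧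
      (1 / m : ℝ) • clsE j hHK - (-anti Y.b s : ℝ) • ∑ i, clsE j (Y.chern i)
        + ∑ l, Δ.δ l • (clsE j (Δ.chern l) - (Δ.d l s : ℝ) • ∑ i, clsE j (Y.chern i)) = 0 := by
  obtain ⟨m, ρ, K, x, hm, hρ, hK, ⟨HK, hHK, hx⟩, hnum⟩ := hCY
  have h0 : x = clsE j hHK := by
    apply Subtype.ext
    funext v w
    exact hx v w
  rw [h0] at hnum
  have h1 : ((fun k : Fin s => (-anti Y.b k : ℝ) - -anti Y.b (k + 1),
      (1 / m : ℝ) • clsE j hHK - (-anti Y.b s : ℝ) • ∑ i, clsE j (Y.chern i)) :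
        (Fin s → ℝ) × N1 Γ j) + ∑ l, Δ.δ l • ((fun k : Fin s => (Δ.d l k : ℝ) - Δ.d l (k + 1),
        clsE j (Δ.chern l) - (Δ.d l s : ℝ) • ∑ i, clsE j (Y.chern i)) :
        (Fin s → ℝ) × N1 Γ j) = 0 := hnum
  refine ⟨m, ρ, K, HK, hHK, hm, hρ, hK, ?_, ?_⟩
  · intro k
    have h2 := congrFun (congrArg Prod.fst h1) k
    rw [Prod.fst_add, Prod.fst_sum, Pi.add_apply, Finset.sum_apply] at h2
    exact h2
  · have h2 := congrArg Prod.snd h1
    rw [Prod.snd_add, Prod.snd_sum] at h2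
    exact h2

/-- The consequences of the klt and the Calabi–Yau condition. -/
theorem klt_main (R : Rel Γ j H₀) (Δ : Bdry Y r) {v₀ : V} (hklt : Δ.IsKltAt v₀)
    (hCY : IsCY Δ j) :
    (∃ N₀ : ℕ, 0 < N₀ ∧ ∀ l : Fin (nn (p1 q) (z1 Y)), (Pi.single l (N₀ : ℤ) : _ → ℤ) ∈
      AddSubgroup.closure (Zs (Y1 Y).u (TT Δ v₀))) ∧
    (∀ e, MirrorFixed Γ (j e) → ∀ (k : Fin (nn (p1 q) (z1 Y))) (w : V),
      ∑ i, ((Y1 Y).u i k : ℂ) * Y.Hc i (j e) w = 0) ∧
    ∀ e, MirrorFixed Γ (j e) → ∀ (l : Fin r) (α : Fin q × Fin q →₀ ℕ),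
      (∃ v, coeff α (Δ.F l v) ≠ 0) → ∀ w, Nf Δ l (row α) (j e) w = 0 := by
  classical
  obtain ⟨C, hC, hlc⟩ := hklt
  obtain ⟨m, ρ, K, HK, hHK, hm, hρ, hK, h1, h2⟩ := isCY_split hCY
  have hC0 : 0 < C := by linarith
  have hqr : (0 : ℝ) < q := by exact_mod_cast q_pos Y
  have hbs : ∀ i, Y.b i ≤ s := fun i => (Y.range _).1 ⟨i, rfl⟩
  let φ : ℕ → ℝ := fun k => ∑ l, Δ.δ l * (Δ.d l k : ℝ) - anti Y.b k
  have hφ : ∀ k : Fin s, φ k - φ (k + 1) = 0 := by
    intro k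
    have h5 : ∑ l, Δ.δ l * ((Δ.d l k : ℝ) - Δ.d l (k + 1))
        = ∑ l, Δ.δ l * (Δ.d l k : ℝ) - ∑ l, Δ.δ l * (Δ.d l (k + 1) : ℝ) := by
      rw [← Finset.sum_sub_distrib]
      exact Finset.sum_congr rfl fun l _ => mul_sub _ _ _
    have h7 := h1 k
    simp only [φ]
    rw [h5] at h7
    linarith
  set κ : ℝ := φ s with hκdef
  have hκ : ∀ k ≤ s, ∑ l, Δ.δ l * (Δ.d l k : ℝ) = anti Y.b k + κ := by
    intro k hk
    have h3 := tele' φ s k hk
    rw [Finset.sum_eq_zero fun l _ => by rw [hφ l, ite_self]] at h3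
    have h4 : φ k = κ := by linarith
    simp only [φ] at h4
    linarith
  have hκ1 : 1 ≤ κ := by
    have h3 : (0 : ℝ) ≤ ∑ l, Δ.δ l * (Δ.d l s : ℝ) :=
      Finset.sum_nonneg fun l _ => mul_nonneg (Δ.pos l).le (Nat.cast_nonneg _)
    have h4 : (anti Y.b s : ℝ) ≤ -1 := by
      have h5 : (Finset.univ.filter fun i => s < Y.b i) = ∅ := by
        rw [Finset.filter_eq_empty_iff]
        intro i _
        exact not_lt.2 (hbs i)
      have h6 : 0 < (Finset.univ.filter fun i => Y.b i < s).card := by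
        obtain ⟨i, hi⟩ := (Y.range 0).2 (Nat.zero_le _)
        exact Finset.card_pos.2 ⟨i, Finset.mem_filter.2 ⟨Finset.mem_univ _, by
          rw [hi]; exact Y.pos⟩⟩
      have h7 : anti Y.b s ≤ -1 := by
        rw [anti, h5, Finset.card_empty]
        omega
      exact_mod_cast h7
    have h5 := hκ s le_rfl
    linarith
  have hκ0 : 0 < κ := by linarith
  have hbase : ∀ e e', (1 / m : ℝ) * HK (j e) (j e') - κ * ∑ i, Y.Hc i (j e) (j e')
      + ∑ l, (Δ.δ l : ℂ) * Δ.HM l (j e) (j e') = 0 := by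
    intro e e'
    have h4 : (1 / m : ℝ) • clsE j hHK - κ • ∑ i, clsE j (Y.chern i) +
        ∑ l, Δ.δ l • clsE j (Δ.chern l) = 0 := by
      rw [← h2]
      simp only [smul_sub, Finset.sum_sub_distrib, smul_smul]
      rw [← Finset.sum_smul]
      simp only [hκdef, φ]
      module
    have h5 := congrArg (fun p : N1 Γ j => p.1 e e') h4
    have h6 : ((1 / m : ℝ) • clsE j hHK - κ • ∑ i, clsE j (Y.chern i) +
        ∑ l, Δ.δ l • clsE j (Δ.chern l) : N1 Γ j).1 e e'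
        = ((1 / m : ℝ) • clsE j hHK : N1 Γ j).1 e e' - (κ • ∑ i, clsE j (Y.chern i) : N1 Γ j).1 e e'
          + (∑ l, Δ.δ l • clsE j (Δ.chern l) : N1 Γ j).1 e e' := rfl
    have h7 : ((1 / m : ℝ) • clsE j hHK : N1 Γ j).1 e e' = (1 / m : ℝ) * HK (j e) (j e') := by
      change (1 / m : ℝ) • HK (j e) (j e') = _
      rw [Complex.real_smul]
    have h8 : (κ • ∑ i, clsE j (Y.chern i) : N1 Γ j).1 e e'
        = κ * ∑ i, Y.Hc i (j e) (j e') := by
      change κ • ((∑ i, clsE j (Y.chern i) : N1 Γ j).1 e e') = _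
      have h9 := coe_sum_N1 (fun _ => (1 : ℝ)) (fun i => clsE j (Y.chern i)) e e'
      simp only [one_smul, Complex.ofReal_one, one_mul] at h9
      rw [Complex.real_smul, h9]
      rfl
    have h9 : (∑ l, Δ.δ l • clsE j (Δ.chern l) : N1 Γ j).1 e e'
        = ∑ l, (Δ.δ l : ℂ) * Δ.HM l (j e) (j e') :=
      coe_sum_N1 Δ.δ (fun l => clsE j (Δ.chern l)) e e'
    rw [← h7, ← h8, ← h9, ← h6]
    exact h5
  -- the weights
  set ε : ℝ := (C - 1) / (C * q) with hε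
  have hε0 : 0 < ε := div_pos (by linarith) (mul_pos hC0 hqr)
  have hε1 : ε < 1 := by
    have hq1 : (1 : ℝ) ≤ q := by exact_mod_cast q_pos Y
    rw [hε, div_lt_one (mul_pos hC0 hqr)]
    nlinarith
  have hκε : 0 < κ - ε := by linarith
  set C' : ℝ := κ / (κ - ε) with hC'
  have hC'1 : 1 < C' := by
    rw [hC', one_lt_div hκε]
    linarith
  set T := TT Δ v₀ with hT
  let δ' : Fin r → ℝ := fun l => Δ.δ l / κ
  let d1 : Fin r → Fin q → ℤ := fun l i => (Δ.d l (Y.b i) : ℤ)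
  have hcls : ∀ l, ∀ α ∈ T l, LinEquiv (Y1 Y).u (fun i => (α i : ℤ)) (d1 l) := by
    intro l α hα
    obtain ⟨α', hα', rfl⟩ := Finset.mem_image.1 hα
    exact lin_one' Y (β := row α') (β' := fun i => Δ.d l (Y.b i))
      (sum_row ((Δ.sect l).semi v₀) hα')
  have hw : ∀ a : Fin q → ℕ, {i | a i ≠ 0} ∈ (Y1 Y).S → ∃ α : Fin r → (Fin q →₀ ℕ),
      (∀ l, α l ∈ T l) ∧ ∑ l, C' * δ' l * ∑ i, (a i : ℝ) * α l i ≤ ∑ i, (a i : ℝ) := by
    intro a ha
    obtain ⟨i₀, -, hi₀⟩ := ha ()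
    have hi₀' : a i₀ = 0 := by
      by_contra h
      exact hi₀ h
    obtain ⟨α, hα, hle⟩ := klt_weights Y.mono Y.range Y.pos Δ.pos hC hlc
      (d := Δ.d) (fun l α hα j => col_of_semi ((Δ.sect l).semi v₀) hα j) hκ0.le
      (fun i => hκ _ (hbs i)) a i₀ hi₀'
    refine ⟨fun l => rowF (α l), fun l => Finset.mem_image_of_mem _ (hα l), ?_⟩
    have h3 : ∑ l, C' * δ' l * ∑ i, (a i : ℝ) * (rowF (α l)) i
        = C' / κ * ∑ l, Δ.δ l * ∑ i, (a i : ℝ) * row (α l) i := by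
      rw [Finset.mul_sum]
      refine Finset.sum_congr rfl fun l _ => ?_
      simp only [δ', rowF_apply]
      ring
    rw [h3]
    have h4 : C' / κ * ((κ - ε) * ∑ i, (a i : ℝ)) = ∑ i, (a i : ℝ) := by
      rw [hC']
      field_simp
    rw [← h4]
    exact mul_le_mul_of_nonneg_left hle (div_pos (by linarith) hκ0).le
  have hanti : ∑ i, (anti Y.b (Y.b i) : ℝ) = 0 := by
    have h3 := sum_low Y.b fun _ => 1
    simp only [sub_self, Finset.sum_const_zero, one_mul] at h3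
    have h4 : ∑ i, anti Y.b (Y.b i) = 0 := by
      have h5 : ∑ i, FL.anti Y.b i = 0 := by linarith
      exact h5
    exact_mod_cast h4
  have hq : ∃ q' : Fin (nn (p1 q) (z1 Y)) → ℝ, ∀ i,
      ∑ l, δ' l * d1 l i - 1 = ∑ k, q' k * (Y1 Y).u i k := by
    obtain ⟨q', hq'⟩ := lin_one Y (R := ℝ) (fun i => ∑ l, δ' l * d1 l i - 1) (by
      have h3 : ∀ i, ∑ l, δ' l * d1 l i - 1 = (anti Y.b (Y.b i) : ℝ) / κ := by
        intro i
        have h4 := hκ _ (hbs i)
        have h5 : ∑ l, δ' l * d1 l i = (∑ l, Δ.δ l * (Δ.d l (Y.b i) : ℝ)) / κ := by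
          rw [Finset.sum_div]
          refine Finset.sum_congr rfl fun l _ => ?_
          simp only [δ', d1]
          push_cast
          ring
        rw [h5, h4]
        field_simp
        ring
      rw [Finset.sum_congr rfl fun i _ => h3 i, ← Finset.sum_div, hanti, zero_div])
    exact ⟨q', hq'⟩
  obtain ⟨q', hq'⟩ := hq
  obtain ⟨N₀, hN₀, hfull⟩ := exists_full (Y1 Y).fan T hcls hC'1 hw hq'
  have hδ' : ∀ l, 0 < δ' l := fun l => div_pos (Δ.pos l) hκ0
  -- the forms of the exponents at `v₀`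
  have hker0 : ∀ e, MirrorFixed Γ (j e) → ∀ l, ∀ α ∈ T l, ∀ w, Nf Δ l α (j e) w = 0 := by
    intro e he l α hα w
    obtain ⟨σ, hs0, hspos, hs, hs1⟩ := exists_pos_weights (Y1 Y).fan hδ' T hcls hC'1 hw hq' l
      ⟨α, hα⟩
    have hnefT : ∀ a : Σ l, {α // α ∈ T l}, IsNefForm (Nf Δ a.1 a.2.1) := fun a => by
      obtain ⟨α', hα', h⟩ := Finset.mem_image.1 a.2.2
      have h3 := nef_Nf R.tq Δ a.1 α' ⟨v₀, mem_support_iff.1 hα'⟩
      have h4 : (a.2.1 : Fin q → ℕ) = row α' := by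
        rw [← h]
        rfl
      rw [h4]
      exact h3
    have hzero := mirror_zero R.tq hHK hρ hm hK he
    have hsum : ∑ a : Σ l, {α // α ∈ T l}, σ a * (Nf Δ a.1 a.2.1 (j e) (j e)).re = 0 := by
      have h3 := congrArg Complex.re (hbase e e)
      rw [Complex.add_re, Complex.sub_re, Complex.re_ofReal_mul, hzero, mul_zero, zero_sub,
        Complex.zero_re, Complex.re_ofReal_mul, Complex.re_sum, Complex.re_sum] at h3
      simp only [Complex.re_ofReal_mul] at h3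
      have h4 : ∀ a : Σ l, {α // α ∈ T l}, σ a * (Nf Δ a.1 a.2.1 (j e) (j e)).re
          = σ a * (Δ.HM a.1 (j e) (j e)).re
            - ∑ i, (σ a * (a.2.1 i : ℝ)) * (Y.Hc i (j e) (j e)).re := by
        intro a
        rw [Nf, Complex.sub_re, Complex.re_sum, mul_sub, Finset.mul_sum]
        congr 1
        refine Finset.sum_congr rfl fun i _ => ?_
        have : ((a.2.1 i : ℕ) : ℂ) = ((a.2.1 i : ℝ) : ℂ) := by push_cast; rfl
        rw [this, Complex.re_ofReal_mul]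
        ring
      simp only [h4, Finset.sum_sub_distrib]
      rw [Finset.sum_comm]
      simp only [← Finset.sum_mul, hs1, one_mul]
      rw [Fintype.sum_sigma]
      simp only [← Finset.sum_mul, hs]
      have h5 : ∑ l, δ' l * (Δ.HM l (j e) (j e)).re
          = (∑ l, Δ.δ l * (Δ.HM l (j e) (j e)).re) / κ := by
        rw [Finset.sum_div]
        exact Finset.sum_congr rfl fun l _ => by simp only [δ']; ring
      rw [h5, sub_eq_zero, div_eq_iff hκ0.ne']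
      linarith
    have h3 := (Finset.sum_eq_zero_iff_of_nonneg fun a _ => mul_nonneg (hs0 a)
      (hnefT a (j e))).1 hsum ⟨l, ⟨α, hα⟩⟩ (Finset.mem_univ _)
    have h4 := (mul_eq_zero.1 h3).resolve_left hspos.ne'
    exact h_isotropic (chern_Nf Δ l α).1 (hnefT ⟨l, ⟨α, hα⟩⟩) _ h4 w
  -- the classes of the characters
  have hkill : ∀ e, MirrorFixed Γ (j e) → ∀ (k : Fin (nn (p1 q) (z1 Y))) (w : V),
      ∑ i, ((Y1 Y).u i k : ℂ) * Y.Hc i (j e) w = 0 := by
    intro e he k w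
    have h1 : ∀ z ∈ AddSubgroup.closure (Zs (Y1 Y).u T),
        ∑ k, (z k : ℂ) * ∑ i, ((Y1 Y).u i k : ℂ) * Y.Hc i (j e) w = 0 := by
      intro z hz
      induction hz using AddSubgroup.closure_induction with
      | mem z hz =>
        obtain ⟨l, α, hα, α', hα', hz⟩ := hz
        rw [Nf_sub Δ l hz, hker0 e he l α' hα', hker0 e he l α hα, sub_self]
      | zero => simp
      | add x y _ _ hx hy =>
        simp only [Pi.add_apply, Int.cast_add, add_mul, Finset.sum_add_distrib]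
        rw [hx, hy, add_zero]
      | neg x _ hx =>
        simp only [Pi.neg_apply, Int.cast_neg, neg_mul, Finset.sum_neg_distrib]
        rw [hx, neg_zero]
    have h2 := h1 _ (hfull k)
    rw [Finset.sum_eq_single k (fun k' _ hk' => by
      rw [Pi.single_eq_of_ne hk', Int.cast_zero, zero_mul]) (fun h => absurd (Finset.mem_univ k) h),
      Pi.single_eq_same] at h2
    have hN : ((N₀ : ℤ) : ℂ) ≠ 0 := by exact_mod_cast hN₀.ne'
    exact (mul_eq_zero.1 h2).resolve_left hN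
  refine ⟨⟨N₀, hN₀, hfull⟩, hkill, fun e he l α hα w => ?_⟩
  -- the other exponents
  obtain ⟨α₁, hα₁⟩ : ∃ α₁, α₁ ∈ T l := by
    obtain ⟨α, hα, -⟩ := hw 0 (by
      have : {i : Fin q | (0 : Fin q → ℕ) i ≠ 0} = ∅ := by ext i; simp
      rw [this]
      exact (Y1 Y).fan.empty_mem)
    exact ⟨α l, hα l⟩
  obtain ⟨v, hv⟩ := hα
  obtain ⟨p, hp⟩ := lin_one' Y (β := row α) (β' := fun i => Δ.d l (Y.b i))
    (sum_row ((Δ.sect l).semi v) (mem_support_iff.2 hv))
  obtain ⟨p₁, hp₁⟩ := hcls l α₁ hα₁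
  have h1 : ∀ i, (row α i : ℤ) = α₁ i + ∑ k, (p k - p₁ k) * (Y1 Y).u i k := fun i => by
    have e1 := hp i
    have e2 := hp₁ i
    simp only [d1] at e1 e2
    rw [e1, e2]
    simp only [sub_mul, Finset.sum_sub_distrib]
    ring
  have h2 := Nf_sub (z := fun k => p k - p₁ k) Δ l h1 (j e) w
  simp only [hkill e he, mul_zero, Finset.sum_const_zero] at h2
  rw [hker0 e he l α₁ hα₁, zero_sub] at h2
  exact neg_eq_zero.1 h2.symm

end Q47.CF
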