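import Pool.Agent.Q47.CF.Cone

/-!
# The cone conjecture for klt Calabi–Yau pairs on flag bundles
-/

set_option autoImplicit false

namespace Q47.CF

open Finset
open Pool.Agent.W594.SYZ2 Pool.Agent.W594.SYZ2.TQ Pool.Agent.TH735.AQ
open Pool.Agent.Y167
open Pool.Agent.Y167.CC (LinGrp Preserves IsFundDomain)
open Q47.TB Q47.CY MvPolynomial Q47.FL
open Q47.CP (ap)

section Transport

variable {W W' : Type*} [AddCommGroup W] [Module ℝ W] [AddCommGroup W'] [Module ℝ W']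

/-- Conjugation with an isomorphism. -/
def cj (Φ : W' ≃ₗ[ℝ] W) : (W' ≃ₗ[ℝ] W') ≃* (W ≃ₗ[ℝ] W) where
  toFun g := (Φ.symm.trans g).trans Φ
  invFun g := (Φ.trans g).trans Φ.symm
  left_inv g := by
    ext x
    simp
  right_inv g := by
    ext x
    simp
  map_mul' g g' := by
    ext x
    simp [LinearEquiv.mul_apply]

theorem cj_apply (Φ : W' ≃ₗ[ℝ] W) (g : W' ≃ₗ[ℝ] W') (x : W') : cj Φ g (Φ x) = Φ (g x) := by
  simp [cj]

theorem cj_symm_apply (Φ : W' ≃ₗ[ℝ] W) (g : W ≃ₗ[ℝ] W) (x : W') :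
    Φ ((cj Φ).symm g x) = g (Φ x) := by
  have h1 := cj_apply Φ ((cj Φ).symm g) x
  rw [(cj Φ).apply_symm_apply] at h1
  exact h1.symm

/-- Fundamental domains and isomorphisms. -/
theorem fund_transport [TopologicalSpace W] [TopologicalSpace W'] (Φ : W' ≃ₗ[ℝ] W)
    (hΦ : Continuous Φ) (hΦ' : Continuous Φ.symm) (𝒢 : LinGrp W) {A P : Set W'}
    (h : IsFundDomain (𝒢.comap (cj Φ).toMonoidHom) A P) :
    IsFundDomain 𝒢 (Φ '' A) (Φ '' P) := by
  let e : W' ≃ₜ W := { toEquiv := Φ.toEquiv, continuous_toFun := hΦ, continuous_invFun := hΦ' }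
  have himg : ∀ (g : W ≃ₗ[ℝ] W), g '' (Φ '' P) = Φ '' ((cj Φ).symm g '' P) := by
    intro g
    rw [Set.image_image, Set.image_image]
    exact Set.image_congr fun x _ => (cj_symm_apply Φ g x).symm
  refine ⟨?_, fun g hg hg1 => ?_⟩
  · rw [h.1]
    apply Set.ext
    intro x
    constructor
    · rintro ⟨y, hy, rfl⟩
      obtain ⟨g, hg, hy⟩ := Set.mem_iUnion₂.1 hy
      refine Set.mem_iUnion₂.2 ⟨cj Φ g, hg, ?_⟩
      rw [himg, (cj Φ).symm_apply_apply]
      exact Set.mem_image_of_mem _ hy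
    · intro hx
      obtain ⟨g, hg, hx⟩ := Set.mem_iUnion₂.1 hx
      rw [himg] at hx
      obtain ⟨y, hy, rfl⟩ := hx
      refine ⟨y, Set.mem_iUnion₂.2 ⟨(cj Φ).symm g, ?_, hy⟩, rfl⟩
      rw [Subgroup.mem_comap]
      change cj Φ ((cj Φ).symm g) ∈ 𝒢
      rw [(cj Φ).apply_symm_apply]
      exact hg
  · have h1 : interior (Φ '' P) = Φ '' interior P := (e.image_interior P).symm
    rw [h1, himg, ← Set.image_inter Φ.injective, h.2 ((cj Φ).symm g) (by
      rw [Subgroup.mem_comap]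
      change cj Φ ((cj Φ).symm g) ∈ 𝒢
      rw [(cj Φ).apply_symm_apply]
      exact hg) fun h2 => hg1 (by
        have h3 := congrArg (cj Φ) h2
        rw [(cj Φ).apply_symm_apply, map_one] at h3
        exact h3), Set.image_empty]

end Transport

variable {V W E : Type*} [NormedAddCommGroup V] [NormedSpace ℂ V] [FiniteDimensional ℂ V]
  [NormedAddCommGroup W] [NormedSpace ℂ W]
  [NormedAddCommGroup E] [NormedSpace ℂ E] [FiniteDimensional ℂ E] {Γ : AffGrp V} {Γ' : AffGrp W}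
  {π : V →ₗ[ℂ] W} {j : E →ₗ[ℂ] V} {H₀ : V → V → ℂ} {q s r : ℕ} {Y : FlagBundle Γ q s}

/-- The product of the projective bundles of the exterior powers of `⊕ c_i`. -/
noncomputable def YP (Y : FlagBundle Γ q s) :
    Q47.CY.Bundle Γ (Pl Y.b s) (nn (pp Y.b s) (zp Y.b s)) where
  u := ug Y.b s
  S := SS (pp Y.b s)
  fan := smooth_Pl Y.range
  proj := ample_Pl Y.b s
  c := fun x => tp Y.c x.2.1
  Hc := fun x v w => ∑ i ∈ x.2.1, Y.Hc i v w
  chern := fun x => chern_tp Y.chern x.2.1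

/-- The pullback on `N^1(Y/Z)`. -/
def IsPullP (Y : FlagBundle Γ q s) (j : E →ₗ[ℂ] V) (f : V ≃ᵃ[ℂ] V)
    (g : NP Γ j s ≃ₗ[ℝ] NP Γ j s) : Prop :=
  (∀ (k : Fin s) (I : Finset (Fin q)), I.card = (Finset.univ.filter fun i => Y.b i ≤ k).card →
      g (Pi.single k 1, ∑ i ∈ I, clsE j (Y.chern i))
        = (Pi.single k 1, ∑ i ∈ I, clsE j (Y.chern i))) ∧
    ∀ z z' : N1 Γ j, (∀ e w e' w' : E, j e' = f.linear (j e) → j w' = f.linear (j w) →
      z'.1 e w = z.1 e' w') → g (0, z) = (0, z')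

/-- The group of the pullbacks. -/
noncomputable def grpP (Δ : Bdry Y r) (Γ' : AffGrp W) (π : V →ₗ[ℂ] W) (j : E →ₗ[ℂ] V) :
    LinGrp (NP Γ j s) :=
  Subgroup.closure {g | ∃ (f : V ≃ᵃ[ℂ] V) (a : Fin q → V → ℂ), IsAutY Y f a ∧
    Q43.CC.Over Γ' π f ∧ Δ.IsFixedBy f a ∧ IsPullP Y j f g}

omit [FiniteDimensional ℂ V] [FiniteDimensional ℂ E] in
/-- The classes of the divisors of the Plücker coordinates. -/
theorem Phi_D (y : Pl Y.b s) : Phi Y j (dv (ug Y.b s) (hP Y j) (Pi.single y 1))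
    = (Pi.single y.1 1, hP Y j y) := by
  classical
  obtain ⟨k, I⟩ := y
  have h3 := Phi_fst (Y := Y) (j := j) (Pi.single ⟨k, I⟩ 1) 0
  have h4 := Phi_snd (Y := Y) (j := j) (Pi.single ⟨k, I⟩ 1) 0
  rw [map_zero, add_zero] at h3 h4
  refine Prod.ext ?_ ?_
  · funext k'
    rw [h3]
    change _ = (Pi.single k 1 : Fin s → ℝ) k'
    by_cases hk : k' = k
    · subst hk
      rw [Pi.single_eq_same, Finset.sum_eq_single I]
      · rw [Pi.single_eq_same]
      · intro I' _ hI'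
        rw [Pi.single_apply, if_neg fun h => hI' (Pl_ext h)]
      · intro h
        exact absurd (Finset.mem_univ _) h
    · rw [Pi.single_eq_of_ne hk, Finset.sum_eq_zero fun I' _ => by
        rw [Pi.single_apply, if_neg fun h => hk (Sigma.mk.inj_iff.1 h).1]]
  · rw [h4, Finset.sum_eq_single ⟨k, I⟩]
    · rw [Pi.single_eq_same, one_smul, add_zero]
    · intro y _ hy
      rw [Pi.single_eq_of_ne hy, zero_smul]
    · intro h
      exact absurd (Finset.mem_univ _) h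

omit [FiniteDimensional ℂ V] [FiniteDimensional ℂ E] in
theorem D_eq (k : Fin s) (I : Finset (Fin q))
    (hI : I.card = (Finset.univ.filter fun i => Y.b i ≤ k).card) :
    ((Pi.single k 1, ∑ i ∈ I, clsE j (Y.chern i)) : NP Γ j s)
      = Phi Y j (dv (ug Y.b s) (hP Y j) (Pi.single ⟨k, ⟨I, hI⟩⟩ 1)) := by
  rw [Phi_D, hP_eq]

omit [FiniteDimensional ℂ V] [FiniteDimensional ℂ E] in
/-- The pullback in the coordinates. -/
theorem isPull_iff {f : V ≃ᵃ[ℂ] V} {g : NP Γ j s ≃ₗ[ℝ] NP Γ j s} :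
    IsPullP Y j f g ↔ Q47.CY.IsPullbackY (YP Y) j f ((cj (Phi Y j)).symm g) := by
  classical
  have hpb : ∀ z : N1 Γ j, ((0, z) : NP Γ j s) = Phi Y j (lft (ug Y.b s) z) := fun z =>
    Prod.ext (map_zero (degE Y.b s)).symm rfl
  constructor
  · rintro ⟨h1, h2⟩
    refine ⟨fun β => ?_, fun z z' h => ?_⟩
    · apply (Phi Y j).injective
      refine (cj_symm_apply (Phi Y j) g (dv (ug Y.b s) (hP Y j) β)).trans ?_
      change g (Phi Y j (dv (ug Y.b s) (hP Y j) β)) = Phi Y j (dv (ug Y.b s) (hP Y j) β)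
      have h3 : β = ∑ k, β k • (Pi.single k 1 : Pl Y.b s → ℝ) := by
        ext l
        simp [Finset.sum_apply, Pi.single_apply]
      rw [h3, map_sum, map_sum, map_sum]
      refine Finset.sum_congr rfl fun y _ => ?_
      rw [map_smul, map_smul, map_smul]
      congr 1
      obtain ⟨k, I, hI⟩ := y
      rw [← D_eq k I hI]
      exact h1 k I hI
    · apply (Phi Y j).injective
      refine (cj_symm_apply (Phi Y j) g (lft (ug Y.b s) z)).trans ?_
      change g (Phi Y j (lft (ug Y.b s) z)) = Phi Y j (lft (ug Y.b s) z')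
      rw [← hpb, ← hpb]
      exact h2 z z' h
  · rintro ⟨h1, h2⟩
    refine ⟨fun k I hI => ?_, fun z z' h => ?_⟩
    · rw [D_eq k I hI, ← cj_symm_apply]
      congr 1
      exact h1 _
    · rw [hpb, hpb, ← cj_symm_apply]
      congr 1
      exact h2 z z' h

/-- The group preserves the lattice and the nef cone. -/
theorem nice_grp (hj : Function.Injective j) (hjr : LinearMap.range j = LinearMap.ker π)
    (Δ : Bdry Y r) {g : NP Γ j s ≃ₗ[ℝ] NP Γ j s} (hg : g ∈ grpP Δ Γ' π j) :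
    NiceY (YP Y) j (TP Y.b s) ((cj (Phi Y j)).symm g) := by
  refine Subgroup.closure_induction ?_ ?_ ?_ ?_ hg
  · rintro g ⟨f, a, ha, hf, -, h⟩
    obtain ⟨u, hu⟩ := Q43.CC.exists_u hj hjr hf
    exact niceY_of_pull hj ha.1 hu (isPull_iff.1 h)
  · rw [map_one]
    exact ⟨fun a h => ⟨h, h⟩, fun a h => ⟨h, h⟩⟩
  · rintro x y - - hx hy
    rw [map_mul]
    exact ⟨fun a h => ⟨(hx.1 _ (hy.1 a h).1).1, (hy.1 _ (hx.1 a h).2).2⟩,
      fun a h => ⟨(hx.2 _ (hy.2 a h).1).1, (hy.2 _ (hx.2 a h).2).2⟩⟩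
  · rintro x - hx
    rw [map_inv]
    exact ⟨fun a h => ⟨(hx.1 a h).2, (hx.1 a h).1⟩, fun a h => ⟨(hx.2 a h).2, (hx.2 a h).1⟩⟩

omit [FiniteDimensional ℂ V] in
/-- Automorphisms of the projective bundle give automorphisms of the flag bundle. -/
theorem aut_of {f : V ≃ᵃ[ℂ] V} {a : Fin q → V → ℂ} (h : Q47.CY.IsAutY (Y1 Y) f a) :
    IsAutY Y f a := by
  obtain ⟨h1, h2, h3, h4⟩ := h
  refine ⟨h1, h2, h3, fun γ γ' hγ v i k => ?_⟩
  have hγ' : (γ' : V ≃ᵃ[ℂ] V) = f * γ * f⁻¹ := by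
    rw [eq_mul_inv_iff_mul_eq]
    ext v
    exact (hγ v).symm
  set X : Fin q → ℂ := fun i => a i ((γ : V ≃ᵃ[ℂ] V) v) * (Y.c i).e γ v with hX
  set Z : Fin q → ℂ := fun i => a i v * (Y.c i).e γ' (f v) with hZ
  have hX0 : ∀ i, X i ≠ 0 := fun i => mul_ne_zero (h3 _ _) ((Y.c i).ne_zero _ _)
  have hZ0 : ∀ i, Z i ≠ 0 := fun i => mul_ne_zero (h3 _ _) ((Y.c i).ne_zero _ _)
  -- the products
  have key : ∀ (T : Fin q → ℂ), (∀ i, T i ≠ 0) → ∀ c : Fin (nn (p1 q) (z1 Y)),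
      ∏ i, T i ^ (Y1 Y).u i c = T (el (p1 q) (z1 Y) c) * (T (z1 Y ()))⁻¹ := by
    intro T hT c
    have e1 : ∀ i, T i ^ (Y1 Y).u i c = (if i = el (p1 q) (z1 Y) c then T i else 1) *
        (if i = z1 Y () then (T i)⁻¹ else 1) := by
      intro i
      change T i ^ ((if i = el (p1 q) (z1 Y) c then (1 : ℤ) else 0)
        - if i = z1 Y () then 1 else 0) = _
      rw [zpow_sub₀ (hT i), div_eq_mul_inv]
      congr 1
      · split_ifs
        · rw [zpow_one]
        · rw [zpow_zero]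
      · split_ifs
        · rw [zpow_one]
        · rw [zpow_zero, inv_one]
    rw [Finset.prod_congr rfl fun i _ => e1 i, Finset.prod_mul_distrib]
    simp only [Finset.prod_ite_eq', Finset.mem_univ, if_true]
  have hrel : ∀ i, X i * Z (z1 Y ()) = X (z1 Y ()) * Z i := by
    intro i
    by_cases hi : i = z1 Y ()
    · rw [hi]
    · obtain ⟨c, hc⟩ := exists_el (p1 q) (z1 Y) (y := i) hi
      have e1 := h4 γ γ' hγ' v c
      change ∏ i, X i ^ (Y1 Y).u i c = ∏ i, Z i ^ (Y1 Y).u i c at e1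
      rw [key X hX0, key Z hZ0, hc] at e1
      have e2 := hX0 (z1 Y ())
      have e3 := hZ0 (z1 Y ())
      field_simp at e1
      linear_combination e1
  have e1 := hrel i
  have e2 := hrel k
  have e3 := hX0 (z1 Y ())
  have e4 := hZ0 (z1 Y ())
  change X i * Z k = X k * Z i
  have e5 : (X i * Z k) * (X (z1 Y ()) * Z (z1 Y ()))
      = (X k * Z i) * (X (z1 Y ()) * Z (z1 Y ())) := by
    linear_combination Z k * X (z1 Y ()) * e1 - Z i * X (z1 Y ()) * e2
  exact mul_right_cancel₀ (mul_ne_zero e3 e4) e5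

/-- **The cone conjecture for klt Calabi–Yau pairs on flag bundles**, general form. -/
theorem gen_main (R : Rel Γ j H₀) (hjr : LinearMap.range j = LinearMap.ker π)
    (Δ : Bdry Y r) {v₀ : V} (hklt : Δ.IsKltAt v₀) (hCY : IsCY Δ j)
    (𝒢 : LinGrp (NP Γ j s)) (hM : ∃ (M : AddSubgroup (NP Γ j s)) (k : ℕ), 0 < k ∧
      (∀ x ∈ intP Y j, (k : ℝ) • x ∈ M) ∧ (∀ x ∈ M, (k : ℝ) • x ∈ intP Y j) ∧
      ∀ g ∈ 𝒢, ∀ x ∈ M, g x ∈ M)
    (hN : Preserves 𝒢 (nefP Y j ∩ effP Y j))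
    (hfin : 𝒢.relIndex (grpP Δ Γ' π j) ≠ 0) :
    ∃ S : Finset (NP Γ j s), ↑S ⊆ intP Y j ∧ cone S ⊆ nefP Y j ∩ effP Y j ∧
      IsFundDomain 𝒢 (nefP Y j ∩ effP Y j) (cone S) := by
  classical
  have := finite_Lin R.tq
  obtain ⟨⟨N₀, hN₀, hfull⟩, hkill, hker⟩ := klt_main R Δ hklt hCY
  -- the forms of the line bundles `c i`
  have hkill1 : ∀ e, MirrorFixed Γ (j e) → ∀ (i : Fin q) (w : V),
      Y.Hc i (j e) w = Y.Hc (z1 Y ()) (j e) w := by
    intro e he i w
    by_cases hi : i = z1 Y ()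
    · rw [hi]
    · obtain ⟨c, hc⟩ := exists_el (p1 q) (z1 Y) (y := i) hi
      have h1 := hkill e he c w
      have h2 := sum_uu (p := p1 q) (z := z1 Y) (R := ℂ) (fun i => Y.Hc i (j e) w) c
      have h3 : ∑ x, Y.Hc x (j e) w * (uu (p1 q) (z1 Y) x c : ℂ)
          = ∑ i, ((Y1 Y).u i c : ℂ) * Y.Hc i (j e) w :=
        Finset.sum_congr rfl fun _ _ => mul_comm _ _
      rw [h3, h1, hc] at h2
      exact (sub_eq_zero.1 h2.symm)
  have hkill' : ∀ e, MirrorFixed Γ (j e) → ∀ (k : Fin (nn (pp Y.b s) (zp Y.b s))) (w : V),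
      ∑ x, ((YP Y).u x k : ℂ) * (YP Y).Hc x (j e) w = 0 := by
    intro e he k w
    have h2 := sum_uu (p := pp Y.b s) (z := zp Y.b s) (R := ℂ)
      (fun x => ∑ i ∈ x.2.1, Y.Hc i (j e) w) k
    have h3 : ∑ x : Pl Y.b s, (∑ i ∈ x.2.1, Y.Hc i (j e) w) * (uu (pp Y.b s) (zp Y.b s) x k : ℂ)
        = ∑ x, ((YP Y).u x k : ℂ) * (YP Y).Hc x (j e) w :=
      Finset.sum_congr rfl fun _ _ => mul_comm _ _
    rw [← h3, h2]
    have h4 : ∀ x : Pl Y.b s, ∑ i ∈ x.2.1, Y.Hc i (j e) w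
        = ((blk Y.b x.1).card : ℂ) * Y.Hc (z1 Y ()) (j e) w := by
      intro x
      rw [Finset.sum_congr rfl fun i _ => hkill1 e he i w, Finset.sum_const, nsmul_eq_mul, x.2.2]
    rw [h4, h4, sub_eq_zero]
    rfl
  obtain ⟨τ, B₁⟩ := exists_Bs (u := (YP Y).u) R (YP Y).chern fun e he k => hkill' e he k (j e)
  have B : Bs (ug Y.b s) (intL Γ j) (nefCone Γ j) (hP Y j) τ := B₁
  let _ : Fintype (Q47.MM.Refls Γ) := Fintype.ofFinite _
  obtain ⟨ℓ, hℓ⟩ := nef_tests R
  obtain ⟨ξ₀, y₀, Y₀, D, -, F, hF, hcov⟩ := cover R hN₀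
  obtain ⟨d, hd⟩ := ample_Pl Y.b s
  obtain ⟨M, k, hk, hM1, hM2, hM3⟩ := hM
  set Φ := Phi Y j with hΦ
  set 𝒢' : LinGrp (Cl (ug Y.b s) × N1 Γ j) := 𝒢.comap (cj Φ).toMonoidHom with h𝒢'
  set 𝒜' : LinGrp (Cl (ug Y.b s) × N1 Γ j) := (grpP Δ Γ' π j).comap (cj Φ).toMonoidHom with h𝒜'
  let M' : AddSubgroup (Cl (ug Y.b s) × N1 Γ j) := M.comap Φ.toLinearMap.toAddMonoidHom
  have hcone : ∀ p, Φ p ∈ nefP Y j ∩ effP Y j ↔ p ∈ NF (ug Y.b s) (nefCone Γ j) (hP Y j)
      (TP Y.b s) ∩ CT (ug Y.b s) (Cp (intL Γ j) (nefCone Γ j)) (hP Y j) ∅ := fun p =>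
    and_congr (nef_iff p) (eff_iff R p)
  have himg : Φ '' (NF (ug Y.b s) (nefCone Γ j) (hP Y j)
      (TP Y.b s) ∩ CT (ug Y.b s) (Cp (intL Γ j) (nefCone Γ j)) (hP Y j) ∅)
      = nefP Y j ∩ effP Y j := by
    apply Set.ext
    intro x
    constructor
    · rintro ⟨p, hp, rfl⟩
      exact (hcone p).2 hp
    · intro hx
      refine ⟨Φ.symm x, (hcone _).1 ?_, Φ.apply_symm_apply x⟩
      rw [Φ.apply_symm_apply]
      exact hx
  obtain ⟨S, h1, h2, h3⟩ := core (smooth_Pl Y.range) B D hℓ hd (TP_sub Y.b s) (TP_ne Y.b s) M' hk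
    (fun x hx => by
      change Φ ((k : ℝ) • x) ∈ M
      rw [map_smul]
      exact hM1 _ ((int_iff x).2 hx))
    (fun x hx => by
      have h1 := hM2 _ hx
      change (k : ℝ) • Φ x ∈ intP Y j at h1
      rw [← map_smul] at h1
      exact (int_iff _).1 h1) 𝒢' 𝒜' (fun g hg x hx => by
        change Φ (g x) ∈ M
        rw [← cj_apply]
        exact hM3 _ hg _ hx) (fun g hg p hp => by
        refine (hcone _).1 ?_
        rw [← cj_apply]
        exact hN _ hg _ ((hcone _).2 hp)) (fun t ht => by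
        have h1 := nice_grp (Γ' := Γ') R.inj hjr Δ ht
        change NiceY (YP Y) j (TP Y.b s) ((cj Φ).symm (cj Φ t)) at h1
        rw [(cj Φ).symm_apply_apply] at h1
        exact ⟨fun a ha => (h1.1 a ha).1, fun a ha => (h1.2 a ha).1⟩) (by
        rw [h𝒢', h𝒜', Subgroup.relIndex_comap, Subgroup.map_comap_eq_self_of_surjective
          (cj Φ).surjective]
        exact hfin) F hF (by
      intro x hx
      obtain ⟨x', hx', u, f, hf, hux⟩ := hcov x hx
      refine ⟨x', hx', ?_⟩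
      obtain ⟨a, ha, hΔa⟩ := lift R Δ hfull hkill hker hf
      obtain ⟨gX, hg1, -, -, -⟩ := exists_pull (j := j) hf.norm hf.lin
      have hcc : ∀ m, gX (cc (ug Y.b s) (hP Y j) m) = cc (ug Y.b s) (hP Y j) m := by
        intro m
        apply Subtype.ext
        funext v w
        have hz : ∀ e e' : E, (cc (ug Y.b s) (hP Y j) m).1 e e'
            = ∑ k, (m k : ℂ) * ∑ i, ((YP Y).u i k : ℂ) * (YP Y).Hc i (j e) (j e') := by
          intro e e'
          rw [cc, coe_sum_N1]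
          simp only [chr_apply, Complex.ofReal_sum, Complex.ofReal_mul, Complex.ofReal_intCast,
            Finset.sum_mul, Finset.mul_sum]
          rw [Finset.sum_comm]
          refine Finset.sum_congr rfl fun k _ => Finset.sum_congr rfl fun i _ => ?_
          rw [mul_assoc]
          rfl
        rw [hg1, hz, hz]
        refine Finset.sum_congr rfl fun k _ => ?_
        congr 1
        have hu : ∀ e, j (u e) = j e + j (u e - e) := fun e => by
          rw [← map_add]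
          congr 1
          abel
        have h4 : ∀ i, (YP Y).Hc i (j (u v)) (j (u w)) = (YP Y).Hc i (j v) (j w)
            + ((YP Y).Hc i (j (u v - v)) (j (u w)) + (YP Y).Hc i (j v) (j (u w - w))) := by
          intro i
          have hH := ((YP Y).chern i).1
          rw [hu v, hH.add_left, hu w, h_add_right hH, h_add_right hH]
          ring
        simp only [h4, mul_add, Finset.sum_add_distrib]
        have h5 := hkill' _ (hf.mir v) k (j (u w))
        have h6 : ∑ i, ((YP Y).u i k : ℂ) * (YP Y).Hc i (j v) (j (u w - w)) = 0 := by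
          have h7 := congrArg (starRingEnd ℂ) (hkill' _ (hf.mir w) k (j v))
          rw [map_sum, map_zero] at h7
          rw [← h7]
          refine Finset.sum_congr rfl fun i _ => ?_
          rw [map_mul, map_intCast, ← ((YP Y).chern i).1.symm]
        rw [h5, h6, add_zero, add_zero]
      obtain ⟨g, hg2, hg3⟩ := exists_ext gX hcc
      have hgx : gX x = x' := by
        apply Subtype.ext
        funext v w
        rw [hg1, hux]
      refine ⟨g, Subgroup.subset_closure ⟨f, a, aut_of ha, ⟨1, Γ'.one_mem, fun v => ?_⟩, hΔa, ?_⟩,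
        hg2, by rw [hg3, hgx]⟩
      · obtain ⟨e, he⟩ := hf.disp v
        have h5 : π (j (u e - e)) = 0 := by
          have h6 : j (u e - e) ∈ LinearMap.ker π := hjr ▸ LinearMap.mem_range_self j _
          exact h6
        rw [he, map_add, h5, add_zero]
        rfl
      · refine isPull_iff.2 ?_
        change Q47.CY.IsPullbackY (YP Y) j f ((cj Φ).symm (cj Φ g))
        rw [(cj Φ).symm_apply_apply]
        refine ⟨hg2, fun z z' hz => ?_⟩
        have hzz : gX z = z' := by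
          apply Subtype.ext
          funext v w
          rw [hg1]
          exact (hz v w (u v) (u w) (hf.lin v).symm (hf.lin w).symm).symm
        have h8 := hg3 z
        rw [hzz] at h8
        exact h8)
  have hconeS : cone (S.image Φ.toLinearMap) = Φ '' cone S := by
    apply Set.ext
    intro p
    rw [mem_cone_image]
    exact Iff.rfl
  refine ⟨S.image Φ.toLinearMap, fun a ha => ?_, ?_, ?_⟩
  · obtain ⟨b, hb, rfl⟩ := Finset.mem_image.1 (Finset.mem_coe.1 ha)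
    exact (int_iff b).2 (h1 b hb)
  · rw [hconeS, ← himg]
    exact Set.image_mono h2
  · rw [hconeS, ← himg]
    refine fund_transport Φ ?_ ?_ 𝒢 h3
    · exact ((degE_cont Y.b s).comp continuous_fst).prodMk continuous_snd
    · exact ((degE_symm_cont Y.b s).comp continuous_fst).prodMk continuous_snd

end Q47.CF
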