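import Pool.Agent.Q47.CF.Main

/-!
# The cone theorem for more general cones on flag bundles
-/

set_option autoImplicit false

namespace Q47.CF

open Finset
open Pool.Agent.W594.SYZ2 Pool.Agent.W594.SYZ2.TQ Pool.Agent.TH735.AQ
open Pool.Agent.Y167
open Pool.Agent.Y167.CC (LinGrp Preserves IsFundDomain)
open Q47.TB Q47.CY MvPolynomial Q47.FL
open Q47.CP (ap)

variable {V W E : Type*} [NormedAddCommGroup V] [NormedSpace ℂ V] [FiniteDimensional ℂ V]
  [NormedAddCommGroup W] [NormedSpace ℂ W]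
  [NormedAddCommGroup E] [NormedSpace ℂ E] [FiniteDimensional ℂ E] {Γ : AffGrp V} {Γ' : AffGrp W}
  {π : V →ₗ[ℂ] W} {j : E →ₗ[ℂ] V} {H₀ : V → V → ℂ} {q s r : ℕ} {Y : FlagBundle Γ q s}

/-- The group preserves the lattice and the cones. -/
theorem nice_grp' (T : Set (Set (Pl Y.b s))) (hj : Function.Injective j)
    (hjr : LinearMap.range j = LinearMap.ker π)
    (Δ : Bdry Y r) {g : NP Γ j s ≃ₗ[ℝ] NP Γ j s} (hg : g ∈ grpP Δ Γ' π j) :
    NiceY (YP Y) j T ((cj (Phi Y j)).symm g) := by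
  refine Subgroup.closure_induction ?_ ?_ ?_ ?_ hg
  · rintro g ⟨f, a, ha, hf, -, h⟩
    obtain ⟨u, hu⟩ := Q43.CC.exists_u hj hjr hf
    exact niceY_of_pull hj ha.1 hu (isPull_iff.1 h)
  · rw [map_one]
    exact ⟨fun a h => ⟨h, h⟩, fun a h => ⟨h, h⟩⟩
  · rintro x y - - hx hy
    rw [map_mul]
    exact ⟨fun a h => ⟨(hx.1 _ (hy.1 a h).1).1, (hy.1 _ (hx.1 a h).2).2⟩,
      fun a h => ⟨(hx.2 _ (hy.2 a h).1).1, (hy.2 _ (hx.2 a h).2).2⟩⟩
  · rintro x - hx
    rw [map_inv]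
    exact ⟨fun a h => ⟨(hx.1 a h).2, (hx.1 a h).1⟩, fun a h => ⟨(hx.2 a h).2, (hx.2 a h).1⟩⟩

/-- **The cone conjecture for klt Calabi–Yau pairs on flag bundles**, for general cones. -/
theorem gen_mainT (R : Rel Γ j H₀) (hjr : LinearMap.range j = LinearMap.ker π)
    (Δ : Bdry Y r) {v₀ : V} (hklt : Δ.IsKltAt v₀) (hCY : IsCY Δ j)
    {T : Set (Set (Pl Y.b s))} (hT : T ⊆ SS (pp Y.b s)) (hT0 : T.Nonempty)
    {C : Set (NP Γ j s)} (hcone : ∀ p, Phi Y j p ∈ C ∩ effP Y j ↔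
      p ∈ NF (ug Y.b s) (nefCone Γ j) (hP Y j) T ∩
        CT (ug Y.b s) (Cp (intL Γ j) (nefCone Γ j)) (hP Y j) ∅)
    (𝒢 : LinGrp (NP Γ j s)) (hM : ∃ (M : AddSubgroup (NP Γ j s)) (k : ℕ), 0 < k ∧
      (∀ x ∈ intP Y j, (k : ℝ) • x ∈ M) ∧ (∀ x ∈ M, (k : ℝ) • x ∈ intP Y j) ∧
      ∀ g ∈ 𝒢, ∀ x ∈ M, g x ∈ M)
    (hN : Preserves 𝒢 (C ∩ effP Y j))
    (hfin : 𝒢.relIndex (grpP Δ Γ' π j) ≠ 0) :
    ∃ S : Finset (NP Γ j s), ↑S ⊆ intP Y j ∧ cone S ⊆ C ∩ effP Y j ∧
      IsFundDomain 𝒢 (C ∩ effP Y j) (cone S) := by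
  classical
  have := finite_Lin R.tq
  obtain ⟨⟨N₀, hN₀, hfull⟩, hkill, hker⟩ := klt_main R Δ hklt hCY
  -- the forms of the line bundles `c i`
  have hkill1 : ∀ e, MirrorFixed Γ (j e) → ∀ (i : Fin q) (w : V),
      Y.Hc i (j e) w = Y.Hc (z1 Y ()) (j e) w := by
    intro e he i w
    by_cases hi : i = z1 Y ()
    · rw [hi]
    · obtain ⟨c, hc⟩ := exists_el (p1 q) (z1 Y) (y := i) hi
      have h1 := hkill e he c w
      have h2 := sum_uu (p := p1 q) (z := z1 Y) (R := ℂ) (fun i => Y.Hc i (j e) w) c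
      have h3 : ∑ x, Y.Hc x (j e) w * (uu (p1 q) (z1 Y) x c : ℂ)
          = ∑ i, ((Y1 Y).u i c : ℂ) * Y.Hc i (j e) w :=
        Finset.sum_congr rfl fun _ _ => mul_comm _ _
      rw [h3, h1, hc] at h2
      exact (sub_eq_zero.1 h2.symm)
  have hkill' : ∀ e, MirrorFixed Γ (j e) → ∀ (k : Fin (nn (pp Y.b s) (zp Y.b s))) (w : V),
      ∑ x, ((YP Y).u x k : ℂ) * (YP Y).Hc x (j e) w = 0 := by
    intro e he k w
    have h2 := sum_uu (p := pp Y.b s) (z := zp Y.b s) (R := ℂ)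
      (fun x => ∑ i ∈ x.2.1, Y.Hc i (j e) w) k
    have h3 : ∑ x : Pl Y.b s, (∑ i ∈ x.2.1, Y.Hc i (j e) w) * (uu (pp Y.b s) (zp Y.b s) x k : ℂ)
        = ∑ x, ((YP Y).u x k : ℂ) * (YP Y).Hc x (j e) w :=
      Finset.sum_congr rfl fun _ _ => mul_comm _ _
    rw [← h3, h2]
    have h4 : ∀ x : Pl Y.b s, ∑ i ∈ x.2.1, Y.Hc i (j e) w
        = ((blk Y.b x.1).card : ℂ) * Y.Hc (z1 Y ()) (j e) w := by
      intro x
      rw [Finset.sum_congr rfl fun i _ => hkill1 e he i w, Finset.sum_const, nsmul_eq_mul, x.2.2]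
    rw [h4, h4, sub_eq_zero]
    rfl
  obtain ⟨τ, B₁⟩ := exists_Bs (u := (YP Y).u) R (YP Y).chern fun e he k => hkill' e he k (j e)
  have B : Bs (ug Y.b s) (intL Γ j) (nefCone Γ j) (hP Y j) τ := B₁
  let _ : Fintype (Q47.MM.Refls Γ) := Fintype.ofFinite _
  obtain ⟨ℓ, hℓ⟩ := nef_tests R
  obtain ⟨ξ₀, y₀, Y₀, D, -, F, hF, hcov⟩ := cover R hN₀
  obtain ⟨d, hd⟩ := ample_Pl Y.b s
  obtain ⟨M, k, hk, hM1, hM2, hM3⟩ := hM
  set Φ := Phi Y j with hΦ
  set 𝒢' : LinGrp (Cl (ug Y.b s) × N1 Γ j) := 𝒢.comap (cj Φ).toMonoidHom with h𝒢'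
  set 𝒜' : LinGrp (Cl (ug Y.b s) × N1 Γ j) := (grpP Δ Γ' π j).comap (cj Φ).toMonoidHom with h𝒜'
  let M' : AddSubgroup (Cl (ug Y.b s) × N1 Γ j) := M.comap Φ.toLinearMap.toAddMonoidHom
  have himg : Φ '' (NF (ug Y.b s) (nefCone Γ j) (hP Y j)
      T ∩ CT (ug Y.b s) (Cp (intL Γ j) (nefCone Γ j)) (hP Y j) ∅)
      = C ∩ effP Y j := by
    apply Set.ext
    intro x
    constructor
    · rintro ⟨p, hp, rfl⟩
      exact (hcone p).2 hp
    · intro hx
      refine ⟨Φ.symm x, (hcone _).1 ?_, Φ.apply_symm_apply x⟩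
      rw [Φ.apply_symm_apply]
      exact hx
  obtain ⟨S, h1, h2, h3⟩ := core (smooth_Pl Y.range) B D hℓ hd hT hT0 M' hk
    (fun x hx => by
      change Φ ((k : ℝ) • x) ∈ M
      rw [map_smul]
      exact hM1 _ ((int_iff x).2 hx))
    (fun x hx => by
      have h1 := hM2 _ hx
      change (k : ℝ) • Φ x ∈ intP Y j at h1
      rw [← map_smul] at h1
      exact (int_iff _).1 h1) 𝒢' 𝒜' (fun g hg x hx => by
        change Φ (g x) ∈ M
        rw [← cj_apply]
        exact hM3 _ hg _ hx) (fun g hg p hp => by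
        refine (hcone _).1 ?_
        rw [← cj_apply]
        exact hN _ hg _ ((hcone _).2 hp)) (fun t ht => by
        have h1 := nice_grp' (Γ' := Γ') T R.inj hjr Δ ht
        change NiceY (YP Y) j T ((cj Φ).symm (cj Φ t)) at h1
        rw [(cj Φ).symm_apply_apply] at h1
        exact ⟨fun a ha => (h1.1 a ha).1, fun a ha => (h1.2 a ha).1⟩) (by
        rw [h𝒢', h𝒜', Subgroup.relIndex_comap, Subgroup.map_comap_eq_self_of_surjective
          (cj Φ).surjective]
        exact hfin) F hF (by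
      intro x hx
      obtain ⟨x', hx', u, f, hf, hux⟩ := hcov x hx
      refine ⟨x', hx', ?_⟩
      obtain ⟨a, ha, hΔa⟩ := lift R Δ hfull hkill hker hf
      obtain ⟨gX, hg1, -, -, -⟩ := exists_pull (j := j) hf.norm hf.lin
      have hcc : ∀ m, gX (cc (ug Y.b s) (hP Y j) m) = cc (ug Y.b s) (hP Y j) m := by
        intro m
        apply Subtype.ext
        funext v w
        have hz : ∀ e e' : E, (cc (ug Y.b s) (hP Y j) m).1 e e'
            = ∑ k, (m k : ℂ) * ∑ i, ((YP Y).u i k : ℂ) * (YP Y).Hc i (j e) (j e') := by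
          intro e e'
          rw [cc, coe_sum_N1]
          simp only [chr_apply, Complex.ofReal_sum, Complex.ofReal_mul, Complex.ofReal_intCast,
            Finset.sum_mul, Finset.mul_sum]
          rw [Finset.sum_comm]
          refine Finset.sum_congr rfl fun k _ => Finset.sum_congr rfl fun i _ => ?_
          rw [mul_assoc]
          rfl
        rw [hg1, hz, hz]
        refine Finset.sum_congr rfl fun k _ => ?_
        congr 1
        have hu : ∀ e, j (u e) = j e + j (u e - e) := fun e => by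
          rw [← map_add]
          congr 1
          abel
        have h4 : ∀ i, (YP Y).Hc i (j (u v)) (j (u w)) = (YP Y).Hc i (j v) (j w)
            + ((YP Y).Hc i (j (u v - v)) (j (u w)) + (YP Y).Hc i (j v) (j (u w - w))) := by
          intro i
          have hH := ((YP Y).chern i).1
          rw [hu v, hH.add_left, hu w, h_add_right hH, h_add_right hH]
          ring
        simp only [h4, mul_add, Finset.sum_add_distrib]
        have h5 := hkill' _ (hf.mir v) k (j (u w))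
        have h6 : ∑ i, ((YP Y).u i k : ℂ) * (YP Y).Hc i (j v) (j (u w - w)) = 0 := by
          have h7 := congrArg (starRingEnd ℂ) (hkill' _ (hf.mir w) k (j v))
          rw [map_sum, map_zero] at h7
          rw [← h7]
          refine Finset.sum_congr rfl fun i _ => ?_
          rw [map_mul, map_intCast, ← ((YP Y).chern i).1.symm]
        rw [h5, h6, add_zero, add_zero]
      obtain ⟨g, hg2, hg3⟩ := exists_ext gX hcc
      have hgx : gX x = x' := by
        apply Subtype.ext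
        funext v w
        rw [hg1, hux]
      refine ⟨g, Subgroup.subset_closure ⟨f, a, aut_of ha, ⟨1, Γ'.one_mem, fun v => ?_⟩, hΔa, ?_⟩,
        hg2, by rw [hg3, hgx]⟩
      · obtain ⟨e, he⟩ := hf.disp v
        have h5 : π (j (u e - e)) = 0 := by
          have h6 : j (u e - e) ∈ LinearMap.ker π := hjr ▸ LinearMap.mem_range_self j _
          exact h6
        rw [he, map_add, h5, add_zero]
        rfl
      · refine isPull_iff.2 ?_
        change Q47.CY.IsPullbackY (YP Y) j f ((cj Φ).symm (cj Φ g))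
        rw [(cj Φ).symm_apply_apply]
        refine ⟨hg2, fun z z' hz => ?_⟩
        have hzz : gX z = z' := by
          apply Subtype.ext
          funext v w
          rw [hg1]
          exact (hz v w (u v) (u w) (hf.lin v).symm (hf.lin w).symm).symm
        have h8 := hg3 z
        rw [hzz] at h8
        exact h8)
  have hconeS : cone (S.image Φ.toLinearMap) = Φ '' cone S := by
    apply Set.ext
    intro p
    rw [mem_cone_image]
    exact Iff.rfl
  refine ⟨S.image Φ.toLinearMap, fun a ha => ?_, ?_, ?_⟩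
  · obtain ⟨b, hb, rfl⟩ := Finset.mem_image.1 (Finset.mem_coe.1 ha)
    exact (int_iff b).2 (h1 b hb)
  · rw [hconeS, ← himg]
    exact Set.image_mono h2
  · rw [hconeS, ← himg]
    refine fund_transport Φ ?_ ?_ 𝒢 h3
    · exact ((degE_cont Y.b s).comp continuous_fst).prodMk continuous_snd
    · exact ((degE_symm_cont Y.b s).comp continuous_fst).prodMk continuous_snd

end Q47.CF
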