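import Pool.Agent.Q47.CF.PlSec
import Pool.Agent.Q47.CY.MovB

/-!
# Classes of movable line bundles on flag bundles
-/

set_option autoImplicit false

namespace Q47.CF

open Finset Filter Topology
open Pool.Agent.W594.SYZ2 Pool.Agent.W594.SYZ2.TQ Pool.Agent.TH735.AQ Pool.Agent.TH128.SYZ
open Pool.Agent.Y167
open Q47.TB Q47.CY MvPolynomial Q47.FL

variable {V E : Type*} [NormedAddCommGroup V] [NormedSpace ℂ V] [FiniteDimensional ℂ V]
  [NormedAddCommGroup E] [NormedSpace ℂ E] [FiniteDimensional ℂ E] {Γ : AffGrp V}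
  {j : E →ₗ[ℂ] V} {H₀ : V → V → ℂ} {q s r : ℕ} {Y : FlagBundle Γ q s}

omit [FiniteDimensional ℂ E] in
/-- Movable line bundles. -/
theorem NF_of_movable (R : Rel Γ j H₀) {t : ℕ → ℕ} {M : LineBundle Γ} {x₀ : N1 Γ j}
    (hx₀ : IsClass j M x₀.1) (hM : IsMovable Y t M) :
    (Phi Y j).symm (clP Y j (fun k => t k) x₀) ∈
      NF (ug Y.b s) (nefCone Γ j) (hP Y j) (T1 (SS (pp Y.b s))) := by
  classical
  rintro T ⟨hT, hTs⟩
  -- the coordinate which has to be avoided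
  obtain ⟨z, hz⟩ : ∃ z : Pl Y.b s, T ⊆ {z} := by
    rcases hTs.eq_empty_or_singleton with rfl | ⟨z, rfl⟩
    · exact ⟨zp Y.b s ⟨0, Y.pos⟩, Set.empty_subset _⟩
    · exact ⟨z, subset_rfl⟩
  obtain ⟨g₀, hg₀, hz₀⟩ := pl_zero Y.mono Y.range z
  obtain ⟨G, hG, v, g, hg, hpz, hGv⟩ := hM _ _ _ (pl_sect Y z) ⟨0, g₀, hg₀, hz₀⟩
  obtain ⟨α, hα, β, hβ0, hβz, hβ1, hβ2⟩ := rado' Y.mono Y.range (hG.semi v) hGv z hpz
  obtain ⟨HM, hHM, hxM⟩ := hx₀
  have hch := chern_tw hHM Y.chern 1 (row α)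
  obtain ⟨x, hx, hxI⟩ := exists_int (j := j) (L := Q47.TB.tw M Y.c 1 (row α))
    (h := fun e w => ((1 : ℕ) : ℂ) * (HM (j e) (j w) - ∑ i, (row α i : ℂ) *
      Y.Hc i (j e) (j w))) ⟨_, hch, fun _ _ => rfl⟩
  refine ⟨β, hβ0, fun i hi => ?_, x, ?_, ?_⟩
  · rw [Set.mem_singleton_iff.1 (hz hi)]
    exact hβz
  · have h3 : x ∈ effCone Γ j := ⟨{x}, fun b hb => by
      rw [Finset.mem_singleton.1 hb]
      exact ⟨_, _, ⟨_, hch, fun e w => by rw [hx]⟩, coeff_section' hG α, v,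
        mem_support_iff.1 hα⟩, mem_cone_self (Finset.mem_singleton_self x)⟩
    exact eff_nef R.tq h3
  · rw [LinearEquiv.symm_apply_eq]
    have hx0 : x₀ = ∑ i, (row α i : ℝ) • clsE j (Y.chern i) + x := by
      apply Subtype.ext
      funext e w
      have h4 : (∑ i, (row α i : ℝ) • clsE j (Y.chern i) + x : N1 Γ j).1 e w
          = (∑ i, (row α i : ℝ) • clsE j (Y.chern i) : N1 Γ j).1 e w + x.1 e w := rfl
      rw [h4, coe_sum_N1, hx, hxM]
      change _ = _ + ((1 : ℕ) : ℂ) * _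
      rw [Nat.cast_one, one_mul]
      simp only [Complex.ofReal_natCast]
      change HM (j e) (j w) = ∑ i, (row α i : ℂ) * Y.Hc i (j e) (j w) + _
      ring
    refine Prod.ext ?_ ?_
    · funext k
      rw [Phi_fst, hβ1]
      rfl
    · rw [Phi_snd, sum_hP]
      simp only [hβ2]
      change x₀ - (t s : ℝ) • ∑ i, clsE j (Y.chern i) = _
      rw [hx0]
      exact alg_aux _ _ _ _

/-- A class with ample coefficients has a multiple which is the class of a movable line bundle. -/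
theorem movable_class (R : Rel Γ j H₀) {p : Cl (ug Y.b s) × N1 Γ j}
    (hp : p ∈ LY (ug Y.b s) (intL Γ j))
    {y₀ : N1 Γ j} (hy₀ : ∀ u w, y₀.1 u w = H₀ (j u) (j w))
    (hrep : ∀ T ∈ T1 (SS (pp Y.b s)), ∃ (n : Pl Y.b s → ℕ) (x : N1 Γ j), (∀ i ∈ T, n i = 0) ∧
      x - y₀ ∈ nefCone Γ j ∧
        p = dv (ug Y.b s) (hP Y j) (fun i => (n i : ℝ)) + lft (ug Y.b s) x) :
    ∃ m : ℕ, 1 ≤ m ∧ ∃ (t : ℕ → ℕ) (M : LineBundle Γ) (x : N1 Γ j), IsClass j M x.1 ∧
      Phi Y j ((m : ℝ) • p) = clP Y j (fun k => t k) x ∧ IsMovable Y t M := by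
  classical
  obtain ⟨-, M₀, HM, hHM, hM₀⟩ := hp
  obtain ⟨B, P, hBP, hP0, hPE, hPj⟩ := exists_base_bundle R
  have hfin : Finite {t // t ∈ T1 (SS (pp Y.b s))} := inferInstance
  let _ : Fintype {t // t ∈ T1 (SS (pp Y.b s))} := Fintype.ofFinite _
  choose n x hn hx hpx using fun t : {t // t ∈ T1 (SS (pp Y.b s))} => hrep t.1 t.2
  have hHc : ∀ i, IsHermitian (Y.Hc i) := fun i => (Y.chern i).1
  let Ht : {t // t ∈ T1 (SS (pp Y.b s))} → V → V → ℂ := fun t v w =>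
    HM v w - ∑ i, (rw' (n t) i : ℂ) * Y.Hc i v w
  have hHt : ∀ t, IsHermitian (Ht t) := by
    intro t
    refine ⟨fun u v w => ?_, fun a v w => ?_, fun v w => ?_⟩
    · simp only [Ht, hHM.1.add_left, (hHc _).add_left, mul_add, Finset.sum_add_distrib]
      ring
    · simp only [Ht, hHM.1.smul_left, (hHc _).smul_left, mul_sub, Finset.mul_sum]
      congr 1
      exact Finset.sum_congr rfl fun i _ => by ring
    · simp only [Ht, map_sub, map_mul, map_sum, Complex.conj_natCast, ← hHM.1.symm,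
        ← (hHc _).symm]
  have hsnd : ∀ t, p.2 = ∑ i, (rw' (n t) i : ℝ) • clsE j (Y.chern i) + x t := by
    intro t
    have h1 := congrArg (fun p => (Phi Y j p).2) (hpx t)
    simp only [Phi_snd, sum_hP] at h1
    have h2 : (Phi Y j p).2 = p.2 := rfl
    rw [h2] at h1
    rw [h1]
    congr 1
    refine Finset.sum_congr rfl fun i _ => ?_
    congr 1
    rw [rw', Nat.cast_sum]
    refine Finset.sum_congr rfl fun y _ => ?_
    split_ifs
    · rfl
    · rw [Nat.cast_zero]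
  have hHx : ∀ t e w, Ht t (j e) (j w) = (x t).1 e w := by
    intro t e w
    have h2 : p.2.1 e w = (∑ i, (rw' (n t) i : ℝ) • clsE j (Y.chern i) + x t : N1 Γ j).1 e w := by
      rw [← hsnd t]
    have h4 : (∑ i, (rw' (n t) i : ℝ) • clsE j (Y.chern i) + x t : N1 Γ j).1 e w
        = (∑ i, (rw' (n t) i : ℝ) • clsE j (Y.chern i) : N1 Γ j).1 e w + (x t).1 e w := rfl
    rw [h4, coe_sum_N1, hM₀] at h2
    simp only [Complex.ofReal_natCast] at h2
    change HM (j e) (j w) = ∑ i, (rw' (n t) i : ℂ) * Y.Hc i (j e) (j w) + _ at h2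
    simp only [Ht]
    rw [h2]
    ring
  have hpos : ∀ t v, v ≠ 0 → (P v v).re = 0 → 0 < (Ht t v v).re := by
    intro t v hv hPv
    obtain ⟨e, rfl⟩ := hPE v hPv
    rw [hHx]
    have h1 := hx t e
    have h2 : ((x t - y₀ : N1 Γ j).1 e e).re = ((x t).1 e e).re - (y₀.1 e e).re := rfl
    rw [h2, hy₀] at h1
    have h3 := R.pos _ hv
    linarith
  choose K₁ hK₁ using fun t => exists_pos_twist (hHt t) hBP.1 hP0 (hpos t)
  let K : ℕ := ∑ t, K₁ t
  have hK : ∀ t, K₁ t ≤ K := fun t => Finset.single_le_sum (fun _ _ => Nat.zero_le _)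
    (Finset.mem_univ t)
  let M₁ : LineBundle Γ := tensor (B.pow K) M₀
  have hM₁ : IsChernForm M₁ (fun v w => (K : ℂ) * P v w + HM v w) :=
    Q47.KN.chern_tensor hBP hHM K
  let N : ℕ := 4 * Nat.card (Lin Γ)
  have hN : 1 ≤ N := Nat.mul_pos (by norm_num) (card_pos R.tq)
  have hgg : ∀ t, Q47.EB.GG ((Q47.TB.tw M₁ Y.c 1 (rw' (n t))).pow N) := by
    intro t
    refine Q47.EB.ample_gg R.tq (chern_tw hM₁ Y.chern 1 (rw' (n t))) fun v hv => ?_
    have h1 := hK₁ t K (hK t) v hv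
    have h2 : (((1 : ℕ) : ℂ) * ((K : ℂ) * P v v + HM v v
        - ∑ i, (rw' (n t) i : ℂ) * Y.Hc i v v)).re = (Ht t v v).re + K * (P v v).re := by
      have h3 : ((1 : ℕ) : ℂ) * ((K : ℂ) * P v v + HM v v - ∑ i, (rw' (n t) i : ℂ) * Y.Hc i v v)
          = Ht t v v + ((K : ℝ) : ℂ) * P v v := by
        simp only [Ht]
        push_cast
        ring
      rw [h3, Complex.add_re, Complex.re_ofReal_mul]
    rw [h2]
    exact h1
  -- the weights
  have hempty : (∅ : Set (Pl Y.b s)) ∈ T1 (SS (pp Y.b s)) :=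
    ⟨(smooth_Pl Y.range).empty_mem, Set.subsingleton_empty⟩
  let t₀ : {t // t ∈ T1 (SS (pp Y.b s))} := ⟨∅, hempty⟩
  let W : {t // t ∈ T1 (SS (pp Y.b s))} → ℕ → ℕ := fun t l => ∑ y, n t y * wl y l
  have hfst : ∀ t (k : Fin s), degE Y.b s p.1 k = ((∑ I, n t ⟨k, I⟩ : ℕ) : ℝ) := by
    intro t k
    have h1 := congrArg (fun p => (Phi Y j p).1 k) (hpx t)
    simp only [Phi_fst] at h1
    rw [Nat.cast_sum]
    exact h1
  have hW : ∀ t l, W t l = W t₀ l := by
    intro t l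
    have h1 : ∀ t, W t l = ∑ k : Fin s, if l ≤ (k : ℕ) then ∑ I, n t ⟨k, I⟩ else 0 := by
      intro t
      simp only [W, wl]
      rw [Fintype.sum_sigma]
      refine Finset.sum_congr rfl fun k _ => ?_
      simp only
      split_ifs
      · simp only [mul_one]
      · simp only [mul_zero, Finset.sum_const_zero]
    rw [h1, h1]
    refine Finset.sum_congr rfl fun k _ => ?_
    have h2 : (∑ I, n t ⟨k, I⟩) = ∑ I, n t₀ ⟨k, I⟩ := by
      have h3 := (hfst t k).symm.trans (hfst t₀ k)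
      exact_mod_cast h3
    rw [h2]
  obtain ⟨xN, hxN, -⟩ := exists_int (j := j) (L := M₁.pow N)
    (h := fun e w => (N : ℂ) * ((K : ℂ) * P (j e) (j w) + HM (j e) (j w)))
    ⟨_, Q47.KN.chern_pow hM₁ N, fun _ _ => rfl⟩
  refine ⟨N, hN, fun l => N * W t₀ l, M₁.pow N, xN, ⟨_, Q47.KN.chern_pow hM₁ N, fun e w => by
    rw [hxN]⟩, ?_, ?_⟩
  · have hs0 : W t₀ s = 0 := by
      refine Finset.sum_eq_zero fun y _ => ?_
      rw [wl, if_neg (not_le.2 y.1.2), mul_zero]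
    refine Prod.ext ?_ ?_
    · funext k
      change degE Y.b s ((N : ℝ) • p.1) k
        = ((N * W t₀ k : ℕ) : ℝ) - ((N * W t₀ (k + 1) : ℕ) : ℝ)
      rw [map_smul, Pi.smul_apply, smul_eq_mul, hfst t₀ k]
      have h1 : W t₀ k = W t₀ (k + 1) + ∑ I, n t₀ ⟨k, I⟩ := by
        simp only [W]
        rw [Fintype.sum_sigma, Fintype.sum_sigma, ← Finset.add_sum_erase _ _ (Finset.mem_univ k),
          ← Finset.add_sum_erase _ (fun l : Fin s => ∑ I, n t₀ ⟨l, I⟩ * wl ⟨l, I⟩ (k + 1))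
            (Finset.mem_univ k)]
        have h2 : ∀ l ∈ Finset.univ.erase k, (∑ I, n t₀ ⟨l, I⟩ * wl (⟨l, I⟩ : Pl Y.b s) k)
            = ∑ I, n t₀ ⟨l, I⟩ * wl (⟨l, I⟩ : Pl Y.b s) (k + 1) := by
          intro l hl
          have hne : (l : ℕ) ≠ k := fun h => (Finset.mem_erase.1 hl).1 (Fin.ext h)
          refine Finset.sum_congr rfl fun I _ => ?_
          simp only [wl]
          by_cases h3 : (k : ℕ) ≤ l
          · rw [if_pos h3, if_pos (by omega)]
          · rw [if_neg h3, if_neg (by omega)]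
        rw [Finset.sum_congr rfl h2]
        have h4 : (∑ I, n t₀ ⟨k, I⟩ * wl (⟨k, I⟩ : Pl Y.b s) k) = ∑ I, n t₀ ⟨k, I⟩ := by
          refine Finset.sum_congr rfl fun I _ => ?_
          simp only [wl]
          rw [if_pos le_rfl, mul_one]
        have h5 : (∑ I, n t₀ ⟨k, I⟩ * wl (⟨k, I⟩ : Pl Y.b s) (k + 1)) = 0 := by
          refine Finset.sum_eq_zero fun I _ => ?_
          simp only [wl]
          rw [if_neg (by omega), mul_zero]
        rw [h4, h5, zero_add, add_comm]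
      rw [h1]
      push_cast
      ring
    · change (N : ℝ) • p.2 = xN - ((N * W t₀ s : ℕ) : ℝ) • ∑ i, clsE j (Y.chern i)
      rw [hs0, mul_zero, Nat.cast_zero, zero_smul, sub_zero]
      apply Subtype.ext
      funext e w
      have h1 : ((N : ℝ) • p.2 : N1 Γ j).1 e w = (N : ℝ) • p.2.1 e w := rfl
      rw [h1, hxN, hM₀]
      change (N : ℝ) • HM (j e) (j w) = (N : ℂ) * ((K : ℂ) * P (j e) (j w) + HM (j e) (j w))
      rw [hPj, mul_zero, zero_add, Complex.real_smul, Complex.ofReal_natCast]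
  · intro d L F hF ⟨v₀, g₀, hg₀, h0⟩
    obtain ⟨c, g, hg, hFg, hne⟩ := exists_pt Y.mono Y.range (zp Y.b s ⟨0, Y.pos⟩) hg₀ h0
    have hc : ({c} : Set (Pl Y.b s)) ∈ T1 (SS (pp Y.b s)) := by
      refine ⟨fun k => ?_, Set.subsingleton_singleton⟩
      by_cases h : k = pp Y.b s c
      · obtain ⟨c', h1, h2⟩ := exists_other_Pl Y.range c
        exact ⟨c', h1.trans h.symm, h2⟩
      · exact ⟨zp Y.b s k, rfl, fun h' => h (by rw [← Set.mem_singleton_iff.1 h']; rfl)⟩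
    let t : {t // t ∈ T1 (SS (pp Y.b s))} := ⟨{c}, hc⟩
    obtain ⟨σ, hσ, hσ0⟩ := hgg t v₀
    have h1 := mono_sect Y (n t) N hσ
    have h2 : (fun l => N * ∑ y, n t y * wl y l) = fun l => N * W t₀ l := by
      funext l
      rw [← hW t l]
    rw [h2] at h1
    refine ⟨_, h1, v₀, g, hg, hFg, ?_⟩
    rw [ev, map_mul, eval_C, map_pow, pm', map_prod]
    refine mul_ne_zero hσ0 (pow_ne_zero _ (Finset.prod_ne_zero_iff.2 fun y _ => ?_))
    rw [map_pow]
    by_cases hy : y = c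
    · have h3 : n t y = 0 := hn t y (by rw [hy]; rfl)
      rw [h3, pow_zero]
      exact one_ne_zero
    · exact pow_ne_zero _ (hne y hy)

end Q47.CF
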