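import Pool.Agent.Q47.CF.MovA

/-!
# The movable cone of a flag bundle
-/

set_option autoImplicit false

namespace Q47.CF

open Finset Filter Topology
open Pool.Agent.W594.SYZ2 Pool.Agent.W594.SYZ2.TQ Pool.Agent.TH735.AQ Pool.Agent.TH128.SYZ
open Pool.Agent.Y167
open Q47.TB Q47.CY MvPolynomial Q47.FL

variable {V E : Type*} [NormedAddCommGroup V] [NormedSpace ℂ V] [FiniteDimensional ℂ V]
  [NormedAddCommGroup E] [NormedSpace ℂ E] [FiniteDimensional ℂ E] {Γ : AffGrp V}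
  {j : E →ₗ[ℂ] V} {H₀ : V → V → ℂ} {q s r : ℕ} {Y : FlagBundle Γ q s}

/-- The assumptions on the base are satisfied. -/
theorem exists_Bs_flag (R : Rel Γ j H₀) (Δ : Bdry Y r) {v₀ : V} (hklt : Δ.IsKltAt v₀)
    (hCY : IsCY Δ j) : ∃ τ : Q47.MM.Refls Γ → N1 Γ j →ₗ[ℝ] ℝ,
      Bs (ug Y.b s) (intL Γ j) (nefCone Γ j) (hP Y j) τ := by
  classical
  obtain ⟨-, hkill, -⟩ := klt_main R Δ hklt hCY
  have hkill1 : ∀ e, MirrorFixed Γ (j e) → ∀ (i : Fin q) (w : V),
      Y.Hc i (j e) w = Y.Hc (z1 Y ()) (j e) w := by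
    intro e he i w
    by_cases hi : i = z1 Y ()
    · rw [hi]
    · obtain ⟨c, hc⟩ := exists_el (p1 q) (z1 Y) (y := i) hi
      have h1 := hkill e he c w
      have h2 := sum_uu (p := p1 q) (z := z1 Y) (R := ℂ) (fun i => Y.Hc i (j e) w) c
      have h3 : ∑ x, Y.Hc x (j e) w * (uu (p1 q) (z1 Y) x c : ℂ)
          = ∑ i, ((Y1 Y).u i c : ℂ) * Y.Hc i (j e) w :=
        Finset.sum_congr rfl fun _ _ => mul_comm _ _
      rw [h3, h1, hc] at h2
      exact (sub_eq_zero.1 h2.symm)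
  have hkill' : ∀ e, MirrorFixed Γ (j e) → ∀ (k : Fin (nn (pp Y.b s) (zp Y.b s))) (w : V),
      ∑ x, ((YP Y).u x k : ℂ) * (YP Y).Hc x (j e) w = 0 := by
    intro e he k w
    have h2 := sum_uu (p := pp Y.b s) (z := zp Y.b s) (R := ℂ)
      (fun x => ∑ i ∈ x.2.1, Y.Hc i (j e) w) k
    have h3 : ∑ x : Pl Y.b s, (∑ i ∈ x.2.1, Y.Hc i (j e) w) * (uu (pp Y.b s) (zp Y.b s) x k : ℂ)
        = ∑ x, ((YP Y).u x k : ℂ) * (YP Y).Hc x (j e) w :=
      Finset.sum_congr rfl fun _ _ => mul_comm _ _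
    rw [← h3, h2]
    have h4 : ∀ x : Pl Y.b s, ∑ i ∈ x.2.1, Y.Hc i (j e) w
        = ((blk Y.b x.1).card : ℂ) * Y.Hc (z1 Y ()) (j e) w := by
      intro x
      rw [Finset.sum_congr rfl fun i _ => hkill1 e he i w, Finset.sum_const, nsmul_eq_mul, x.2.2]
    rw [h4, h4, sub_eq_zero]
    rfl
  obtain ⟨τ, B₁⟩ := exists_Bs (u := (YP Y).u) R (YP Y).chern fun e he k => hkill' e he k (j e)
  exact ⟨τ, B₁⟩

/-- The cone spanned by the classes of movable line bundles. -/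
def mov0 (Y : FlagBundle Γ q s) (j : E →ₗ[ℂ] V) : Set (NP Γ j s) :=
  {p | ∃ A : Finset (NP Γ j s), (∀ a ∈ A, ∃ (t : ℕ → ℕ) (M : LineBundle Γ) (x : N1 Γ j),
    IsClass j M x.1 ∧ a = clP Y j (fun k => t k) x ∧ IsMovable Y t M) ∧ p ∈ cone A}

omit [FiniteDimensional ℂ V] [FiniteDimensional ℂ E] in
theorem mov0_add {p p' : NP Γ j s} (hp : p ∈ mov0 Y j) (hp' : p' ∈ mov0 Y j) :
    p + p' ∈ mov0 Y j := by
  classical
  obtain ⟨A, hA, h1⟩ := hp
  obtain ⟨B, hB, h2⟩ := hp'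
  refine ⟨A ∪ B, fun a ha => ?_, cone_add (cone_mono Finset.subset_union_left h1)
    (cone_mono Finset.subset_union_right h2)⟩
  rcases Finset.mem_union.1 ha with h | h
  · exact hA a h
  · exact hB a h

omit [FiniteDimensional ℂ V] [FiniteDimensional ℂ E] in
theorem mov0_smul {p : NP Γ j s} (hp : p ∈ mov0 Y j) {t : ℝ} (ht : 0 ≤ t) :
    t • p ∈ mov0 Y j := by
  obtain ⟨A, hA, h1⟩ := hp
  exact ⟨A, hA, cone_smul h1 ht⟩

omit [FiniteDimensional ℂ V] [FiniteDimensional ℂ E] in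
theorem mov0_zero : (0 : NP Γ j s) ∈ mov0 Y j := ⟨∅, by simp, zero_mem_cone _⟩

omit [FiniteDimensional ℂ V] [FiniteDimensional ℂ E] in
theorem Phi_cont : Continuous (Phi Y j) :=
  ((degE_cont Y.b s).comp continuous_fst).prodMk continuous_snd

omit [FiniteDimensional ℂ V] [FiniteDimensional ℂ E] in
theorem Phi_symm_cont : Continuous (Phi Y j).symm :=
  ((degE_symm_cont Y.b s).comp continuous_fst).prodMk continuous_snd

/-- **The movable cone of `Y` over `Z`.** -/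
theorem mov_iff (R : Rel Γ j H₀) (Δ : Bdry Y r) {v₀ : V} (hklt : Δ.IsKltAt v₀)
    (hCY : IsCY Δ j) (p : Cl (ug Y.b s) × N1 Γ j) :
    Phi Y j p ∈ closure (mov0 Y j) ∩ effP Y j ↔
      p ∈ NF (ug Y.b s) (nefCone Γ j) (hP Y j) (T1 (SS (pp Y.b s))) ∩
        CT (ug Y.b s) (Cp (intL Γ j) (nefCone Γ j)) (hP Y j) ∅ := by
  classical
  have := finite_Lin R.tq
  have hT : T1 (SS (pp Y.b s)) ⊆ SS (pp Y.b s) := fun t ht => ht.1
  have hT0 : (T1 (SS (pp Y.b s))).Nonempty :=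
    ⟨∅, (smooth_Pl Y.range).empty_mem, Set.subsingleton_empty⟩
  constructor
  · rintro ⟨hp, hpe⟩
    refine ⟨?_, (eff_iff R p).1 hpe⟩
    have hcl : IsClosed (NF (YP Y).u (nefCone Γ j) ((YP Y).h j) (T1 (SS (pp Y.b s))) :
        Set (Q47.CY.NY (YP Y) j)) := NF_isClosed (Y := YP Y) R hT hT0
    have hcl' : IsClosed {x : NP Γ j s | (Phi Y j).symm x ∈
        NF (ug Y.b s) (nefCone Γ j) (hP Y j) (T1 (SS (pp Y.b s)))} :=
      hcl.preimage (Phi_symm_cont (Y := Y) (j := j))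
    have h1 : closure (mov0 Y j) ⊆ {x : NP Γ j s | (Phi Y j).symm x ∈
        NF (ug Y.b s) (nefCone Γ j) (hP Y j) (T1 (SS (pp Y.b s)))} := by
      refine closure_minimal ?_ hcl'
      rintro x ⟨A, hA, hx⟩
      have hnef0 : (0 : N1 Γ j) ∈ nefCone Γ j := fun u => by
        change 0 ≤ (0 : ℂ).re
        exact le_rfl
      refine cone_ind (p := fun x => (Phi Y j).symm x ∈
        NF (ug Y.b s) (nefCone Γ j) (hP Y j) (T1 (SS (pp Y.b s)))) ?_
        (fun x y hx hy => ?_) (fun t x ht hx => ?_) ?_ hx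
      · rw [map_zero]
        exact fun t _ => ⟨0, fun i => le_rfl, fun i _ => rfl, 0, hnef0,
          by rw [map_zero, map_zero, add_zero]⟩
      · rw [map_add]
        exact NF_add (fun _ hx _ hy => nef_add hx hy) hx hy
      · rw [map_smul]
        refine NF_smul ?_ ht hx
        intro s hs x hx
        exact nef_smul hs hx
      · intro a ha
        obtain ⟨t, M, x, h1, rfl, h2⟩ := hA a ha
        exact NF_of_movable R h1 h2
    have h2 := h1 hp
    change (Phi Y j).symm (Phi Y j p) ∈ NF (ug Y.b s) (nefCone Γ j) (hP Y j)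
      (T1 (SS (pp Y.b s))) at h2
    rwa [LinearEquiv.symm_apply_apply] at h2
  · rintro ⟨hp, hpe⟩
    refine ⟨?_, (eff_iff R p).2 hpe⟩
    have hadd : ∀ x ∈ closure (mov0 Y j), ∀ y ∈ closure (mov0 Y j),
        x + y ∈ closure (mov0 Y j) := fun x hx y hy =>
      map_mem_closure₂ continuous_add hx hy fun a ha b hb => mov0_add ha hb
    have hsmul : ∀ t : ℝ, 0 ≤ t → ∀ x ∈ closure (mov0 Y j), t • x ∈ closure (mov0 Y j) :=
      fun t ht x hx => map_mem_closure (continuous_const_smul t) hx fun a ha => mov0_smul ha ht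
    obtain ⟨τ, B⟩ := exists_Bs_flag R Δ hklt hCY
    let _ : Fintype (Q47.MM.Refls Γ) := Fintype.ofFinite _
    obtain ⟨ξ₀, y₀, Y₀, D, hy₀, -⟩ := cover R one_pos
    obtain ⟨A, hA, hpA⟩ := (Cp_eq (smooth_Pl Y.range) B D hT0 p).2 ⟨hp, hpe⟩
    obtain ⟨d, hd⟩ := ample_Pl Y.b s
    obtain ⟨y', hy'L, hy'⟩ := exists_int_pt B.h_mem D hd
    refine cone_ind (p := fun x => Phi Y j x ∈ closure (mov0 Y j)) ?_ ?_ ?_ ?_ hpA
    · rw [map_zero]
      exact subset_closure mov0_zero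
    · intro x y hx hy
      rw [map_add]
      exact hadd _ hx _ hy
    · intro t x ht hx
      rw [map_smul]
      exact hsmul t ht _ hx
    intro a ha
    obtain ⟨haL, haN⟩ := hA a ha
    have hfin : Finite {t // t ∈ T1 (SS (pp Y.b s))} := inferInstance
    let _ : Fintype {t // t ∈ T1 (SS (pp Y.b s))} := Fintype.ofFinite _
    choose k β x hk hβ hxL hxn hkx using fun t : {t // t ∈ T1 (SS (pp Y.b s))} =>
      exists_rat (smooth_Pl Y.range) B D haL (haN t.1 t.2)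
    let K : ℕ := ∏ t, k t
    have hK : 1 ≤ K := Nat.succ_le_of_lt (Finset.prod_pos fun t _ => hk t)
    have hKr : (0 : ℝ) < K := by exact_mod_cast hK
    -- the approximations
    have key : ∀ m : ℕ, Phi Y j ((m : ℝ) • (K : ℝ) • a + y') ∈ mov0 Y j := by
      intro m
      have h1 : (m : ℝ) • (K : ℝ) • a + y' ∈ LY (ug Y.b s) (intL Γ j) := by
        rw [smul_smul]
        have : (m : ℝ) * K = ((m * K : ℕ) : ℝ) := by push_cast; rfl
        rw [this, Nat.cast_smul_eq_nsmul]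
        exact (LY (ug Y.b s) (intL Γ j)).add_mem
          ((LY (ug Y.b s) (intL Γ j)).nsmul_mem haL _) hy'L
      obtain ⟨N, hN, t', M', x', h2, h3, h4⟩ := movable_class R
        (p := (m : ℝ) • (K : ℝ) • a + y') h1 hy₀ (by
        intro t ht
        obtain ⟨b, z, hb, -, hzn, hyb⟩ := hy' t ht.1
        let t' : {t // t ∈ T1 (SS (pp Y.b s))} := ⟨t, ht⟩
        have hKk : ∃ c : ℕ, K = c * k t' := ⟨∏ s ∈ Finset.univ.erase t', k s, by
          simp only [K]
          rw [Finset.prod_erase_mul _ _ (Finset.mem_univ t')]⟩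
        obtain ⟨c, hc⟩ := hKk
        refine ⟨fun i => m * (c * β t' i) + b i, (m : ℝ) • (c : ℝ) • x t' + z, fun i hi => ?_, ?_, ?_⟩
        · change m * (c * β t' i) + b i = 0
          rw [hb i hi, hβ t' i hi, mul_zero, mul_zero]
        · rw [add_sub_assoc]
          exact nef_add (nef_smul (Nat.cast_nonneg _) (nef_smul (Nat.cast_nonneg _) (hxn t'))) hzn
        · have h4 : (K : ℝ) • a = (c : ℝ) • (dv (ug Y.b s) (hP Y j) (fun i => (β t' i : ℝ))
              + lft (ug Y.b s) (x t')) := by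
            have h9 := hkx t'
            rw [hc, Nat.cast_mul, mul_smul]
            exact congrArg (fun z => (c : ℝ) • z) h9
          have h5 : (fun i => ((m * (c * β t' i) + b i : ℕ) : ℝ))
              = (m : ℝ) • (c : ℝ) • (fun i => (β t' i : ℝ)) + fun i => (b i : ℝ) := by
            ext i
            simp only [Pi.add_apply, Pi.smul_apply, smul_eq_mul]
            push_cast
            ring
          have hyb' : y' = dv (ug Y.b s) (hP Y j) (fun i => (b i : ℝ)) + lft (ug Y.b s) z := hyb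
          rw [h4, hyb', h5]
          simp only [map_add, map_smul, smul_add]
          abel)
      have hNr : (0 : ℝ) < N := by exact_mod_cast hN
      have h5 : (m : ℝ) • (K : ℝ) • a + y'
          = (N : ℝ)⁻¹ • ((N : ℝ) • ((m : ℝ) • (K : ℝ) • a + y')) :=
        (inv_smul_smul₀ hNr.ne' _).symm
      rw [h5, map_smul]
      refine mov0_smul ⟨{Phi Y j ((N : ℝ) • ((m : ℝ) • (K : ℝ) • a + y'))}, fun b hb => ?_,
        mem_cone_self (Finset.mem_singleton_self _)⟩ (inv_nonneg.2 hNr.le)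
      rw [Finset.mem_singleton.1 hb]
      exact ⟨t', M', x', h2, h3, h4⟩
    have hlim : Tendsto (fun m : ℕ => Phi Y j a + (1 / ((m : ℝ) + 1)) •
        ((K : ℝ)⁻¹ • Phi Y j y')) atTop (𝓝 (Phi Y j a)) := by
      have h1 : Tendsto (fun m : ℕ => Phi Y j a + (1 / ((m : ℝ) + 1)) •
          ((K : ℝ)⁻¹ • Phi Y j y')) atTop (𝓝 (Phi Y j a + (0 : ℝ) • ((K : ℝ)⁻¹ • Phi Y j y'))) :=
        tendsto_const_nhds.add (tendsto_one_div_add_atTop_nhds_zero_nat.smul_const _)
      rwa [zero_smul, add_zero] at h1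
    refine mem_closure_of_tendsto hlim (Eventually.of_forall fun m => ?_)
    have hmr : (0 : ℝ) < (m : ℝ) + 1 := by positivity
    have h1 : Phi Y j a + (1 / ((m : ℝ) + 1)) • ((K : ℝ)⁻¹ • Phi Y j y')
        = (((m : ℝ) + 1)⁻¹ * (K : ℝ)⁻¹) •
          Phi Y j (((m + 1 : ℕ) : ℝ) • (K : ℝ) • a + y') := by
      rw [map_add, map_smul, map_smul, smul_add, smul_smul, smul_smul, smul_smul, one_div]
      congr 1
      rw [Nat.cast_add, Nat.cast_one]
      have : ((m : ℝ) + 1)⁻¹ * (K : ℝ)⁻¹ * ((m : ℝ) + 1) * K = 1 := by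
        field_simp
      rw [this, one_smul]
    rw [h1]
    exact mov0_smul (key _) (by positivity)

end Q47.CF
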