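import Pool.Agent.Q47.CF.St

/-!
# Movable cones of flag bundles over quotients of complex tori: definitions
-/

set_option autoImplicit false

namespace Q47.CF

open Pool.Agent.W594.SYZ2 Pool.Agent.TH735.AQ Q47.FL MvPolynomial
open Pool.Agent.Y167 (AffGrp IsClass)
open Pool.Agent.Y167.CC (N1 form)
open Q47.CP (hull)

variable {V E : Type*} [NormedAddCommGroup V] [NormedSpace ℂ V] [NormedAddCommGroup E]
  [NormedSpace ℂ E] {Γ : AffGrp V} {q s : ℕ}

/-- The base locus of `O_Y(t; M)` has codimension at least `2`: it contains no nonempty divisor. Here
`F` is a section of any line bundle `O_Y(d; L)` with a zero on `Y`, and there is a section `G` of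
`O_Y(t; M)` which is not zero at all zeros of `F`. (`F = 0` is allowed. A multiple of a prime divisor
on `Y` is the divisor of a section of a line bundle, since the singularities of `Y` are quotient
singularities. All line bundles on `Y` are of the form `O_Y(d; L)`, where one can take `d ≥ 0` since
the determinant is a section without zeros of `O_Y(1, ..., 1; ⊗ c_i)`, and then all sections are
polynomials in `g`.) -/
def IsMovable (Y : FlagBundle Γ q s) (t : ℕ → ℕ) (M : LineBundle Γ) : Prop :=
  ∀ (d : ℕ → ℕ) (L : LineBundle Γ) (F : V → MvPolynomial (Fin q × Fin q) ℂ),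
    IsSection Y.b Y.c d L.e F → (∃ v g, g.det ≠ 0 ∧ ev g (F v) = 0) →
      ∃ G, IsSection Y.b Y.c t M.e G ∧ ∃ v g, g.det ≠ 0 ∧ ev g (F v) = 0 ∧ ev g (G v) ≠ 0

/-- The closed movable cone `Mov(Y/Z)`: the closure of the convex cone spanned by the classes in
`N^1(Y/Z)` of the line bundles whose base locus has codimension at least `2`. (`Z` is projective. If
the base locus relative to `Z` of a line bundle has codimension at least `2`, then so has the base
locus of its tensor product with the pullback of a sufficiently ample line bundle on `Z`, which has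
the same class.) -/
def movY (Y : FlagBundle Γ q s) (j : E →ₗ[ℂ] V) : Set (NY Y j) :=
  closure (hull {p | ∃ (t : ℕ → ℕ) (M : LineBundle Γ) (x : N1 Γ j), IsClass j M (form x) ∧
    p = cl Y j (fun k => t k) x ∧ IsMovable Y t M})

end Q47.CF
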