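import Pool.Agent.Q47.CF.RadoD
import Pool.Agent.Q47.CF.MainT
import Pool.Agent.Q47.CF.StM

/-!
# Sections given by products of Plücker coordinates
-/

set_option autoImplicit false

namespace Q47.CF

open Finset
open Pool.Agent.W594.SYZ2 Pool.Agent.W594.SYZ2.TQ Pool.Agent.TH735.AQ
open Pool.Agent.Y167
open Q47.TB Q47.CY MvPolynomial Q47.FL

variable {V E : Type*} [NormedAddCommGroup V] [NormedSpace ℂ V]
  [NormedAddCommGroup E] [NormedSpace ℂ E] {Γ : Subgroup (V ≃ᵃ[ℂ] V)}
  {j : E →ₗ[ℂ] V} {H₀ : V → V → ℂ} {q s r : ℕ} {Y : FlagBundle Γ q s} {b : Fin q → ℕ}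

theorem semi_mul {d d' : ℕ → ℕ} {F F' : MvPolynomial (Fin q × Fin q) ℂ}
    (h : IsSemiInvariant b d F) (h' : IsSemiInvariant b d' F') :
    IsSemiInvariant b (fun l => d l + d' l) (F * F') := by
  refine ⟨fun g j t => ?_, fun g j k t hjk hb => ?_⟩
  · have h1 := h.scale g j t
    have h2 := h'.scale g j t
    rw [ev] at h1 h2 ⊢
    rw [map_mul, h1, h2, ev, ev, ev, map_mul, pow_add]
    ring
  · have h1 := h.shear g j k t hjk hb
    have h2 := h'.shear g j k t hjk hb
    rw [ev] at h1 h2 ⊢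
    rw [map_mul, h1, h2, ev, ev, ev, map_mul]

theorem semi_one : IsSemiInvariant b (fun _ => 0) (1 : MvPolynomial (Fin q × Fin q) ℂ) := by
  refine ⟨fun g j t => ?_, fun g j k t hjk hb => ?_⟩
  · rw [ev, ev, map_one, map_one, pow_zero, one_mul]
  · rw [ev, ev, map_one, map_one]

theorem semi_pow {d : ℕ → ℕ} {F : MvPolynomial (Fin q × Fin q) ℂ}
    (h : IsSemiInvariant b d F) (n : ℕ) : IsSemiInvariant b (fun l => n * d l) (F ^ n) := by
  induction n with
  | zero =>
    rw [pow_zero]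
    have h1 : (fun l => 0 * d l) = fun _ => 0 := by
      funext l
      rw [zero_mul]
    rw [h1]
    exact semi_one
  | succ n ih =>
    rw [pow_succ]
    have h1 : (fun l => (n + 1) * d l) = fun l => n * d l + d l := by
      funext l
      ring
    rw [h1]
    exact semi_mul ih h

theorem semi_prod {ι : Type*} (S : Finset ι) {d : ι → ℕ → ℕ}
    {F : ι → MvPolynomial (Fin q × Fin q) ℂ} (h : ∀ i ∈ S, IsSemiInvariant b (d i) (F i)) :
    IsSemiInvariant b (fun l => ∑ i ∈ S, d i l) (∏ i ∈ S, F i) := by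
  classical
  induction S using Finset.induction_on with
  | empty =>
    simp only [Finset.sum_empty, Finset.prod_empty]
    exact semi_one
  | insert i S hi ih =>
    rw [Finset.prod_insert hi]
    have h1 : (fun l => ∑ i ∈ insert i S, d i l) = fun l => d i l + ∑ i ∈ S, d i l := by
      funext l
      rw [Finset.sum_insert hi]
    rw [h1]
    exact semi_mul (h i (Finset.mem_insert_self i S)) (ih fun i' hi' =>
      h i' (Finset.mem_insert_of_mem hi'))

/-- The weight of a Plücker coordinate. -/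
def wl (z : Pl b s) (l : ℕ) : ℕ := if l ≤ (z.1 : ℕ) then 1 else 0

theorem pl_semi (hb : Monotone b) (z : Pl b s) : IsSemiInvariant b (wl z) (pl z) := by
  refine ⟨fun g j t => ?_, fun g j k t hjk hbjk => ?_⟩
  · rw [pl, ev_mn, ev_mn, mnv_scale]
    congr 1
    by_cases h : b j ≤ (z.1 : ℕ)
    · rw [if_pos ((blk_ini hb _).2 (mem_blk.2 h)), wl, if_pos h, pow_one]
    · rw [if_neg fun h' => h (mem_blk.1 ((blk_ini hb _).1 h')), wl, if_neg h, pow_zero]
  · rw [pl, ev_mn, ev_mn]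
    refine mnv_shear _ _ _ t hjk fun h => ?_
    have h1 := mem_blk.1 ((blk_ini hb _).1 h)
    exact (blk_ini hb _).2 (mem_blk.2 (hbjk.trans h1))

theorem pl_left (hb : Monotone b) (z : Pl b s) (c : Fin q → ℂ) (g : Matrix (Fin q) (Fin q) ℂ) :
    ev (Matrix.of fun i j => c i * g i j) (pl z) = (∏ i ∈ z.2.1, c i) * ev g (pl z) := by
  rw [pl, ev_mn, ev_mn, mnv_left]
  congr 1
  have h1 : ∏ i : {i : Fin q // (i : ℕ) < (blk b z.1).card}, c (wy z i)
      = ∏ i ∈ blk b z.1, c (wy z i) := by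
    rw [Finset.prod_subtype (p := fun i : Fin q => (i : ℕ) < (blk b z.1).card) (blk b z.1)
      (fun i => (blk_ini hb _).symm) fun i => c (wy z i)]
  rw [h1, ← wy_spec z, Finset.prod_map]
  rfl

/-- Plücker coordinates are sections. -/
theorem pl_sect (Y : FlagBundle Γ q s) (z : Pl Y.b s) :
    FL.IsSection Y.b Y.c (wl z) (tp Y.c z.2.1).e fun _ => pl z :=
  ⟨fun _ => differentiable_const _, fun _ => pl_semi Y.mono z, fun γ v g =>
    pl_left Y.mono z (fun i => (Y.c i).e γ v) g⟩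

/-- Plücker coordinates have zeros. -/
theorem pl_zero (hb : Monotone b) (hr : ∀ k, (∃ i, b i = k) ↔ k ≤ s) (z : Pl b s) :
    ∃ g : Matrix (Fin q) (Fin q) ℂ, g.det ≠ 0 ∧ ev g (pl z) = 0 := by
  classical
  obtain ⟨⟨k, I⟩, h1, h2⟩ := exists_other_Pl hr z
  have hk : k = z.1 := h1
  subst hk
  have hI : I.1 ≠ z.2.1 := fun h => h2 (by rw [Subtype.ext h])
  refine ⟨pm (wy ⟨z.1, I⟩), pm_det _, ?_⟩
  rw [pl, ev_mn, mnv]
  -- a row of the minor vanishes
  have h3 : ¬ z.2.1 ⊆ I.1 := fun h => hI (Finset.eq_of_subset_of_card_le h (by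
    rw [I.2, z.2.2])).symm
  obtain ⟨i, hi, hiI⟩ := Finset.not_subset.1 h3
  have h4 : ((wy z).symm i : ℕ) < (blk b z.1).card := (mem_wy hb z i).2 hi
  refine Matrix.det_eq_zero_of_row_eq_zero ⟨(wy z).symm i, h4⟩ fun l => ?_
  rw [Matrix.of_apply, pm, Matrix.of_apply]
  refine if_neg fun h => hiI ?_
  change wy z ((wy z).symm i) = _ at h
  rw [Equiv.apply_symm_apply] at h
  have h5 := wy_spec (⟨z.1, I⟩ : Pl b s)
  rw [← h5, h]
  exact Finset.mem_map_of_mem _ ((blk_ini hb _).1 l.2)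

/-- The product of powers of Plücker coordinates. -/
noncomputable def pm' (n : Pl b s → ℕ) : MvPolynomial (Fin q × Fin q) ℂ := ∏ y, pl y ^ n y

theorem pm'_semi (hb : Monotone b) (n : Pl b s → ℕ) :
    IsSemiInvariant b (fun l => ∑ y, n y * wl y l) (pm' n) :=
  semi_prod _ fun y _ => semi_pow (pl_semi hb y) (n y)

/-- The row degrees of a product of Plücker coordinates. -/
def rw' (n : Pl b s → ℕ) (i : Fin q) : ℕ := ∑ y : Pl b s, if i ∈ y.2.1 then n y else 0

theorem pm'_left (hb : Monotone b) (n : Pl b s → ℕ) (c : Fin q → ℂ)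
    (g : Matrix (Fin q) (Fin q) ℂ) :
    ev (Matrix.of fun i j => c i * g i j) (pm' n) = (∏ i, c i ^ rw' n i) * ev g (pm' n) := by
  classical
  rw [pm', ev, ev, map_prod, map_prod]
  simp only [map_pow]
  have h1 : ∀ y : Pl b s, eval (fun x : Fin q × Fin q => (Matrix.of fun i j => c i * g i j :
      Matrix (Fin q) (Fin q) ℂ) x.1 x.2) (pl y) ^ n y
      = (∏ i, c i ^ (if i ∈ y.2.1 then n y else 0)) *
        eval (fun x : Fin q × Fin q => g x.1 x.2) (pl y) ^ n y := by
    intro y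
    have h2 := pl_left hb y c g
    rw [ev, ev] at h2
    rw [h2, mul_pow, ← Finset.prod_pow]
    congr 1
    rw [← Finset.prod_subset (Finset.subset_univ y.2.1)]
    · refine Finset.prod_congr rfl fun i hi => ?_
      rw [if_pos hi]
    · intro i _ hi
      rw [if_neg hi, pow_zero]
  rw [Finset.prod_congr rfl fun y _ => h1 y, Finset.prod_mul_distrib, Finset.prod_comm]
  congr 1
  refine Finset.prod_congr rfl fun i _ => ?_
  rw [Finset.prod_pow_eq_pow_sum]
  rfl

/-- Products of sections of line bundles on `X` and of Plücker coordinates. -/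
theorem mono_sect (Y : FlagBundle Γ q s) {M : LineBundle Γ} (n : Pl Y.b s → ℕ) (N : ℕ)
    {σ : V → ℂ} (hσ : ((Q47.TB.tw M Y.c 1 (rw' n)).pow N).IsSection σ) :
    FL.IsSection Y.b Y.c (fun l => N * ∑ y, n y * wl y l) (M.pow N).e
      fun v => C (σ v) * pm' n ^ N := by
  refine ⟨fun α => ?_, fun v => ?_, fun γ v g => ?_⟩
  · simp only [coeff_C_mul]
    exact hσ.holo.mul_const _
  · have h1 := semi_pow (pm'_semi Y.mono n) N
    refine ⟨fun g j t => ?_, fun g j k t hjk hb => ?_⟩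
    · have h2 := h1.scale g j t
      rw [ev] at h2 ⊢
      rw [map_mul, h2, ev, ev, map_mul, eval_C, eval_C]
      ring
    · have h2 := h1.shear g j k t hjk hb
      rw [ev] at h2 ⊢
      rw [map_mul, h2, ev, ev, map_mul, eval_C, eval_C]
  · have h1 := pm'_left Y.mono n (fun i => (Y.c i).e γ v) g
    rw [ev, ev] at h1
    rw [ev, ev, map_mul, map_mul, map_pow, map_pow, eval_C, eval_C, h1, hσ.eq γ v]
    have h2 : (∏ i, (Y.c i).e γ v ^ rw' n i) ≠ 0 :=
      Finset.prod_ne_zero_iff.2 fun i _ => pow_ne_zero _ ((Y.c i).ne_zero γ v)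
    change (M.e γ v ^ 1 * (∏ i, (Y.c i).e γ v ^ (1 * rw' n i))⁻¹) ^ N * σ v * _ =
      M.e γ v ^ N * _
    simp only [one_mul, pow_one]
    rw [mul_pow, inv_pow, mul_pow]
    field_simp

end Q47.CF
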