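import Pool.Agent.Q47.CF.Lift

/-!
# The Plücker coordinates of a flag bundle
-/

set_option autoImplicit false

namespace Q47.CF

open Finset
open Pool.Agent.W594.SYZ2 Pool.Agent.W594.SYZ2.TQ Pool.Agent.TH735.AQ
open Pool.Agent.Y167
open Q47.TB Q47.CY MvPolynomial Q47.FL

variable {V E : Type*} [NormedAddCommGroup V] [NormedSpace ℂ V]
  [NormedAddCommGroup E] [NormedSpace ℂ E] {Γ : Subgroup (V ≃ᵃ[ℂ] V)}
  {j : E →ₗ[ℂ] V} {H₀ : V → V → ℂ} {q s r : ℕ}

/-- The tensor product of the line bundles `c i`, `i ∈ I`. -/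
def tp (c : Fin q → LineBundle Γ) (I : Finset (Fin q)) : LineBundle Γ where
  e := fun γ v => ∏ i ∈ I, (c i).e γ v
  holo := fun γ => by
    exact Q47.TB.prod_diff I (fun i v => (c i).e γ v) fun i => (c i).holo γ
  ne_zero := fun γ v => Finset.prod_ne_zero_iff.2 fun i _ => (c i).ne_zero γ v
  mul := fun γ δ v => by
    rw [← Finset.prod_mul_distrib]
    exact Finset.prod_congr rfl fun i _ => (c i).mul γ δ v
  stab := fun γ v h => Finset.prod_eq_one fun i _ => (c i).stab γ v h

theorem chern_tp {c : Fin q → LineBundle Γ} {Hc : Fin q → V → V → ℂ}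
    (hc : ∀ i, IsChernForm (c i) (Hc i)) (I : Finset (Fin q)) :
    IsChernForm (tp c I) fun v w => ∑ i ∈ I, Hc i v w := by
  choose hH F hF hFe using hc
  refine ⟨⟨fun u v w => ?_, fun a v w => ?_, fun v w => ?_⟩, fun v => ∑ i ∈ I, F i v,
    Differentiable.fun_sum fun i _ => hF i, fun γ v => ?_⟩
  · rw [← Finset.sum_add_distrib]
    exact Finset.sum_congr rfl fun i _ => (hH i).add_left u v w
  · rw [Finset.mul_sum]
    exact Finset.sum_congr rfl fun i _ => (hH i).smul_left a v w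
  · rw [map_sum]
    exact Finset.sum_congr rfl fun i _ => (hH i).symm v w
  · change ‖∏ i ∈ I, (c i).e γ v‖ ^ 2 = _
    rw [norm_prod, ← Finset.prod_pow, Finset.prod_congr rfl fun i _ => hFe i γ v, ← Real.exp_sum]
    congr 1
    simp only [Complex.re_sum, Finset.mul_sum, Finset.sum_add_distrib, Finset.sum_sub_distrib]

/-- The index of the step of a Plücker coordinate. -/
def pp (b : Fin q → ℕ) (s : ℕ) : Pl b s → Fin s := Sigma.fst

/-- The base point of the Plücker coordinates. -/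
def zp (b : Fin q → ℕ) (s : ℕ) : Fin s → Pl b s := fun k => ⟨k, ⟨blk b k, rfl⟩⟩

theorem exists_other_Pl {b : Fin q → ℕ} (hr : ∀ k, (∃ i, b i = k) ↔ k ≤ s) (x : Pl b s) :
    ∃ x', pp b s x' = pp b s x ∧ x' ≠ x := by
  classical
  obtain ⟨k, I, hI⟩ := x
  obtain ⟨i₀, h0⟩ := (hr 0).2 (Nat.zero_le _)
  obtain ⟨i₁, h1⟩ := (hr s).2 le_rfl
  have hI0 : I.Nonempty := by
    rw [← Finset.card_pos, hI, Finset.card_pos]
    exact ⟨i₀, mem_blk.2 (by rw [h0]; exact Nat.zero_le _)⟩
  have hI1 : I ≠ Finset.univ := by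
    intro h
    rw [h] at hI
    have h2 : blk b k = Finset.univ := Finset.eq_univ_of_card _ (by rw [← hI, Finset.card_univ])
    have h3 : i₁ ∈ blk b k := h2 ▸ Finset.mem_univ i₁
    have h4 := mem_blk.1 h3
    rw [h1] at h4
    exact absurd k.2 (not_lt.2 h4)
  obtain ⟨a, ha⟩ := hI0
  obtain ⟨a', ha'⟩ : ∃ a', a' ∉ I := by
    by_contra h
    push Not at h
    exact hI1 (Finset.eq_univ_iff_forall.2 h)
  refine ⟨⟨k, ⟨insert a' (I.erase a), ?_⟩⟩, rfl, fun h => ?_⟩
  · rw [Finset.card_insert_of_notMem fun h => ha' (Finset.mem_of_mem_erase h),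
      Finset.card_erase_of_mem ha, ← hI]
    have : 0 < I.card := Finset.card_pos.2 ⟨a, ha⟩
    omega
  · have h2 := eq_of_heq (Sigma.mk.inj_iff.1 h).2
    have h3 : insert a' (I.erase a) = I := congrArg Subtype.val h2
    exact ha' (h3 ▸ Finset.mem_insert_self _ _)

/-- The rays of the fan of the product of the projective bundles of the exterior powers. -/
noncomputable def ug (b : Fin q → ℕ) (s : ℕ) : Pl b s → Fin (nn (pp b s) (zp b s)) → ℤ :=
  uu (pp b s) (zp b s)

theorem smooth_Pl {b : Fin q → ℕ} (hr : ∀ k, (∃ i, b i = k) ↔ k ≤ s) :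
    IsSmoothFan (ug b s) (SS (pp b s)) := smooth (fun _ => rfl) (exists_other_Pl hr)

theorem ample_Pl (b : Fin q → ℕ) (s : ℕ) : ∃ d, Q47.AL.IsFibreAmple (ug b s) (SS (pp b s)) d :=
  ⟨_, ample fun _ => rfl⟩

/-- The class on the fibres. -/
theorem cls_iff {b : Fin q → ℕ} {β β' : Pl b s → ℝ} :
    cls (ug b s) β = cls (ug b s) β' ↔ ∀ k, ∑ I, β ⟨k, I⟩ = ∑ I, β' ⟨k, I⟩ := by
  rw [cls_eq]
  have h1 := sum_char (p := pp b s) (z := zp b s) (fun _ => rfl) fun x => β x - β' x
  have h2 : ∀ (f : Pl b s → ℝ) (k : Fin s), ∑ x with pp b s x = k, f x = ∑ I, f ⟨k, I⟩ := by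
    intro f k
    rw [Finset.sum_filter, Fintype.sum_sigma, Finset.sum_eq_single k]
    · exact Finset.sum_congr rfl fun I _ => if_pos rfl
    · intro k' _ hk'
      exact Finset.sum_eq_zero fun I _ => if_neg hk'
    · intro h
      exact absurd (Finset.mem_univ k) h
  simp only [h2, Finset.sum_sub_distrib, sub_eq_zero] at h1
  rw [← h1]
  constructor
  · rintro ⟨m, hm⟩
    refine ⟨m, fun x => ?_⟩
    rw [hm, Pi.add_apply, add_sub_cancel_left, chr_apply]
    rfl
  · rintro ⟨m, hm⟩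
    refine ⟨m, ?_⟩
    ext x
    rw [Pi.add_apply, chr_apply]
    have := hm x
    change β x = β' x + ∑ k, m k * (uu (pp b s) (zp b s) x k : ℝ)
    linarith

/-- The degrees. -/
noncomputable def degL (b : Fin q → ℕ) (s : ℕ) : (Pl b s → ℝ) →ₗ[ℝ] (Fin s → ℝ) where
  toFun β := fun k => ∑ I, β ⟨k, I⟩
  map_add' β β' := by
    ext k
    simp only [Pi.add_apply, Finset.sum_add_distrib]
  map_smul' t β := by
    ext k
    simp only [Pi.smul_apply, smul_eq_mul, RingHom.id_apply, Finset.mul_sum]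

/-- The divisor with the given degrees. -/
noncomputable def secL (b : Fin q → ℕ) (s : ℕ) : (Fin s → ℝ) →ₗ[ℝ] (Pl b s → ℝ) where
  toFun a := fun x => if x = zp b s x.1 then a x.1 else 0
  map_add' a a' := by
    ext x
    simp only [Pi.add_apply]
    split_ifs
    · rfl
    · rw [add_zero]
  map_smul' t a := by
    ext x
    simp only [Pi.smul_apply, smul_eq_mul, RingHom.id_apply]
    split_ifs
    · rfl
    · rw [mul_zero]

theorem deg_sec {b : Fin q → ℕ} (a : Fin s → ℝ) : degL b s (secL b s a) = a := by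
  classical
  funext k
  change ∑ I, (if (⟨k, I⟩ : Pl b s) = zp b s k then a k else 0) = a k
  rw [Finset.sum_eq_single ⟨blk b k, rfl⟩]
  · exact if_pos rfl
  · intro I _ hI
    refine if_neg fun h => hI ?_
    exact eq_of_heq (Sigma.mk.inj_iff.1 h).2
  · intro h
    exact absurd (Finset.mem_univ _) h

/-- The space of the classes of divisors on the fibres. -/
noncomputable def degE (b : Fin q → ℕ) (s : ℕ) : Cl (ug b s) ≃ₗ[ℝ] (Fin s → ℝ) :=
  LinearEquiv.ofLinearMap
    (Submodule.liftQ (LinearMap.range (chr (ug b s))) (degL b s) (by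
      rintro _ ⟨m, rfl⟩
      rw [LinearMap.mem_ker]
      have h1 : cls (ug b s) (chr (ug b s) m) = cls (ug b s) 0 := cls_eq.2 ⟨m, by rw [zero_add]⟩
      have h2 := cls_iff.1 h1
      funext k
      refine (h2 k).trans ?_
      simp) : Cl (ug b s) →ₗ[ℝ] (Fin s → ℝ))
    (clsL (ug b s) ∘ₗ secL b s)
    (by
      refine LinearMap.ext fun a => ?_
      exact deg_sec (b := b) a)
    (by
      refine LinearMap.ext fun x => ?_
      obtain ⟨δ, rfl⟩ := cls_surj x
      exact cls_iff.2 fun k => congrFun (deg_sec (b := b) (degL b s δ)) k)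

theorem degE_cls {b : Fin q → ℕ} (β : Pl b s → ℝ) (k : Fin s) :
    degE b s (cls (ug b s) β) k = ∑ I, β ⟨k, I⟩ := rfl

theorem degE_cont (b : Fin q → ℕ) (s : ℕ) : Continuous (degE b s) := by
  have h1 : Continuous fun β : Pl b s → ℝ => degL b s β := (degL b s).continuous_of_finiteDimensional
  exact h1.quotient_lift _

theorem degE_symm_cont (b : Fin q → ℕ) (s : ℕ) : Continuous (degE b s).symm := by
  have h1 : Continuous fun a : Fin s → ℝ => secL b s a := (secL b s).continuous_of_finiteDimensional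
  have h2 : Continuous fun β : Pl b s → ℝ => clsL (ug b s) β := continuous_quot_mk
  exact h2.comp h1

end Q47.CF
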