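import Pool.Agent.Q47.CF.Clear

/-!
# The parts of given row degrees
-/

set_option autoImplicit false

namespace Q47.CF

open MvPolynomial Q47.FL

variable {q s : ℕ} {b : Fin q → ℕ} {d : ℕ → ℕ}

/-- The part of the given row degrees. -/
noncomputable def rpart (ρ : Fin q →₀ ℕ) (F : MvPolynomial (Fin q × Fin q) ℂ) :
    MvPolynomial (Fin q × Fin q) ℂ :=
  ∑ α ∈ F.support with rowF α = ρ, monomial α (coeff α F)

/-- The polynomial in the scaling factors of the rows. -/
noncomputable def gp (g : Matrix (Fin q) (Fin q) ℂ) (F : MvPolynomial (Fin q × Fin q) ℂ) :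
    MvPolynomial (Fin q) ℂ :=
  ∑ α ∈ F.support, monomial (rowF α) (coeff α F * ∏ x, g x.1 x.2 ^ α x)

theorem gp_eval (g : Matrix (Fin q) (Fin q) ℂ) (F : MvPolynomial (Fin q × Fin q) ℂ)
    (c : Fin q → ℂ) : eval c (gp g F) = ev (Matrix.of fun i j => c i * g i j) F := by
  rw [gp, map_sum, ev, eval_eq']
  refine Finset.sum_congr rfl fun α _ => ?_
  rw [eval_monomial, mul_assoc]
  congr 1
  simp only [Matrix.of_apply, mul_pow, Finset.prod_mul_distrib]
  rw [mul_comm]
  congr 1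
  rw [Finsupp.prod_fintype _ _ fun _ => pow_zero _, Fintype.prod_prod_type]
  refine Finset.prod_congr rfl fun i _ => ?_
  exact (Finset.prod_pow_eq_pow_sum Finset.univ (fun j => α (i, j)) (c i)).symm

theorem gp_coeff (g : Matrix (Fin q) (Fin q) ℂ) (F : MvPolynomial (Fin q × Fin q) ℂ)
    (ρ : Fin q →₀ ℕ) : coeff ρ (gp g F) = ev g (rpart ρ F) := by
  classical
  rw [gp, coeff_sum, rpart, ev, map_sum, Finset.sum_filter]
  refine Finset.sum_congr rfl fun α _ => ?_
  rw [coeff_monomial]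
  split_ifs with h
  · rw [eval_monomial]
    congr 1
    exact (Finsupp.prod_fintype _ _ fun _ => pow_zero _).symm
  · rfl

theorem rpart_semi {F : MvPolynomial (Fin q × Fin q) ℂ} (hF : IsSemiInvariant b d F)
    (ρ : Fin q →₀ ℕ) : IsSemiInvariant b d (rpart ρ F) := by
  classical
  refine ⟨fun g j t => ?_, fun g j k t hjk hb => ?_⟩
  · have h1 : gp (g.updateCol j fun i => t * g i j) F = C (t ^ d (b j)) * gp g F := by
      refine MvPolynomial.funext fun c => ?_
      rw [map_mul, eval_C, gp_eval, gp_eval, ← hF.scale (Matrix.of fun i j => c i * g i j) j t]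
      congr 1
      ext i l
      simp only [Matrix.of_apply, Matrix.updateCol_apply]
      split_ifs
      · ring
      · rfl
    rw [← gp_coeff, ← gp_coeff, h1, coeff_C_mul]
  · have h1 : gp (g.updateCol k fun i => g i k + t * g i j) F = gp g F := by
      refine MvPolynomial.funext fun c => ?_
      rw [gp_eval, gp_eval, ← hF.shear (Matrix.of fun i j => c i * g i j) j k t hjk hb]
      congr 1
      ext i l
      simp only [Matrix.of_apply, Matrix.updateCol_apply]
      split_ifs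
      · ring
      · rfl
    rw [← gp_coeff, ← gp_coeff, h1]

theorem rpart_supp {F : MvPolynomial (Fin q × Fin q) ℂ} {ρ : Fin q →₀ ℕ}
    {α : Fin q × Fin q →₀ ℕ} (hα : α ∈ (rpart ρ F).support) : α ∈ F.support ∧ rowF α = ρ := by
  classical
  rw [mem_support_iff, rpart, coeff_sum] at hα
  obtain ⟨β, hβ, h1⟩ := Finset.exists_ne_zero_of_sum_ne_zero hα
  rw [coeff_monomial] at h1
  have h2 : β = α := by
    by_contra h
    rw [if_neg h] at h1
    exact h1 rfl
  rw [← h2]
  exact Finset.mem_filter.1 hβ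

theorem exists_rpart {F : MvPolynomial (Fin q × Fin q) ℂ} {g : Matrix (Fin q) (Fin q) ℂ}
    (h : ev g F ≠ 0) : ∃ ρ, ev g (rpart ρ F) ≠ 0 := by
  have h1 := gp_eval g F fun _ => 1
  have h2 : (Matrix.of fun i j => (fun _ : Fin q => (1 : ℂ)) i * g i j) = g := by
    ext i j
    simp
  rw [h2] at h1
  have h3 : gp g F ≠ 0 := fun h0 => h (by rw [← h1, h0, map_zero])
  obtain ⟨ρ, hρ⟩ := ne_zero_iff.1 h3
  exact ⟨ρ, by rwa [← gp_coeff]⟩

/-- The inequality on the divisor of a minor. -/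
theorem dom_extra (hb : Monotone b) (hr : ∀ k, (∃ i, b i = k) ↔ k ≤ s)
    {F : MvPolynomial (Fin q × Fin q) ℂ} (hF : IsSemiInvariant b d F) {ρ : Fin q → ℕ}
    (hρ : ∀ α ∈ F.support, row α = ρ) {g : Matrix (Fin q) (Fin q) ℂ} (hg : ev g F ≠ 0)
    (k : Fin s) {w : Equiv.Perm (Fin q)} (h0 : mnv g w (blk b k).card = 0) :
    (∑ j ∈ blk b k, (ρ (w j) : ℤ)) + (d k - d (k + 1)) ≤ ∑ j ∈ blk b k, (d (b j) : ℤ) := by
  classical
  have hF0 : F ≠ 0 := fun h => hg (by rw [h, ev, map_zero])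
  obtain ⟨B, g', hg', hclear, hcard, hj⟩ := clear hb hF g w (blk b k).card
  obtain ⟨j₀, hj₀, hj₀B⟩ := hj h0
  have hcd : Fintype.card {i : Fin q // (i : ℕ) < (blk b k).card} = (blk b k).card := by
    rw [Fintype.card_of_subtype (blk b k)]
    intro i
    exact (blk_ini hb k).symm
  rw [hcd] at hcard
  -- a monomial which does not vanish
  rw [← hg', ev, eval_eq'] at hg
  obtain ⟨β, hβ, h1⟩ := Finset.exists_ne_zero_of_sum_ne_zero hg
  have h2 : ∏ x, g' x.1 x.2 ^ β x ≠ 0 := right_ne_zero_of_mul h1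
  have h3 : ∀ i ∈ blk b k, ∀ j, j ∉ B → β (w i, j) = 0 := by
    intro i hi j hjB
    by_contra h4
    refine h2 (Finset.prod_eq_zero (Finset.mem_univ (w i, j)) ?_)
    rw [hclear i ((blk_ini hb k).2 hi) j hjB]
    exact zero_pow h4
  have h4 : ∑ i ∈ blk b k, ρ (w i) ≤ ∑ j ∈ B, d (b j) := by
    have h5 : ∀ i ∈ blk b k, ρ (w i) = ∑ j ∈ B, β (w i, j) := by
      intro i hi
      rw [← hρ β hβ, row]
      exact (Finset.sum_subset (Finset.subset_univ B) fun j _ hjB => h3 i hi j hjB).symm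
    rw [Finset.sum_congr rfl h5, Finset.sum_comm]
    refine Finset.sum_le_sum fun j _ => ?_
    rw [← col_of_semi hF hβ j, col, ← Finset.sum_image (s := blk b k) (g := w)
      (f := fun i => β (i, j)) fun _ _ _ _ h => w.injective h]
    exact Finset.sum_le_univ_sum_of_nonneg fun _ => Nat.zero_le _
  -- the comparison of the sums
  have hanti : ∀ k k' : ℕ, k ≤ k' → k' ≤ s → d k' ≤ d k := by
    intro k k' h5 h6
    rcases h5.eq_or_lt with h | h
    · rw [h]
    · obtain ⟨i, hi⟩ := (hr k).2 (by omega)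
      obtain ⟨i', hi'⟩ := (hr k').2 h6
      rw [← hi, ← hi']
      exact anti_of_semi hF hF0 (by rw [hi, hi']; exact h)
  have hbs : ∀ i, b i ≤ s := fun i => (hr (b i)).1 ⟨i, rfl⟩
  have h5 : ∑ j ∈ B \ blk b k, d (b j) ≤ (B \ blk b k).card * d (k + 1) := by
    rw [← smul_eq_mul]
    refine Finset.sum_le_card_nsmul _ _ _ fun j hj => hanti _ _ ?_ (hbs j)
    have h6 := (Finset.mem_sdiff.1 hj).2
    rw [mem_blk] at h6
    omega
  have h6 : (blk b k \ B).card * d k ≤ ∑ j ∈ blk b k \ B, d (b j) := by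
    rw [← smul_eq_mul]
    exact Finset.card_nsmul_le_sum _ _ _ fun j hj => hanti _ _
      (mem_blk.1 (Finset.mem_sdiff.1 hj).1) k.2.le
  have h7 : (B \ blk b k).card ≤ (blk b k \ B).card := by
    have h8 := Finset.card_sdiff_add_card_inter B (blk b k)
    have h9 := Finset.card_sdiff_add_card_inter (blk b k) B
    rw [Finset.inter_comm] at h9
    omega
  have h8 : 1 ≤ (blk b k \ B).card := Finset.card_pos.2
    ⟨j₀, Finset.mem_sdiff.2 ⟨(blk_ini hb k).1 hj₀, hj₀B⟩⟩
  have h9 : ∑ j ∈ B, d (b j) = ∑ j ∈ B \ blk b k, d (b j) + ∑ j ∈ B ∩ blk b k, d (b j) := by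
    rw [add_comm]
    exact (Finset.sum_inter_add_sum_sdiff B (blk b k) fun j => d (b j)).symm
  have h10 : ∑ j ∈ blk b k, d (b j)
      = ∑ j ∈ blk b k \ B, d (b j) + ∑ j ∈ B ∩ blk b k, d (b j) := by
    rw [Finset.inter_comm, add_comm]
    exact (Finset.sum_inter_add_sum_sdiff (blk b k) B fun j => d (b j)).symm
  have h11 := hanti k (k + 1) (by omega) k.2
  have h12 : (∑ i ∈ blk b k, ρ (w i) : ℕ) + (blk b k \ B).card * d k
      ≤ ∑ j ∈ blk b k, d (b j) + (blk b k \ B).card * d (k + 1) := by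
    have h13 : (B \ blk b k).card * d (k + 1) ≤ (blk b k \ B).card * d (k + 1) :=
      Nat.mul_le_mul_right _ h7
    omega
  have h14 : (blk b k \ B).card * d k ≥ (blk b k \ B).card * d (k + 1) + (d k - d (k + 1)) := by
    obtain ⟨e, he⟩ := Nat.exists_eq_add_of_le h11
    rw [he, mul_add, Nat.add_sub_cancel_left]
    have : e ≤ (blk b k \ B).card * e := Nat.le_mul_of_pos_left e h8
    omega
  have h15 : (∑ i ∈ blk b k, ρ (w i) : ℕ) + (d k - d (k + 1)) ≤ ∑ j ∈ blk b k, d (b j) := by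
    omega
  have h16 : ((∑ i ∈ blk b k, ρ (w i) : ℕ) : ℤ) + ((d k - d (k + 1) : ℕ) : ℤ)
      ≤ ((∑ j ∈ blk b k, d (b j) : ℕ) : ℤ) := by exact_mod_cast h15
  rw [Nat.cast_sub h11] at h16
  push_cast at h16
  exact h16

end Q47.CF
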