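import Pool.Agent.Q47.CF.Anti
import Pool.Agent.Q47.TB.Hull
import Mathlib.Data.Fin.Tuple.Sort

/-!
# The weights of semi-invariant polynomials as sums of fundamental weights
-/

set_option autoImplicit false

namespace Q47.CF

open MvPolynomial Q47.FL

/-- Summation by parts. -/
theorem abel (A e : ℕ → ℤ) (n : ℕ) (hA : ∀ i < n, A i ≤ A (i + 1))
    (he : ∀ m ≤ n, 0 ≤ ∑ i ∈ Finset.range m, e i) :
    ∑ i ∈ Finset.range (n + 1), A i * e i ≤ A n * ∑ i ∈ Finset.range (n + 1), e i := by
  induction n with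
  | zero => simp
  | succ n ih =>
    rw [Finset.sum_range_succ, Finset.sum_range_succ e]
    have h1 := ih (fun i hi => hA i (by omega)) fun m hm => he m (by omega)
    have h2 := mul_le_mul_of_nonneg_right (hA n (by omega)) (he (n + 1) le_rfl)
    rw [mul_add]
    linarith

variable {q : ℕ}

theorem sum_ini (f : Fin q → ℤ) {m : ℕ} (hm : m ≤ q) :
    ∑ j ∈ ini q m, f j = ∑ i ∈ Finset.range m, if h : i < q then f ⟨i, h⟩ else 0 := by
  rw [ini, Finset.sum_filter]
  have h1 : ∑ j : Fin q, (if (j : ℕ) < m then f j else 0)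
      = ∑ i ∈ Finset.range q, if i < m then (if h : i < q then f ⟨i, h⟩ else 0) else 0 := by
    rw [Finset.sum_range]
    exact Finset.sum_congr rfl fun j _ => by rw [dif_pos j.2]
  rw [h1, ← Finset.sum_filter]
  refine Finset.sum_congr ?_ fun _ _ => rfl
  ext i
  simp only [Finset.mem_filter, Finset.mem_range]
  omega

theorem abel_fin (A e : Fin q → ℤ) (hA : Monotone A)
    (he : ∀ m, 0 ≤ ∑ j ∈ ini q m, e j) (h0 : ∑ j, e j = 0) : ∑ j, A j * e j ≤ 0 := by
  rcases Nat.eq_zero_or_pos q with h | h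
  · subst h
    simp
  obtain ⟨n, rfl⟩ : ∃ n, q = n + 1 := ⟨q - 1, by omega⟩
  have h1 := abel (fun i => if h : i < n + 1 then A ⟨i, h⟩ else 0)
    (fun i => if h : i < n + 1 then e ⟨i, h⟩ else 0) n (fun i hi => by
      rw [dif_pos (by omega), dif_pos (by omega)]
      exact hA (by simp [Fin.le_def])) (fun m hm => by
      rw [← sum_ini e (by omega)]
      exact he m)
  simp only [Finset.sum_range] at h1
  have h2 : ∀ j : Fin (n + 1), (if h : (j : ℕ) < n + 1 then A ⟨j, h⟩ else 0) = A j := fun j =>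
    dif_pos j.2
  have h3 : ∀ j : Fin (n + 1), (if h : (j : ℕ) < n + 1 then e ⟨j, h⟩ else 0) = e j := fun j =>
    dif_pos j.2
  simp only [h2, h3, h0, mul_zero] at h1
  exact h1

/-- The weights of a monomial of a semi-invariant polynomial. -/
theorem dom_all {b : Fin q → ℕ} (hb : Monotone b) {d : ℕ → ℕ}
    {F : MvPolynomial (Fin q × Fin q) ℂ} (hF : IsSemiInvariant b d F)
    {α : Fin q × Fin q →₀ ℕ} (hα : α ∈ F.support) (a : Fin q → ℤ) (w : Equiv.Perm (Fin q))
    (hw : Monotone (a ∘ w)) : ∑ j, a (w j) * d (b j) ≤ ∑ i, a i * row α i := by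
  have h1 := abel_fin (a ∘ w) (fun j => (d (b j) : ℤ) - row α (w j)) hw (fun m => by
      rw [Finset.sum_sub_distrib, sub_nonneg]
      have := dom hb hF hα w m
      exact_mod_cast this) (by
      rw [Finset.sum_sub_distrib, sub_eq_zero]
      have h2 : ∑ j, (d (b j) : ℤ) = ∑ j, (col α j : ℤ) :=
        Finset.sum_congr rfl fun j _ => by rw [col_of_semi hF hα j]
      have h3 : ∑ j, (row α (w j) : ℤ) = ∑ i, (row α i : ℤ) :=
        Equiv.sum_comp w fun i => (row α i : ℤ)
      rw [h2, h3]
      simp only [row, col, Nat.cast_sum]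
      exact Finset.sum_comm)
  simp only [Function.comp, mul_sub, Finset.sum_sub_distrib] at h1
  have h2 : ∑ j, a (w j) * (row α (w j) : ℤ) = ∑ i, a i * (row α i : ℤ) :=
    Equiv.sum_comp w fun i => a i * (row α i : ℤ)
  rw [h2] at h1
  linarith

variable {s : ℕ}

/-- The block of the columns of the `k`-th member of the flag. -/
def blk (b : Fin q → ℕ) (k : ℕ) : Finset (Fin q) := Finset.univ.filter fun i => b i ≤ k

theorem mem_blk {b : Fin q → ℕ} {k : ℕ} {i : Fin q} : i ∈ blk b k ↔ b i ≤ k := by simp [blk]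

/-- The Plücker coordinates. -/
abbrev Pl (b : Fin q → ℕ) (s : ℕ) : Type :=
  Σ k : Fin s, {I : Finset (Fin q) // I.card = (blk b k).card}

/-- Telescoping. -/
theorem tele' {R : Type*} [CommRing R] (t : ℕ → R) (s k : ℕ) (hk : k ≤ s) :
    ∑ l : Fin s, (if k ≤ (l : ℕ) then t l - t (l + 1) else 0) = t k - t s := by
  rw [← Finset.sum_range (fun l => if k ≤ l then t l - t (l + 1) else 0)]
  induction s, hk using Nat.le_induction with
  | base =>
    rw [sub_self]
    refine Finset.sum_eq_zero fun l hl => if_neg ?_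
    have := Finset.mem_range.1 hl
    omega
  | succ s hs ih =>
    rw [Finset.sum_range_succ, ih, if_pos hs]
    ring

/-- The sum over the blocks. -/
theorem sum_blk {R : Type*} [CommRing R] {b : Fin q → ℕ} (hr : ∀ i, b i ≤ s) (t : ℕ → R)
    (A : Fin q → R) : ∑ k : Fin s, (t k - t (k + 1)) * ∑ j ∈ blk b k, A j
      = ∑ j, (t (b j) - t s) * A j := by
  have h1 : ∀ k : Fin s, (t k - t (k + 1)) * ∑ j ∈ blk b k, A j
      = ∑ j, (if b j ≤ (k : ℕ) then t k - t (k + 1) else 0) * A j := by
    intro k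
    rw [blk, Finset.sum_filter, Finset.mul_sum]
    refine Finset.sum_congr rfl fun j _ => ?_
    split_ifs
    · rfl
    · rw [mul_zero, zero_mul]
  rw [Finset.sum_congr rfl fun k _ => h1 k, Finset.sum_comm]
  refine Finset.sum_congr rfl fun j _ => ?_
  rw [← Finset.sum_mul, tele' t s (b j) (hr j)]

/-- The weight of a monomial is a combination of the weights of the Plücker coordinates. -/
theorem rado {b : Fin q → ℕ} (hb : Monotone b) (hr : ∀ k, (∃ i, b i = k) ↔ k ≤ s) {d : ℕ → ℕ}
    {F : MvPolynomial (Fin q × Fin q) ℂ} (hF : IsSemiInvariant b d F)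
    {α : Fin q × Fin q →₀ ℕ} (hα : α ∈ F.support) :
    ∃ β : Pl b s → ℝ, (∀ x, 0 ≤ β x) ∧
      (∀ k : Fin s, ∑ I, β ⟨k, I⟩ = (d k : ℝ) - d (k + 1)) ∧
      ∀ i, ∑ x : Pl b s, (if i ∈ x.2.1 then β x else 0) = (row α i : ℝ) - d s := by
  classical
  have hbs : ∀ i, b i ≤ s := fun i => (hr (b i)).1 ⟨i, rfl⟩
  have hF0 : F ≠ 0 := fun h => by rw [h, support_zero] at hα; exact absurd hα (Finset.notMem_empty _)
  have hd : ∀ k : Fin s, d (k + 1) ≤ d k := by
    intro k
    obtain ⟨j, hj⟩ := (hr k).2 k.2.le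
    obtain ⟨j', hj'⟩ := (hr (k + 1)).2 k.2
    rw [← hj', ← hj]
    exact anti_of_semi hF hF0 (by rw [hj, hj']; exact Nat.lt_succ_self _)
  let J := ∀ k : Fin s, {I : Finset (Fin q) // I.card = (blk b k).card}
  have : Nonempty J := ⟨fun k => ⟨blk b k, rfl⟩⟩
  let Q : J → Fin q → ℤ := fun τ i =>
    ∑ k : Fin s, ((d k : ℤ) - d (k + 1)) * (if i ∈ (τ k).1 then 1 else 0) - (row α i - d s)
  have hhull : (0 : Fin q → ℝ) ∈ convexHull ℝ (Set.range fun j => fun k => (Q j k : ℝ)) := by
    by_contra hcon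
    obtain ⟨a, ha⟩ := TB.sep_of_not_hull Q hcon
    let w := Tuple.sort a
    have hw : Monotone (a ∘ w) := Tuple.monotone_sort a
    have h1 := ha fun k => ⟨(blk b k).image w, Finset.card_image_of_injective _ w.injective⟩
    have h2 := dom_all hb hF hα a w hw
    have h3 : ∑ i, Q (fun k => ⟨(blk b k).image w, Finset.card_image_of_injective _ w.injective⟩) i
        * a i = ∑ j, a (w j) * d (b j) - ∑ i, a i * row α i := by
      have e1 : ∀ i, Q (fun k => ⟨(blk b k).image w, Finset.card_image_of_injective _ w.injective⟩) i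
          * a i = ∑ k : Fin s, ((d k : ℤ) - d (k + 1)) *
            ((if i ∈ (blk b k).image w then 1 else 0) * a i) - (row α i * a i - d s * a i) := by
        intro i
        simp only [Q]
        rw [sub_mul, Finset.sum_mul, sub_mul]
        congr 1
        exact Finset.sum_congr rfl fun k _ => mul_assoc _ _ _
      rw [Finset.sum_congr rfl fun i _ => e1 i, Finset.sum_sub_distrib, Finset.sum_sub_distrib,
        Finset.sum_comm]
      have h4 : ∀ k : Fin s, ∑ i, ((d k : ℤ) - d (k + 1)) *
          ((if i ∈ (blk b k).image w then 1 else 0) * a i)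
          = ((d k : ℤ) - d (k + 1)) * ∑ j ∈ blk b k, a (w j) := by
        intro k
        rw [← Finset.mul_sum]
        congr 1
        have h5 : ∀ i, (if i ∈ (blk b k).image w then (1 : ℤ) else 0) * a i
            = if i ∈ (blk b k).image w then a i else 0 := fun i => by
          split_ifs
          · rw [one_mul]
          · rw [zero_mul]
        simp only [h5]
        rw [← Finset.sum_filter, Finset.filter_mem_eq_inter, Finset.univ_inter,
          Finset.sum_image fun _ _ _ _ h => w.injective h]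
      have h6 := sum_blk (R := ℤ) hbs (fun k => (d k : ℤ)) fun j => a (w j)
      rw [Finset.sum_congr rfl fun k _ => h4 k, h6]
      have h7 : ∑ j, (d s : ℤ) * a (w j) = ∑ i, (d s : ℤ) * a i :=
        Equiv.sum_comp w fun i => (d s : ℤ) * a i
      have h9 : ∑ j, (d (b j) : ℤ) * a (w j) = ∑ j, a (w j) * d (b j) :=
        Finset.sum_congr rfl fun j _ => mul_comm _ _
      have h10 : ∑ i, (row α i : ℤ) * a i = ∑ i, a i * row α i :=
        Finset.sum_congr rfl fun j _ => mul_comm _ _
      have h11 : ∑ j, ((d (b j) : ℤ) - d s) * a (w j)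
          = ∑ j, a (w j) * d (b j) - ∑ i, (d s : ℤ) * a i := by
        rw [← h7, ← h9, ← Finset.sum_sub_distrib]
        exact Finset.sum_congr rfl fun j _ => sub_mul _ _ _
      rw [h11, h10]
      ring
    rw [h3] at h1
    linarith
  obtain ⟨r, g, K, hK1, hK⟩ := TB.int_of_hull Q hhull
  set N : ℝ := ∑ l, (K l : ℝ) with hN
  have hN0 : 0 < N := by
    have : (1 : ℝ) ≤ N := by
      rw [hN]
      exact_mod_cast hK1
    linarith
  refine ⟨fun x => ((d x.1 : ℝ) - d (x.1 + 1)) * (∑ l, if g l x.1 = x.2 then (K l : ℝ) else 0) / N,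
    fun x => ?_, fun k => ?_, fun i => ?_⟩
  · have h1 : (0 : ℝ) ≤ (d x.1 : ℝ) - d (x.1 + 1) := sub_nonneg.2 (by exact_mod_cast hd x.1)
    refine div_nonneg (mul_nonneg h1 (Finset.sum_nonneg fun l _ => ?_)) hN0.le
    split_ifs
    · exact Nat.cast_nonneg _
    · exact le_rfl
  · simp only
    rw [← Finset.sum_div, ← Finset.mul_sum, Finset.sum_comm]
    have h1 : ∀ l, ∑ I, (if g l k = I then (K l : ℝ) else 0) = K l := fun l => by
      rw [Finset.sum_ite_eq, if_pos (Finset.mem_univ _)]
    simp only [h1]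
    rw [← hN, mul_div_assoc, div_self hN0.ne', mul_one]
  · rw [Fintype.sum_sigma]
    simp only
    have h1 : ∀ k : Fin s, ∑ I : {I : Finset (Fin q) // I.card = (blk b k).card},
        (if i ∈ I.1 then ((d k : ℝ) - d (k + 1)) * (∑ l, if g l k = I then (K l : ℝ) else 0) / N
          else 0)
        = (∑ l, (K l : ℝ) * (((d k : ℝ) - d (k + 1)) * if i ∈ (g l k).1 then 1 else 0)) / N := by
      intro k
      rw [eq_div_iff hN0.ne', Finset.sum_mul]
      have h2 : ∀ I : {I : Finset (Fin q) // I.card = (blk b k).card},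
          (if i ∈ I.1 then ((d k : ℝ) - d (k + 1)) * (∑ l, if g l k = I then (K l : ℝ) else 0) / N
            else 0) * N = ∑ l, if g l k = I then
              (K l : ℝ) * (((d k : ℝ) - d (k + 1)) * if i ∈ (g l k).1 then 1 else 0) else 0 := by
        intro I
        by_cases hi : i ∈ I.1
        · rw [if_pos hi, div_mul_cancel₀ _ hN0.ne', Finset.mul_sum]
          refine Finset.sum_congr rfl fun l _ => ?_
          by_cases hl : g l k = I
          · rw [if_pos hl, if_pos hl, hl, if_pos hi]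
            ring
          · rw [if_neg hl, if_neg hl, mul_zero]
        · rw [if_neg hi, zero_mul]
          refine (Finset.sum_eq_zero fun l _ => ?_).symm
          by_cases hl : g l k = I
          · rw [if_pos hl, hl, if_neg hi, mul_zero, mul_zero]
          · rw [if_neg hl]
      rw [Finset.sum_congr rfl fun I _ => h2 I, Finset.sum_comm]
      refine Finset.sum_congr rfl fun l _ => ?_
      rw [Finset.sum_ite_eq, if_pos (Finset.mem_univ _)]
    rw [Finset.sum_congr rfl fun k _ => h1 k, ← Finset.sum_div, Finset.sum_comm,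
      div_eq_iff hN0.ne']
    have h3 := hK i
    simp only [Q, mul_sub, Finset.sum_sub_distrib] at h3
    have h4 : (∑ l, (K l : ℝ) * ∑ k : Fin s, ((d k : ℝ) - d (k + 1)) *
        (if i ∈ (g l k).1 then 1 else 0)) = (N * ((row α i : ℝ) - d s)) := by
      have h5 : ∑ l, (K l : ℤ) * ∑ k : Fin s, ((d k : ℤ) - d (k + 1)) *
          (if i ∈ (g l k).1 then 1 else 0) = (∑ l, (K l : ℤ)) * ((row α i : ℤ) - d s) := by
        rw [Finset.sum_mul]
        simp only [mul_sub, Finset.sum_sub_distrib]
        linarith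
      rw [hN]
      exact_mod_cast h5
    rw [mul_comm _ N, ← h4]
    refine Finset.sum_congr rfl fun l _ => ?_
    rw [Finset.mul_sum]

end Q47.CF
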