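import Pool.Agent.Q47.CF.RPart

/-!
# The weights of sections which do not vanish on a Plücker divisor
-/

set_option autoImplicit false

namespace Q47.CF

open MvPolynomial Q47.FL

variable {q s : ℕ} {b : Fin q → ℕ} {d : ℕ → ℕ}

/-- The improved inequality. -/
theorem dom_all' (hb : Monotone b) (hr : ∀ k, (∃ i, b i = k) ↔ k ≤ s)
    {F : MvPolynomial (Fin q × Fin q) ℂ} (hF : IsSemiInvariant b d F) {ρ : Fin q → ℕ}
    (hρ : ∀ α ∈ F.support, row α = ρ) {g : Matrix (Fin q) (Fin q) ℂ} (hg : ev g F ≠ 0)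
    (k : Fin s) {w : Equiv.Perm (Fin q)} (h0 : mnv g w (blk b k).card = 0) (a : Fin q → ℤ)
    (hw : Monotone (a ∘ w)) {j₁ j₂ : Fin q} (hj₁ : (j₁ : ℕ) + 1 = (blk b k).card)
    (hj₂ : (j₂ : ℕ) = (blk b k).card) :
    ∑ j, a (w j) * d (b j) + ((d k : ℤ) - d (k + 1)) * (a (w j₂) - a (w j₁))
      ≤ ∑ i, a i * ρ i := by
  classical
  have hF0 : F ≠ 0 := fun h => hg (by rw [h, ev, map_zero])
  obtain ⟨α, hα⟩ := support_nonempty.2 hF0
  have hρα := hρ α hα
  set δ : ℤ := (d k : ℤ) - d (k + 1) with hδ
  have hne : j₁ ≠ j₂ := fun h => by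
    rw [h] at hj₁
    omega
  let e : Fin q → ℤ := fun j => (d (b j) : ℤ) - ρ (w j) - (if j = j₁ then δ else 0) +
    if j = j₂ then δ else 0
  have hsum : ∀ m : ℕ, ∑ j ∈ ini q m, e j = (∑ j ∈ ini q m, (d (b j) : ℤ))
      - ∑ j ∈ ini q m, (ρ (w j) : ℤ) - (if (j₁ : ℕ) < m then δ else 0) +
        if (j₂ : ℕ) < m then δ else 0 := by
    intro m
    simp only [e, Finset.sum_add_distrib, Finset.sum_sub_distrib, Finset.sum_ite_eq', mem_ini]
  have h1 := abel_fin (a ∘ w) e hw (fun m => by
      rw [hsum]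
      have h2 := dom hb hF hα w m
      rw [hρα] at h2
      have h2' : (∑ j ∈ ini q m, (ρ (w j) : ℤ)) ≤ ∑ j ∈ ini q m, (d (b j) : ℤ) := by
        exact_mod_cast h2
      by_cases h3 : (j₁ : ℕ) < m
      · rw [if_pos h3]
        by_cases h4 : (j₂ : ℕ) < m
        · rw [if_pos h4]
          linarith
        · rw [if_neg h4]
          have h5 : m = (blk b k).card := by omega
          have h6 : ini q m = blk b k := by
            ext j
            rw [mem_ini, h5, blk_ini hb]
          have h7 := dom_extra hb hr hF hρ hg k h0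
          rw [h6]
          linarith
      · rw [if_neg h3, if_neg (by omega)]
        linarith) (by
      have h2 := hsum q
      have h3 : ini q q = Finset.univ := by
        ext j
        simp [mem_ini]
      rw [h3, if_pos j₁.2, if_pos j₂.2] at h2
      rw [h2]
      have h4 : ∑ j, (d (b j) : ℤ) = ∑ j, (col α j : ℤ) :=
        Finset.sum_congr rfl fun j _ => by rw [col_of_semi hF hα j]
      have h5 : ∑ j, (ρ (w j) : ℤ) = ∑ i, (ρ i : ℤ) := Equiv.sum_comp w fun i => (ρ i : ℤ)
      have h6 : ∑ j, (col α j : ℤ) = ∑ i, (ρ i : ℤ) := by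
        rw [← hρα]
        simp only [row, col, Nat.cast_sum]
        exact Finset.sum_comm
      rw [h4, h5, h6]
      ring)
  have h2 : ∑ j, (a ∘ w) j * e j = ∑ j, a (w j) * d (b j) - ∑ j, a (w j) * (ρ (w j) : ℤ)
      - a (w j₁) * δ + a (w j₂) * δ := by
    simp only [e, Function.comp, mul_add, mul_sub, Finset.sum_add_distrib,
      Finset.sum_sub_distrib, mul_ite, mul_zero, Finset.sum_ite_eq', Finset.mem_univ, if_true]
  have h3 : ∑ j, a (w j) * (ρ (w j) : ℤ) = ∑ i, a i * (ρ i : ℤ) :=
    Equiv.sum_comp w fun i => a i * (ρ i : ℤ)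
  rw [h2, h3] at h1
  linarith

/-- The weight of a section which does not vanish on the divisor of the Plücker coordinate `z` is a
combination of the weights of the other Plücker coordinates. -/
theorem rado' (hb : Monotone b) (hr : ∀ k, (∃ i, b i = k) ↔ k ≤ s)
    {F : MvPolynomial (Fin q × Fin q) ℂ} (hF : IsSemiInvariant b d F)
    {g : Matrix (Fin q) (Fin q) ℂ} (hg : ev g F ≠ 0) (z : Pl b s) (hz : ev g (pl z) = 0) :
    ∃ α ∈ F.support, ∃ β : Pl b s → ℝ, (∀ x, 0 ≤ β x) ∧ β z = 0 ∧
      (∀ k : Fin s, ∑ I, β ⟨k, I⟩ = (d k : ℝ) - d (k + 1)) ∧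
      ∀ i, ∑ x : Pl b s, (if i ∈ x.2.1 then β x else 0) = (row α i : ℝ) - d s := by
  classical
  obtain ⟨ρ, hρ⟩ := exists_rpart hg
  have hG := rpart_semi hF ρ
  have hG0 : rpart ρ F ≠ 0 := fun h => hρ (by rw [h, ev, map_zero])
  obtain ⟨α, hα'⟩ := support_nonempty.2 hG0
  obtain ⟨hα, hαρ⟩ := rpart_supp hα'
  have hrow : ∀ α' ∈ (rpart ρ F).support, row α' = row α := by
    intro α' h
    have h1 := (rpart_supp h).2
    have h2 : rowF α' = rowF α := h1.trans hαρ.symm
    exact congrArg (fun f : Fin q →₀ ℕ => (f : Fin q → ℕ)) h2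
  refine ⟨α, hα, ?_⟩
  have hbs : ∀ i, b i ≤ s := fun i => (hr (b i)).1 ⟨i, rfl⟩
  have hF0 : F ≠ 0 := fun h => by rw [h, support_zero] at hα; exact absurd hα (Finset.notMem_empty _)
  have hd : ∀ k : Fin s, d (k + 1) ≤ d k := by
    intro k
    obtain ⟨j, hj⟩ := (hr k).2 k.2.le
    obtain ⟨j', hj'⟩ := (hr (k + 1)).2 k.2
    rw [← hj', ← hj]
    exact anti_of_semi hF hF0 (by rw [hj, hj']; exact Nat.lt_succ_self _)
  let J := {τ : ∀ k : Fin s, {I : Finset (Fin q) // I.card = (blk b k).card} // τ z.1 ≠ z.2}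
  obtain ⟨⟨kx, Ix⟩, hx1, hx2⟩ := exists_other_Pl hr z
  have hkx : kx = z.1 := hx1
  subst hkx
  have hIx : Ix ≠ z.2 := fun h => hx2 (by rw [h])
  have : Nonempty J := ⟨⟨Function.update (fun k => ⟨blk b k, rfl⟩) z.1 Ix, by
    rw [Function.update_self]
    exact hIx⟩⟩
  let Q : J → Fin q → ℤ := fun τ i =>
    ∑ k : Fin s, ((d k : ℤ) - d (k + 1)) * (if i ∈ (τ.1 k).1 then 1 else 0) - (row α i - d s)
  -- the values of `Q`
  have hQ : ∀ (τ : J) (a : Fin q → ℤ), ∑ i, Q τ i * a i
      = ∑ k : Fin s, ((d k : ℤ) - d (k + 1)) * ∑ i ∈ (τ.1 k).1, a i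
        - (∑ i, a i * row α i - ∑ i, (d s : ℤ) * a i) := by
    intro τ a
    have e1 : ∀ i, Q τ i * a i = ∑ k : Fin s, ((d k : ℤ) - d (k + 1)) *
          ((if i ∈ (τ.1 k).1 then 1 else 0) * a i) - (a i * row α i - d s * a i) := by
      intro i
      simp only [Q]
      rw [sub_mul, Finset.sum_mul, sub_mul, mul_comm (a i)]
      congr 1
      exact Finset.sum_congr rfl fun k _ => mul_assoc _ _ _
    rw [Finset.sum_congr rfl fun i _ => e1 i, Finset.sum_sub_distrib, Finset.sum_sub_distrib,
      Finset.sum_comm]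
    congr 1
    refine Finset.sum_congr rfl fun k _ => ?_
    rw [← Finset.mul_sum]
    congr 1
    have h5 : ∀ i, (if i ∈ (τ.1 k).1 then (1 : ℤ) else 0) * a i
        = if i ∈ (τ.1 k).1 then a i else 0 := fun i => by
      split_ifs
      · rw [one_mul]
      · rw [zero_mul]
    simp only [h5]
    rw [← Finset.sum_filter, Finset.filter_mem_eq_inter, Finset.univ_inter]
  have hhull : (0 : Fin q → ℝ) ∈ convexHull ℝ (Set.range fun j => fun k => (Q j k : ℝ)) := by
    by_contra hcon
    obtain ⟨a, ha⟩ := TB.sep_of_not_hull Q hcon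
    let w := Tuple.sort a
    have hw : Monotone (a ∘ w) := Tuple.monotone_sort a
    let τ₀ : ∀ k : Fin s, {I : Finset (Fin q) // I.card = (blk b k).card} := fun k =>
      ⟨(blk b k).image w, Finset.card_image_of_injective _ w.injective⟩
    have hτ₀ : ∀ k, ∑ i ∈ (τ₀ k).1, a i = ∑ j ∈ blk b k, a (w j) := fun k =>
      Finset.sum_image fun _ _ _ _ h => w.injective h
    have h6 := sum_blk (R := ℤ) hbs (fun k => (d k : ℤ)) fun j => a (w j)
    have h7 : ∑ j, (d s : ℤ) * a (w j) = ∑ i, (d s : ℤ) * a i :=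
      Equiv.sum_comp w fun i => (d s : ℤ) * a i
    have h11 : ∑ j, ((d (b j) : ℤ) - d s) * a (w j)
        = ∑ j, a (w j) * d (b j) - ∑ i, (d s : ℤ) * a i := by
      rw [← h7, ← Finset.sum_sub_distrib]
      exact Finset.sum_congr rfl fun j _ => by ring
    by_cases hcase : τ₀ z.1 = z.2
    · -- the coordinate `z` is the minimal one
      have hm0 := card_pos' hr z
      have hmq : (blk b z.1).card < q := by
        obtain ⟨i₁, h1⟩ := (hr s).2 le_rfl
        have h2 : i₁ ∉ blk b z.1 := fun h => by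
          have := mem_blk.1 h
          have := z.1.2
          omega
        have h3 : (blk b z.1).card < (Finset.univ : Finset (Fin q)).card :=
          Finset.card_lt_card (Finset.ssubset_iff_subset_ne.2 ⟨Finset.subset_univ _, fun h => by
            rw [h] at h2
            exact h2 (Finset.mem_univ _)⟩)
        simpa using h3
      let j₂ : Fin q := ⟨(blk b z.1).card, hmq⟩
      let j₁ : Fin q := ⟨(blk b z.1).card - 1, by omega⟩
      have hj₁ : (j₁ : ℕ) + 1 = (blk b z.1).card := by
        change (blk b z.1).card - 1 + 1 = _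
        omega
      have hj₁' : j₁ ∈ blk b z.1 := (blk_ini hb _).1 (by omega)
      have hj₂' : j₂ ∉ blk b z.1 := fun h => by
        have h1 := (blk_ini hb z.1).2 h
        exact lt_irrefl _ h1
      have hmn : mnv g w (blk b z.1).card = 0 := by
        have h1 : mnv g (wy z) (blk b z.1).card = 0 := by rw [← ev_mn]; exact hz
        -- the two permutations have the same image
        have himg : (blk b z.1).image w = z.2.1 := congrArg Subtype.val hcase
        have h2 : ∀ i : {i : Fin q // (i : ℕ) < (blk b z.1).card},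
            (((wy z).symm (w i) : Fin q) : ℕ) < (blk b z.1).card := by
          intro i
          rw [mem_wy hb, ← himg]
          exact Finset.mem_image_of_mem _ ((blk_ini hb _).1 i.2)
        let v : {i : Fin q // (i : ℕ) < (blk b z.1).card} →
            {i : Fin q // (i : ℕ) < (blk b z.1).card} := fun i => ⟨(wy z).symm (w i), h2 i⟩
        have hv : Function.Injective v := fun i i' h => by
          have h3 := congrArg Subtype.val h
          exact Subtype.ext (w.injective ((wy z).symm.injective h3))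
        let v' := Equiv.ofBijective v (Finite.injective_iff_bijective.1 hv)
        have h3 : mnv g w (blk b z.1).card = ((Matrix.of fun i j :
            {i : Fin q // (i : ℕ) < (blk b z.1).card} => g (wy z i) j).submatrix v' id).det := by
          rw [mnv]
          congr 1
          ext i j
          rw [Matrix.submatrix_apply]
          change g (w i) j = g (wy z ((wy z).symm (w i))) j
          rw [Equiv.apply_symm_apply]
        rw [h3, Matrix.det_permute]
        have h4 : (Matrix.of fun i j : {i : Fin q // (i : ℕ) < (blk b z.1).card} =>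
            g (wy z i) j).det = 0 := h1
        rw [h4, mul_zero]
      have h2 := dom_all' hb hr hG hrow hρ z.1 hmn a hw hj₁
        (show (j₂ : ℕ) = (blk b z.1).card from rfl)
      let I₁ : Finset (Fin q) := insert (w j₂) (((blk b z.1).image w).erase (w j₁))
      have hwj₁ : w j₁ ∈ (blk b z.1).image w := Finset.mem_image_of_mem _ hj₁'
      have hwj₂ : w j₂ ∉ (blk b z.1).image w := fun h => by
        obtain ⟨j, hj, h'⟩ := Finset.mem_image.1 h
        rw [w.injective h'] at hj
        exact hj₂' hj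
      have hI₁ : I₁.card = (blk b z.1).card := by
        rw [Finset.card_insert_of_notMem fun h => hwj₂ (Finset.mem_of_mem_erase h),
          Finset.card_erase_of_mem hwj₁, Finset.card_image_of_injective _ w.injective]
        omega
      let τ₁ : J := ⟨Function.update τ₀ z.1 ⟨I₁, hI₁⟩, by
        rw [Function.update_self]
        intro h
        have h3 : I₁ = (blk b z.1).image w := by
          have h4 := congrArg Subtype.val (h.trans hcase.symm)
          exact h4
        exact hwj₂ (h3 ▸ Finset.mem_insert_self _ _)⟩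
      have h3 := ha τ₁
      have h4 : ∀ k, ∑ i ∈ (τ₁.1 k).1, a i = ∑ j ∈ blk b k, a (w j) +
          if k = z.1 then a (w j₂) - a (w j₁) else 0 := by
        intro k
        by_cases hk : k = z.1
        · subst hk
          rw [if_pos rfl]
          have h5 : (τ₁.1 z.1).1 = I₁ := by
            change (Function.update τ₀ z.1 ⟨I₁, hI₁⟩ z.1).1 = I₁
            rw [Function.update_self]
          rw [h5, Finset.sum_insert fun h => hwj₂ (Finset.mem_of_mem_erase h), ← hτ₀,
            ← Finset.add_sum_erase _ _ hwj₁]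
          change _ = a (w j₁) + ∑ i ∈ ((blk b z.1).image w).erase (w j₁), a i + _
          ring
        · rw [if_neg hk, add_zero, ← hτ₀]
          change ∑ i ∈ (Function.update τ₀ z.1 ⟨I₁, hI₁⟩ k).1, a i = _
          rw [Function.update_of_ne hk]
      rw [hQ] at h3
      have h5 : ∑ k : Fin s, ((d k : ℤ) - d (k + 1)) * ∑ i ∈ (τ₁.1 k).1, a i
          = ∑ j, a (w j) * d (b j) - ∑ i, (d s : ℤ) * a i
            + ((d z.1 : ℤ) - d (z.1 + 1)) * (a (w j₂) - a (w j₁)) := by
        rw [← h11, ← h6]
        simp only [h4, mul_add, mul_ite, mul_zero, Finset.sum_add_distrib, Finset.sum_ite_eq',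
          Finset.mem_univ, if_true]
      rw [h5] at h3
      linarith
    · have h3 := ha ⟨τ₀, hcase⟩
      have h2 := dom_all hb hG hα' a w hw
      rw [hQ] at h3
      simp only [hτ₀] at h3
      rw [h6, h11] at h3
      linarith
  obtain ⟨r, g', K, hK1, hK⟩ := TB.int_of_hull Q hhull
  set N : ℝ := ∑ l, (K l : ℝ) with hN
  have hN0 : 0 < N := by
    have : (1 : ℝ) ≤ N := by
      rw [hN]
      exact_mod_cast hK1
    linarith
  refine ⟨fun x => ((d x.1 : ℝ) - d (x.1 + 1)) * (∑ l, if (g' l).1 x.1 = x.2 then (K l : ℝ) else 0)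
    / N, fun x => ?_, ?_, fun k => ?_, fun i => ?_⟩
  · have h1 : (0 : ℝ) ≤ (d x.1 : ℝ) - d (x.1 + 1) := sub_nonneg.2 (by exact_mod_cast hd x.1)
    refine div_nonneg (mul_nonneg h1 (Finset.sum_nonneg fun l _ => ?_)) hN0.le
    split_ifs
    · exact Nat.cast_nonneg _
    · exact le_rfl
  · have h1 : ∑ l, (if (g' l).1 z.1 = z.2 then (K l : ℝ) else 0) = 0 :=
      Finset.sum_eq_zero fun l _ => if_neg (g' l).2
    change ((d z.1 : ℝ) - d (z.1 + 1)) * (∑ l, if (g' l).1 z.1 = z.2 then (K l : ℝ) else 0) / N = 0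
    rw [h1, mul_zero, zero_div]
  · simp only
    rw [← Finset.sum_div, ← Finset.mul_sum, Finset.sum_comm]
    have h1 : ∀ l, ∑ I, (if (g' l).1 k = I then (K l : ℝ) else 0) = K l := fun l => by
      rw [Finset.sum_ite_eq, if_pos (Finset.mem_univ _)]
    simp only [h1]
    rw [← hN, mul_div_assoc, div_self hN0.ne', mul_one]
  · rw [Fintype.sum_sigma]
    simp only
    have h1 : ∀ k : Fin s, ∑ I : {I : Finset (Fin q) // I.card = (blk b k).card},
        (if i ∈ I.1 then ((d k : ℝ) - d (k + 1)) * (∑ l, if (g' l).1 k = I then (K l : ℝ) else 0)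
          / N else 0)
        = (∑ l, (K l : ℝ) * (((d k : ℝ) - d (k + 1)) * if i ∈ ((g' l).1 k).1 then 1 else 0)) / N := by
      intro k
      rw [eq_div_iff hN0.ne', Finset.sum_mul]
      have h2 : ∀ I : {I : Finset (Fin q) // I.card = (blk b k).card},
          (if i ∈ I.1 then ((d k : ℝ) - d (k + 1)) *
            (∑ l, if (g' l).1 k = I then (K l : ℝ) else 0) / N
            else 0) * N = ∑ l, if (g' l).1 k = I then
              (K l : ℝ) * (((d k : ℝ) - d (k + 1)) * if i ∈ ((g' l).1 k).1 then 1 else 0) else 0 := by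
        intro I
        by_cases hi : i ∈ I.1
        · rw [if_pos hi, div_mul_cancel₀ _ hN0.ne', Finset.mul_sum]
          refine Finset.sum_congr rfl fun l _ => ?_
          by_cases hl : (g' l).1 k = I
          · rw [if_pos hl, if_pos hl, hl, if_pos hi]
            ring
          · rw [if_neg hl, if_neg hl, mul_zero]
        · rw [if_neg hi, zero_mul]
          refine (Finset.sum_eq_zero fun l _ => ?_).symm
          by_cases hl : (g' l).1 k = I
          · rw [if_pos hl, hl, if_neg hi, mul_zero, mul_zero]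
          · rw [if_neg hl]
      rw [Finset.sum_congr rfl fun I _ => h2 I, Finset.sum_comm]
      refine Finset.sum_congr rfl fun l _ => ?_
      rw [Finset.sum_ite_eq, if_pos (Finset.mem_univ _)]
    rw [Finset.sum_congr rfl fun k _ => h1 k, ← Finset.sum_div, Finset.sum_comm,
      div_eq_iff hN0.ne']
    have h3 := hK i
    simp only [Q, mul_sub, Finset.sum_sub_distrib] at h3
    have h4 : (∑ l, (K l : ℝ) * ∑ k : Fin s, ((d k : ℝ) - d (k + 1)) *
        (if i ∈ ((g' l).1 k).1 then 1 else 0)) = (N * ((row α i : ℝ) - d s)) := by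
      have h5 : ∑ l, (K l : ℤ) * ∑ k : Fin s, ((d k : ℤ) - d (k + 1)) *
          (if i ∈ ((g' l).1 k).1 then 1 else 0) = (∑ l, (K l : ℤ)) * ((row α i : ℤ) - d s) := by
        rw [Finset.sum_mul]
        simp only [mul_sub, Finset.sum_sub_distrib]
        linarith
      rw [hN]
      exact_mod_cast h5
    rw [mul_comm _ N, ← h4]
    refine Finset.sum_congr rfl fun l _ => ?_
    rw [Finset.mul_sum]

end Q47.CF
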