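import Pool.Agent.Q47.FL.Defs
import Pool.Agent.Q47.CY.St

/-!
# Flag bundles over quotients of complex tori: effective divisors, cones and automorphisms

`X = V / Γ` is the quotient of a complex torus by a finite group and `Y → X` is the bundle of the
flags of a given type in the fibres of the vector bundle `⊕ c_i` on `X` (see
`Pool.Agent.Q47.FL.Defs`). The linear embedding `j : E → V` describes a fibration `X → Z`: the curves
in its fibres lie in the images of the translates of `E` (`E = V` if `Z` is a point). All classes are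
classes in `N^1(Y/Z)`.
-/

set_option autoImplicit false

namespace Q47.CF

open Pool.Agent.W594.SYZ2 Pool.Agent.TH735.AQ Q47.FL MvPolynomial MeasureTheory
open Pool.Agent.Y167 (AffGrp IsClass Normalizes)
open Pool.Agent.Y167.CC (LinGrp N1 form nefCone)
open Q47.CP (hull ap Over chernCl)

variable {V W E : Type*} [NormedAddCommGroup V] [NormedSpace ℂ V] [NormedAddCommGroup W]
  [NormedSpace ℂ W] [NormedAddCommGroup E] [NormedSpace ℂ E] {Γ : AffGrp V} {q s r : ℕ}

/-- A bundle of flags `Y → X`: the weakly increasing function `b` with the values `0, ..., s`, `s ≥ 1`,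
is the type of the flags `F_0 ⊂ ... ⊂ F_s = ⊕ c_i` (the number of the `i` with `b i ≤ k` is the
dimension of `F_k`), and the line bundles `c i` on `X` have the Chern forms `Hc i`. -/
structure FlagBundle (Γ : AffGrp V) (q s : ℕ) where
  b : Fin q → ℕ
  mono : Monotone b
  range : ∀ k, (∃ i, b i = k) ↔ k ≤ s
  pos : 0 < s
  c : Fin q → LineBundle Γ
  Hc : Fin q → V → V → ℂ
  chern : ∀ i, IsChernForm (c i) (Hc i)

/-- An effective divisor `Δ = ∑ δ_l B_l` on `Y` with real coefficients: `B_l` is the divisor of the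
section `F_l` of `O_Y(d_l; M_l)`. -/
structure Bdry (Y : FlagBundle Γ q s) (r : ℕ) where
  d : Fin r → ℕ → ℕ
  M : Fin r → LineBundle Γ
  HM : Fin r → V → V → ℂ
  chern : ∀ l, IsChernForm (M l) (HM l)
  F : Fin r → V → MvPolynomial (Fin q × Fin q) ℂ
  sect : ∀ l, IsSection Y.b Y.c (d l) (M l).e (F l)
  δ : Fin r → ℝ
  pos : ∀ l, 0 < δ l

/-- The pair formed by `GL_q / P` and the divisor `∑ δ_l div f_l` is log canonical: for all `c < 1`
the function `∏ |f_l| ^ (-2 c δ_l)` is locally integrable, in the coordinates `y` at all points `g`. -/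
def IsLogCanonical (b : Fin q → ℕ) (δ : Fin r → ℝ)
    (f : Fin r → MvPolynomial (Fin q × Fin q) ℂ) : Prop :=
  ∀ g : Matrix (Fin q) (Fin q) ℂ, g.det ≠ 0 → ∀ c : ℝ, c < 1 →
    ∃ R > 0, ∫⁻ y in Metric.ball (0 : Low b → ℂ) R,
      ∏ l, ‖ev (chart b g y) (f l)‖ₑ ^ (-(2 * c * δ l)) < ⊤

variable {Y : FlagBundle Γ q s}

/-- The fibre `(Y_v, Δ_v)` of the pair `(Y, Δ)` over the image of `v` in `X` is klt: `(Y_v, C Δ_v)` is
log canonical for some `C > 1`. -/
def Bdry.IsKltAt (Δ : Bdry Y r) (v : V) : Prop :=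
  ∃ C : ℝ, 1 < C ∧ IsLogCanonical Y.b (fun l => C * Δ.δ l) fun l => Δ.F l v

/-- The automorphism of `Y` given by `(v, g) ↦ (f v, (a_i(v) g_{ij})_{ij})` maps each `B_l` to
itself. -/
def Bdry.IsFixedBy (Δ : Bdry Y r) (f : V ≃ᵃ[ℂ] V) (a : Fin q → V → ℂ) : Prop :=
  ∀ l, ∃ b : V → ℂ, Differentiable ℂ b ∧ (∀ v, b v ≠ 0) ∧
    ∀ v g, ev (Matrix.of fun i j => a i v * g i j) (Δ.F l (ap f v)) = b v * ev g (Δ.F l v)

/-- The space `N^1(Y/Z)`: on a flag bundle each line bundle is isomorphic to exactly one line bundle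
`O_Y(t; M)` with `t_s = 0`, and its class is the pair of `(t_k - t_{k+1})_{k < s}` and of the class of
`M` in `N^1(X/Z)`. -/
def NY (_ : FlagBundle Γ q s) (j : E →ₗ[ℂ] V) : Type _ := (Fin s → ℝ) × N1 Γ j

variable {j : E →ₗ[ℂ] V}

noncomputable instance : AddCommGroup (NY Y j) :=
  Prod.instAddCommGroup (G := Fin s → ℝ) (H := N1 Γ j)

noncomputable instance : Module ℝ (NY Y j) := Prod.instModule (M := Fin s → ℝ) (N := N1 Γ j)

noncomputable instance : TopologicalSpace (NY Y j) :=
  instTopologicalSpaceProd (X := Fin s → ℝ) (Y := N1 Γ j)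

/-- The class of `O_Y(t; M)`, where `x` is the class of `M`. The determinant is a section without
zeros of `O_Y(1, ..., 1; ⊗ c_i)`, so that the line bundles `O_Y(t; M)` and
`O_Y(t - t_s (1, ..., 1); M ⊗ ⊗ c_i ^ (-t_s))` are isomorphic. -/
noncomputable def cl (Y : FlagBundle Γ q s) (j : E →ₗ[ℂ] V) (t : ℕ → ℝ) (x : N1 Γ j) : NY Y j :=
  (fun k => t k - t (k + 1), x - t s • ∑ i, chernCl j (Y.chern i))

/-- The pullback of a class from `X` to `Y`. -/
noncomputable def pb (Y : FlagBundle Γ q s) (j : E →ₗ[ℂ] V) (x : N1 Γ j) : NY Y j := (0, x)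

/-- The class of the divisor given by the minor of the rows `i ∈ I` and of the columns `i` with
`b i ≤ k`, where the number of these columns is the number of elements of `I`: the minor is a section
of `O_Y(t; ⊗_{i ∈ I} c_i)`, where `t_l = 1` for `l ≤ k` and `t_l = 0` for `l > k`. -/
noncomputable def D (Y : FlagBundle Γ q s) (j : E →ₗ[ℂ] V) (k : Fin s) (I : Finset (Fin q)) :
    NY Y j :=
  (Pi.single k 1, ∑ i ∈ I, chernCl j (Y.chern i))

/-- The integral classes: the classes of line bundles on `Y`. -/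
def intY (Y : FlagBundle Γ q s) (j : E →ₗ[ℂ] V) : Set (NY Y j) :=
  {p | ∃ (t : ℕ → ℤ) (M : LineBundle Γ) (x : N1 Γ j), IsClass j M (form x) ∧
    p = cl Y j (fun k => t k) x}

/-- The cone `Eff(Y/Z)`: the convex cone spanned by the classes of the line bundles on `Y` which have
a nonzero section. (By multiplication with a power of the determinant all sections become
polynomials.) -/
def effY (Y : FlagBundle Γ q s) (j : E →ₗ[ℂ] V) : Set (NY Y j) :=
  hull {p | ∃ (t : ℕ → ℕ) (M : LineBundle Γ) (x : N1 Γ j), IsClass j M (form x) ∧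
    p = cl Y j (fun k => t k) x ∧ ∃ G, IsSection Y.b Y.c t M.e G ∧ ∃ v, G v ≠ 0}

/-- The real weight `t` with `t_s = 0` and `t_k - t_{k+1} = a_k`: its value on the column `i`. -/
noncomputable def wt (Y : FlagBundle Γ q s) (a : Fin s → ℝ) (i : Fin q) : ℝ :=
  ∑ k : Fin s, if Y.b i ≤ (k : ℕ) then a k else 0

/-- The cone `Nef(Y/Z)`: the class is nef on the fibres of `Y → X` and on the sections `X → Y` given
by the permutations `w` (at each `v` the flag given by the permutation matrix of `w`, on which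
`O_Y(t; M)` is the line bundle `M ⊗ ⊗_i c_{w i} ^ (- t_i)`). Such classes are nef: for each `w` they
are the sum of a combination with nonnegative coefficients of the divisors given by the minors of the
rows `w i`, `b i ≤ k`, and of the pullback of a nef class, and for each point of `Y` there is a `w`
such that these divisors do not contain the point. -/
def nefY (Y : FlagBundle Γ q s) (j : E →ₗ[ℂ] V) : Set (NY Y j) :=
  {p | (∀ k, 0 ≤ p.1 k) ∧ ∀ w : Equiv.Perm (Fin q),
    p.2 - ∑ i, wt Y p.1 i • chernCl j (Y.chern (w i)) ∈ nefCone Γ j}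

/-- The transformation `(v, g) ↦ (f v, (a_i(v) g_{ij})_{ij})` of `V × GL_q` induces an automorphism of
`Y`: `f` is an affine transformation of `V` which induces an automorphism of `X`, the functions `a_i`
are holomorphic without zeros, and if `f γ = γ' f`, then the diagonal matrices
`(a_i(γ v) c_i(γ, v))_i` and `(a_i(v) c_i(γ', f v))_i` are proportional. -/
def IsAutY (Y : FlagBundle Γ q s) (f : V ≃ᵃ[ℂ] V) (a : Fin q → V → ℂ) : Prop :=
  Normalizes Γ f ∧ (∀ i, Differentiable ℂ (a i)) ∧ (∀ i v, a i v ≠ 0) ∧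
    ∀ γ γ' : Γ, (∀ v, ap f (ap γ v) = ap γ' (ap f v)) → ∀ (v : V) (i k : Fin q),
      (a i (ap γ v) * (Y.c i).e γ v) * (a k v * (Y.c k).e γ' (ap f v)) =
        (a k (ap γ v) * (Y.c k).e γ v) * (a i v * (Y.c i).e γ' (ap f v))

/-- `g` is the pullback on `N^1(Y/Z)` by an automorphism of `Y` given by
`(v, g) ↦ (f v, (a_i(v) g_{ij})_{ij})`: it fixes the classes of the divisors of the minors, and it
maps the pullback of a class `z` on `X` to the pullback of `z' = f^* z`. -/
def IsPullbackY (Y : FlagBundle Γ q s) (j : E →ₗ[ℂ] V) (f : V ≃ᵃ[ℂ] V) (g : NY Y j → NY Y j) :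
    Prop :=
  (∀ (k : Fin s) (I : Finset (Fin q)), I.card = (Finset.univ.filter fun i => Y.b i ≤ k).card →
      g (D Y j k I) = D Y j k I) ∧
    ∀ z z' : N1 Γ j, (∀ e w e' w' : E, j e' = f.linear (j e) → j w' = f.linear (j w) →
      form z' e w = form z e' w') → g (pb Y j z) = pb Y j z'

/-- The anticanonical weight: the canonical bundle of `Y` over `X` is `O_Y(-anti; 1)`. -/
def anti (b : Fin q → ℕ) (k : ℕ) : ℤ :=
  ((Finset.univ.filter fun i => k < b i).card : ℤ) - (Finset.univ.filter fun i => b i < k).card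

/-- `K_Y + Δ` is numerically trivial over `Z`: here `K = O_X(m K_X)`, `m ≥ 1`, is a line bundle on `X`
with the class `x`, `ρ` defines the ramification divisor of `V → X`, and `K_Y = O_Y(-anti; K_X)`. -/
def IsCY (Δ : Bdry Y r) (j : E →ₗ[ℂ] V) : Prop :=
  ∃ (m : ℕ) (ρ : V → ℂ) (K : LineBundle Γ) (x : N1 Γ j), 1 ≤ m ∧ IsRamification Γ ρ ∧
    Pool.Agent.TH735.AQ.IsLogPluricanonical K m ρ (fun _ => 1) ∧ IsClass j K (form x) ∧
    cl Y j (fun k => -anti Y.b k) ((1 / m : ℝ) • x) +
      ∑ l, Δ.δ l • cl Y j (fun k => Δ.d l k) (chernCl j (Δ.chern l)) = 0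

/-- The group generated by the pullbacks by those automorphisms of `Y` over `Z = W / Γ'` of the form
`(v, g) ↦ (f v, (a_i(v) g_{ij})_{ij})` which map all `B_l` to themselves. -/
noncomputable def grp (Δ : Bdry Y r) (Γ' : AffGrp W) (π : V →ₗ[ℂ] W) (j : E →ₗ[ℂ] V) :
    LinGrp (NY Y j) :=
  Subgroup.closure {g | ∃ (f : V ≃ᵃ[ℂ] V) (a : Fin q → V → ℂ), IsAutY Y f a ∧ Over Γ' π f ∧
    Δ.IsFixedBy f a ∧ IsPullbackY Y j f g}

/-- The group generated by the pullbacks on `N^1(Y)` by those automorphisms of `Y` of the form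
`(v, g) ↦ (f v, (a_i(v) g_{ij})_{ij})` which map all `B_l` to themselves. -/
noncomputable def absGrp (Δ : Bdry Y r) : LinGrp (NY Y (LinearMap.id : V →ₗ[ℂ] V)) :=
  Subgroup.closure {g | ∃ (f : V ≃ᵃ[ℂ] V) (a : Fin q → V → ℂ), IsAutY Y f a ∧ Δ.IsFixedBy f a ∧
    IsPullbackY Y LinearMap.id f g}

end Q47.CF
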