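import Pool.Agent.Q47.CF.St
import Pool.Agent.Q47.CF.Rado
import Pool.Agent.Q47.TR.Lc

/-!
# Klt pairs on flag varieties: inequalities for the weights
-/

set_option autoImplicit false

namespace Q47.CF

open MvPolynomial Q47.FL

variable {q s r : ℕ}

/-- The weights of the monomials of the chart polynomial. -/
theorem chart_weights {b : Fin q → ℕ} {d : ℕ → ℕ} {f : MvPolynomial (Fin q × Fin q) ℂ}
    (hcol : ∀ α ∈ f.support, ∀ j, col α j = d (b j)) (w : Equiv.Perm (Fin q)) (a : Fin q → ℤ)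
    {β : Low b →₀ ℕ} (hβ : β ∈ (cp b w f).support) :
    ∃ α ∈ f.support, ∑ x : Low b, (a (w x.1.1) - a (w x.1.2)) * (β x : ℤ)
      = ∑ i, a i * row α i - ∑ j, a (w j) * d (b j) := by
  classical
  obtain ⟨α, hα, hgood, rfl⟩ := of_mem_cp hβ
  refine ⟨α, hα, ?_⟩
  have h2 : (∑ x : Low b, (a (w x.1.1) - a (w x.1.2)) * ((∑ y, α y • de b w y) x : ℕ) : ℤ)
      = ∑ y : Fin q × Fin q, (a y.1 - a (w y.2)) * α y := by
    simp only [Finsupp.finsetSum_apply, Finsupp.smul_apply, smul_eq_mul, Nat.cast_sum,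
      Finset.mul_sum]
    rw [Finset.sum_comm]
    refine Finset.sum_congr rfl fun y _ => ?_
    by_cases hy : α y = 0
    · simp [hy]
    rcases hgood y hy with h3 | h3
    · have h4 : ¬ b y.2 < b (w.symm y.1) := by rw [h3]; exact lt_irrefl _
      have h5 : a y.1 - a (w y.2) = 0 := by rw [← h3, Equiv.apply_symm_apply, sub_self]
      rw [h5, zero_mul]
      refine Finset.sum_eq_zero fun x _ => ?_
      rw [de, dif_neg h4]
      simp
    · rw [Finset.sum_eq_single ⟨(w.symm y.1, y.2), h3⟩]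
      · rw [de, dif_pos h3, Finsupp.single_eq_same]
        simp
      · intro x _ hx
        rw [de, dif_pos h3, Finsupp.single_eq_of_ne hx]
        simp
      · intro h
        exact absurd (Finset.mem_univ _) h
  rw [h2]
  simp only [sub_mul, Finset.sum_sub_distrib]
  congr 1
  · rw [Fintype.sum_prod_type]
    refine Finset.sum_congr rfl fun i _ => ?_
    rw [row, Nat.cast_sum, Finset.mul_sum]
  · rw [Fintype.sum_prod_type_right]
    refine Finset.sum_congr rfl fun j _ => ?_
    rw [← hcol α hα j, col, Nat.cast_sum, Finset.mul_sum]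

/-- The weight inequality for log canonical pairs. -/
theorem lc_weights {b : Fin q → ℕ} {δ : Fin r → ℝ} (hδ : ∀ l, 0 < δ l)
    {f : Fin r → MvPolynomial (Fin q × Fin q) ℂ} (hlc : IsLogCanonical b δ f)
    {d : Fin r → ℕ → ℕ} (hcol : ∀ l, ∀ α ∈ (f l).support, ∀ j, col α j = d l (b j))
    (w : Equiv.Perm (Fin q)) (a : Fin q → ℤ) (ha : ∀ j k, b j < b k → a (w j) < a (w k)) :
    ∃ α : Fin r → (Fin q × Fin q →₀ ℕ), (∀ l, α l ∈ (f l).support) ∧
      ∑ l, δ l * (∑ i, (a i : ℝ) * row (α l) i - ∑ j, (a (w j) : ℝ) * d l (b j))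
        ≤ ∑ x : Low b, ((a (w x.1.1) : ℝ) - a (w x.1.2)) := by
  classical
  have hpos : ∀ x : Low b, 0 ≤ a (w x.1.1) - a (w x.1.2) := fun x => by
    have := ha x.1.2 x.1.1 x.2
    omega
  have hr : ∀ x : Low b, (((a (w x.1.1) - a (w x.1.2)).toNat : ℕ) : ℝ)
      = (a (w x.1.1) : ℝ) - a (w x.1.2) := fun x => by
    have h1 : (((a (w x.1.1) - a (w x.1.2)).toNat : ℕ) : ℤ) = a (w x.1.1) - a (w x.1.2) :=
      Int.toNat_of_nonneg (hpos x)
    exact_mod_cast h1
  obtain ⟨β, hβ, hle⟩ := Q47.TR.weights_of_lc (S := {Set.univ}) (δ := δ) hδ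
    (f := fun l => cp b w (f l)) (fun x hx c hc => by
      have hx0 : x = 0 := by
        funext i
        have : i ∈ {i | x i = 0} := by
          rw [Set.mem_singleton_iff.1 hx]
          trivial
        exact this
      obtain ⟨R, hR, hfin⟩ := hlc (pm w) (pm_det w) c hc
      refine ⟨R, hR, ?_⟩
      rw [hx0]
      simp only [eval_cp]
      exact hfin) (fun x : Low b => (a (w x.1.1) - a (w x.1.2)).toNat) (by
      rw [Set.mem_singleton_iff, Set.eq_univ_iff_forall]
      intro x
      have := ha x.1.2 x.1.1 x.2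
      change (a (w x.1.1) - a (w x.1.2)).toNat ≠ 0
      omega)
  choose α hα hαβ using fun l => chart_weights (hcol l) w a (hβ l)
  refine ⟨α, hα, ?_⟩
  simp only [hr] at hle
  refine le_trans (le_of_eq ?_) hle
  refine Finset.sum_congr rfl fun l _ => ?_
  congr 1
  have h1 := hαβ l
  have h2 : (∑ x : Low b, ((a (w x.1.1) : ℝ) - a (w x.1.2)) * (β l x : ℝ))
      = ∑ i, (a i : ℝ) * row (α l) i - ∑ j, (a (w j) : ℝ) * d l (b j) := by exact_mod_cast h1
  exact h2.symm

/-- The inequality for klt pairs with numerically trivial log canonical divisor. -/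
theorem klt_weights {b : Fin q → ℕ} (hb : Monotone b) (hr : ∀ k, (∃ i, b i = k) ↔ k ≤ s)
    (hs : 0 < s) {δ : Fin r → ℝ} (hδ : ∀ l, 0 < δ l) {C : ℝ} (hC : 1 < C)
    {f : Fin r → MvPolynomial (Fin q × Fin q) ℂ}
    (hlc : IsLogCanonical b (fun l => C * δ l) f)
    {d : Fin r → ℕ → ℕ} (hcol : ∀ l, ∀ α ∈ (f l).support, ∀ j, col α j = d l (b j))
    {κ : ℝ} (hκ0 : 0 ≤ κ) (hκ : ∀ j, ∑ l, δ l * (d l (b j) : ℝ) = anti b (b j) + κ)
    (a : Fin q → ℕ) (i₀ : Fin q) (ha0 : a i₀ = 0) :
    ∃ α : Fin r → (Fin q × Fin q →₀ ℕ), (∀ l, α l ∈ (f l).support) ∧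
      ∑ l, δ l * ∑ i, (a i : ℝ) * row (α l) i ≤ (κ - (C - 1) / (C * q)) * ∑ i, (a i : ℝ) := by
  classical
  have hC0 : 0 < C := by linarith
  have hq : 0 < q := i₀.pos
  have hqr : (0 : ℝ) < q := by exact_mod_cast hq
  have hbj : ∀ j k : Fin q, b j < b k → j < k := fun j k h => by
    by_contra hcon
    exact absurd (hb (not_lt.1 hcon)) (not_le.2 h)
  obtain ⟨jf, hjf⟩ := (hr 0).2 (Nat.zero_le _)
  obtain ⟨jl, hjl⟩ := (hr s).2 le_rfl
  let fi : Fin q := ⟨0, hq⟩
  let la : Fin q := ⟨q - 1, by omega⟩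
  have hfi : b fi = 0 := Nat.le_zero.1 (hjf ▸ hb (Fin.le_def.2 (Nat.zero_le _)))
  have hla : b la = s := le_antisymm ((hr _).1 ⟨la, rfl⟩)
    (hjl ▸ hb (Fin.le_def.2 (by have := jl.2; simp only [la]; omega)))
  set A : ℝ := ∑ i, (a i : ℝ) with hA
  have hA0 : 0 ≤ A := Finset.sum_nonneg fun i _ => Nat.cast_nonneg _
  let K : ℝ := κ * q ^ 2 + (C - 1) / C * q
  -- the inequality for perturbed weights
  have key : ∀ M : ℕ, 0 < M → ∃ α : Fin r → (Fin q × Fin q →₀ ℕ), (∀ l, α l ∈ (f l).support) ∧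
      ∑ l, δ l * ∑ i, (a i : ℝ) * row (α l) i ≤ (κ - (C - 1) / (C * q)) * A + K / M := by
    intro M' hM'
    let M : ℕ := M' * (q + 1)
    have hMq : q < M := by
      have : 1 * (q + 1) ≤ M' * (q + 1) := Nat.mul_le_mul_right _ hM'
      simp only [M]
      omega
    have hM : 0 < M := by omega
    let a' : Fin q → ℤ := fun i => M * a i + i
    have hinj : Function.Injective a' := by
      intro i j h
      have h1 : (M : ℤ) * ((a i : ℤ) - a j) = (j : ℤ) - i := by
        simp only [a'] at h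
        linarith
      have hi : (i : ℤ) < q := by exact_mod_cast i.2
      have hj : (j : ℤ) < q := by exact_mod_cast j.2
      have hi0 : (0 : ℤ) ≤ i := Int.natCast_nonneg _
      have hj0 : (0 : ℤ) ≤ j := Int.natCast_nonneg _
      have hMz : (q : ℤ) < M := by exact_mod_cast hMq
      have h2 : (a i : ℤ) - a j = 0 := by
        by_contra hne
        rcases lt_or_gt_of_ne hne with h3 | h3
        · have h4 : (M : ℤ) * ((a i : ℤ) - a j) ≤ M * (-1) :=
            mul_le_mul_of_nonneg_left (by omega) (by linarith)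
          linarith
        · have h4 : (M : ℤ) * 1 ≤ M * ((a i : ℤ) - a j) :=
            mul_le_mul_of_nonneg_left (by omega) (by linarith)
          linarith
      rw [h2, mul_zero] at h1
      apply Fin.ext
      omega
    set w := Tuple.sort a' with hwdef
    have hmono : StrictMono (a' ∘ w) :=
      (Tuple.monotone_sort a').strictMono_of_injective (hinj.comp w.injective)
    obtain ⟨α, hα, hle⟩ := lc_weights (fun l => mul_pos hC0 (hδ l)) hlc hcol w a'
      fun j k h => hmono (hbj j k h)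
    refine ⟨α, hα, ?_⟩
    set P : ℝ := ∑ x : Low b, ((a' (w x.1.1) : ℝ) - a' (w x.1.2)) with hP
    -- the sum P
    have hPanti : P = -∑ j, (a' (w j) : ℝ) * anti b (b j) := by
      have h1 := sum_low b fun j => a' (w j)
      have h2 : (∑ x : Low b, ((a' (w x.1.1) : ℤ) - a' (w x.1.2)))
          = -∑ j, a' (w j) * anti b (b j) := h1
      rw [hP]
      exact_mod_cast h2
    have hPge : (a' (w la) : ℝ) - a' (w fi) ≤ P := by
      have h1 : b (la, fi).2 < b (la, fi).1 := by
        change b fi < b la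
        rw [hfi, hla]
        exact hs
      have h2 := Finset.single_le_sum (f := fun x : Low b => ((a' (w x.1.1) : ℝ) - a' (w x.1.2)))
        (fun x _ => by
          have := hmono (hbj _ _ x.2)
          have h3 : a' (w x.1.2) < a' (w x.1.1) := this
          have h4 : (a' (w x.1.2) : ℝ) < a' (w x.1.1) := by exact_mod_cast h3
          linarith) (Finset.mem_univ (⟨(la, fi), h1⟩ : Low b))
      exact h2
    have hmin : (a' (w fi) : ℝ) ≤ q := by
      have h1 : a' (w fi) ≤ a' (w (w.symm i₀)) :=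
        hmono.monotone (Fin.le_def.2 (Nat.zero_le _))
      rw [w.apply_symm_apply] at h1
      have h2 : a' i₀ ≤ q := by
        simp only [a', ha0]
        have := i₀.2
        push_cast
        omega
      exact_mod_cast h1.trans h2
    have hmax : (M : ℝ) * A ≤ q * a' (w la) := by
      have h1 : ∀ i, (a' i : ℝ) ≤ a' (w la) := by
        intro i
        have h2 : a' (w (w.symm i)) ≤ a' (w la) := hmono.monotone (Fin.le_def.2 (by
          have := (w.symm i).2
          simp only [la]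
          omega))
        rw [w.apply_symm_apply] at h2
        exact_mod_cast h2
      have h2 : (M : ℝ) * A ≤ ∑ i, (a' i : ℝ) := by
        rw [hA, Finset.mul_sum]
        refine Finset.sum_le_sum fun i _ => ?_
        simp only [a']
        push_cast
        linarith [Nat.cast_nonneg (α := ℝ) (i : ℕ)]
      refine h2.trans ((Finset.sum_le_sum fun i _ => h1 i).trans (le_of_eq ?_))
      rw [Finset.sum_const, Finset.card_univ, Fintype.card_fin, nsmul_eq_mul]
    have hsum' : ∑ i, (a' i : ℝ) ≤ M * A + q ^ 2 := by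
      have h1 : ∑ i, (a' i : ℝ) = M * A + ∑ i : Fin q, ((i : ℕ) : ℝ) := by
        rw [hA, Finset.mul_sum, ← Finset.sum_add_distrib]
        refine Finset.sum_congr rfl fun i _ => ?_
        simp only [a']
        push_cast
        rfl
      have h2 : ∑ i : Fin q, ((i : ℕ) : ℝ) ≤ ∑ i : Fin q, (q : ℝ) :=
        Finset.sum_le_sum fun i _ => by exact_mod_cast i.2.le
      rw [Finset.sum_const, Finset.card_univ, Fintype.card_fin, nsmul_eq_mul] at h2
      rw [h1]
      nlinarith
    -- the main inequality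
    have hmain : ∑ l, C * δ l * ∑ i, (a' i : ℝ) * row (α l) i
        ≤ C * κ * ∑ i, (a' i : ℝ) - (C - 1) * P := by
      have h1 : ∑ l, C * δ l * ∑ j, (a' (w j) : ℝ) * d l (b j)
          = C * (κ * ∑ i, (a' i : ℝ) - P) := by
        have h2 : ∑ l, C * δ l * ∑ j, (a' (w j) : ℝ) * d l (b j)
            = C * ∑ j, (a' (w j) : ℝ) * ∑ l, δ l * (d l (b j) : ℝ) := by
          simp only [Finset.mul_sum]
          rw [Finset.sum_comm]
          exact Finset.sum_congr rfl fun j _ => Finset.sum_congr rfl fun l _ => by ring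
        rw [h2]
        simp only [hκ, mul_add, Finset.sum_add_distrib]
        have h3 : ∑ j, (a' (w j) : ℝ) * κ = κ * ∑ i, (a' i : ℝ) := by
          rw [← Finset.sum_mul, mul_comm]
          congr 1
          exact Equiv.sum_comp w fun i => (a' i : ℝ)
        rw [h3, hPanti]
        ring
      simp only [mul_sub, Finset.sum_sub_distrib] at hle
      rw [h1] at hle
      linarith
    have hMr : (0 : ℝ) < M := by exact_mod_cast hM
    have hlow : (M : ℝ) * ∑ l, δ l * ∑ i, (a i : ℝ) * row (α l) i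
        ≤ ∑ l, δ l * ∑ i, (a' i : ℝ) * row (α l) i := by
      rw [Finset.mul_sum]
      refine Finset.sum_le_sum fun l _ => ?_
      rw [mul_left_comm]
      refine mul_le_mul_of_nonneg_left ?_ (hδ l).le
      rw [Finset.mul_sum]
      refine Finset.sum_le_sum fun i _ => ?_
      rw [← mul_assoc]
      refine mul_le_mul_of_nonneg_right ?_ (Nat.cast_nonneg _)
      simp only [a']
      push_cast
      linarith [Nat.cast_nonneg (α := ℝ) (i : ℕ)]
    have hmain' : ∑ l, δ l * ∑ i, (a' i : ℝ) * row (α l) i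
        ≤ κ * ∑ i, (a' i : ℝ) - (C - 1) / C * P := by
      have h1 : ∑ l, C * δ l * ∑ i, (a' i : ℝ) * row (α l) i
          = C * ∑ l, δ l * ∑ i, (a' i : ℝ) * row (α l) i := by
        rw [Finset.mul_sum]
        exact Finset.sum_congr rfl fun l _ => mul_assoc _ _ _
      rw [h1] at hmain
      have h2 : C * (κ * ∑ i, (a' i : ℝ) - (C - 1) / C * P)
          = C * κ * ∑ i, (a' i : ℝ) - (C - 1) * P := by
        field_simp
      rw [← h2] at hmain
      exact le_of_mul_le_mul_left hmain hC0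
    have hC1 : 0 ≤ (C - 1) / C := div_nonneg (by linarith) hC0.le
    have hP' : M * A / q - q ≤ P := by
      have h1 : M * A / q ≤ a' (w la) := by
        rw [div_le_iff₀ hqr]
        linarith
      linarith
    have h1 : (M : ℝ) * ∑ l, δ l * ∑ i, (a i : ℝ) * row (α l) i
        ≤ κ * (M * A + q ^ 2) - (C - 1) / C * (M * A / q - q) :=
      hlow.trans (hmain'.trans (sub_le_sub (mul_le_mul_of_nonneg_left hsum' hκ0)
        (mul_le_mul_of_nonneg_left hP' hC1)))
    have h2 : κ * (M * A + q ^ 2) - (C - 1) / C * (M * A / q - q)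
        = M * ((κ - (C - 1) / (C * q)) * A + K / M) := by
      simp only [K]
      field_simp
      ring
    rw [h2] at h1
    have h3 := le_of_mul_le_mul_left h1 hMr
    refine h3.trans ?_
    have hK0 : 0 ≤ K := add_nonneg (mul_nonneg hκ0 (sq_nonneg _)) (mul_nonneg hC1 hqr.le)
    have hM'r : (0 : ℝ) < M' := by exact_mod_cast hM'
    have h4 : (M' : ℝ) ≤ M := by
      have : M' ≤ M := Nat.le_mul_of_pos_right _ (Nat.succ_pos _)
      exact_mod_cast this
    have h5 : K / M ≤ K / M' := div_le_div_of_nonneg_left hK0 hM'r h4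
    linarith
  -- the minimum
  let J := ∀ l, {α // α ∈ (f l).support}
  obtain ⟨α₁, hα₁, -⟩ := key 1 one_pos
  have : Nonempty J := ⟨fun l => ⟨α₁ l, hα₁ l⟩⟩
  obtain ⟨α₀, hα₀⟩ := Finite.exists_min fun α : J => ∑ l, δ l * ∑ i, (a i : ℝ) * row (α l).1 i
  refine ⟨fun l => (α₀ l).1, fun l => (α₀ l).2, ?_⟩
  refine le_of_forall_pos_le_add fun ε hε => ?_
  obtain ⟨M, hM⟩ := exists_nat_gt (K / ε)
  have hK0 : 0 ≤ K := add_nonneg (mul_nonneg hκ0 (sq_nonneg _))
    (mul_nonneg (div_nonneg (by linarith) hC0.le) hqr.le)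
  have hMr : (0 : ℝ) < M := lt_of_le_of_lt (div_nonneg hK0 hε.le) hM
  obtain ⟨α, hα, hle⟩ := key M (by exact_mod_cast hMr)
  have h1 := hα₀ fun l => ⟨α l, hα l⟩
  have h2 : K / M ≤ ε := by
    rw [div_le_iff₀ hMr]
    rw [div_lt_iff₀ hε] at hM
    linarith
  simp only at h1
  linarith

end Q47.CF
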